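import Pool.Agent.Work.MP_4eca41_an.R0.Base
import Pool.Agent.Work.MP_4eca41_an.T.T1

/-! # Module R0/ConvP: pointwise criterion for convexity in the plane

PROOF. For `z, w` let `φ s = g (z + s • (w - z))`; `d2 φ h s = D2 g (h • (w - z)) (z + s • (w - z))`, so
`d2 φ h s ≥ - κ h^2 sq (w - z)` for small `h`: `t1_convex` applies (with `κ / (1 + sq (w - z))`). Convexity of all `φ` is
convexity of `g` (values at `0`, `1` and `s`). -/

set_option autoImplicit false

namespace Pool.Agent.MP_4eca41.R0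

open Set MeasureTheory

theorem convex_plane {g : ℝ × ℝ → ℝ} (hg : Continuous g)
    (h : ∀ (z : ℝ × ℝ) (κ : ℝ), 0 < κ → ∃ ρ : ℝ, 0 < ρ ∧ ∀ v : ℝ × ℝ, sq v ≤ ρ ^ 2 →
      -κ * sq v ≤ D2 g v z) : ConvexOn ℝ univ g := by
  refine ⟨convex_univ, fun z _ w _ α β hα hβ hαβ => ?_⟩
  have hS := sq_nonneg' (w - z)
  have hφ : ConvexOn ℝ univ fun s : ℝ => g (z + s • (w - z)) := by
    apply t1_convex
    · fun_prop
    · intro x κ hκ
      have hκ' : 0 < κ / (1 + sq (w - z)) := by positivity
      obtain ⟨ρ, hρ, hv⟩ := h (z + x • (w - z)) _ hκ'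
      refine ⟨ρ / (1 + sq (w - z)), by positivity, ?_⟩
      intro t ht0 ht
      rw [lt_div_iff₀ (by positivity)] at ht
      have h1 : sq (t • (w - z)) ≤ ρ ^ 2 := by
        rw [sq_smul']
        have h2 : sq (w - z) ≤ (1 + sq (w - z)) ^ 2 := by nlinarith
        calc t ^ 2 * sq (w - z) ≤ t ^ 2 * (1 + sq (w - z)) ^ 2 :=
              mul_le_mul_of_nonneg_left h2 (sq_nonneg t)
          _ = (t * (1 + sq (w - z))) ^ 2 := by ring
          _ ≤ ρ ^ 2 := pow_le_pow_left₀ (by positivity) ht.le 2
      have h3 := hv _ h1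
      have h4 : D2 g (t • (w - z)) (z + x • (w - z)) =
          d2 (fun s : ℝ => g (z + s • (w - z))) t x := by
        simp only [D2, d2, add_smul, sub_smul]
        congr 3
        · rw [add_assoc]
        · rw [add_sub_assoc]
      rw [h4, sq_smul'] at h3
      refine le_trans ?_ h3
      have h5 : κ / (1 + sq (w - z)) * (t ^ 2 * sq (w - z)) ≤ κ * t ^ 2 := by
        have h6 : κ / (1 + sq (w - z)) * (t ^ 2 * sq (w - z)) =
            κ * t ^ 2 * (sq (w - z) / (1 + sq (w - z))) := by ring
        rw [h6]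
        apply mul_le_of_le_one_right (by positivity)
        rw [div_le_one (by positivity)]
        linarith
      linarith
  have h1 := hφ.2 (mem_univ 0) (mem_univ 1) hα hβ hαβ
  simp only [smul_eq_mul, mul_zero, mul_one, zero_add, zero_smul, one_smul, add_zero,
    add_sub_cancel] at h1
  have h2 : z + β • (w - z) = α • z + β • w := by
    have h3 : α = 1 - β := by linarith
    rw [h3, smul_sub, sub_smul, one_smul]
    abel
  rw [h2] at h1
  exact h1

end Pool.Agent.MP_4eca41.R0
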