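import Pool.Agent.Work.MP_4eca41_an.R0.Adm

/-! # Module R0/Pt: pointwise estimates for the variable radius mollification (R0.8)

Notation `I(v, s, z) = U (z + v + r (z+v) • s) + U (z - v + r (z-v) • s) - 2 U (z + r z • s)`, `sq s ≤ 1`.
Let `z ∉ Γ`, `t = t z`, `r̄ = (r (z+v) + r (z-v)) / 2`, `mid = z + r̄ • s`, `v' = v + ((r (z+v) - r (z-v)) / 2) • s`. Then
`z ± v + r (z ± v) • s = mid ± v'`, so `I = D2 U v' mid + 2 (U mid - U (z + r z • s))`. As `v → 0`: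
`r (z ± v) → r z ≤ t^2 η / 16 ≤ t / 16` (`(r (z+v) - r z)^2 ≤ sq v / 16` from `dr`), so for small `v`: `mid` and
`z + r z • s` are in `cb z t`, `sq v' ≤ t^2`; `sq (mid - (z + r z • s)) ≤ (D2 r v z / 2)^2`, so by `Adm` (second part)
`|2 (U mid - U (z + r z • s))| ≤ |D2 r v z| / t ≤ (t / 4) sq v`. And `|r (z+v) - r (z-v)| / 2 ≤ |v| / 4`
(`(r (z+v) - r (z-v))^2 ≤ (|v|/4 + |v|/4)^2`), so `(1/4) sq v ≤ sq v' ≤ 4 sq v` (triangle inequality: `sq_tri`).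
`pt_low`: `I ≥ t sq v' - (t/4) sq v ≥ 0`.
`pt_upp`: for `κ > 0` let `δ1` be from `vk.flat (κ/8)` and `δ2` from `adm_small` for `min (κ/2) (δ1/2)`, `δ = min (δ1/2) δ2`. For
`y ∈ Γ`, `z ∈ cb y δ`: `t ≤ δ1/2`, `t ≤ κ/2`; `mid ∈ cb y δ1` for small `v` (`|mid - z| ≤ t / 8`); for small `v`:
`I ≤ (κ/8) sq v' + (t/4) sq v ≤ κ sq v`. -/

set_option autoImplicit false

namespace Pool.Agent.MP_4eca41.R0

open Set MeasureTheory

/-- the radius function `r` and the scale `t` -/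
structure Rk (U : ℝ × ℝ → ℝ) (Γ : Set (ℝ × ℝ)) (η : ℝ) (t r : ℝ × ℝ → ℝ) : Prop where
  smooth : ContDiff ℝ 2 r
  zero : ∀ z ∈ Γ, r z = 0
  pos : ∀ z, z ∉ Γ → 0 < r z ∧ 0 < t z ∧ t z ≤ 1 ∧ Adm U Γ z (t z)
  le : ∀ z, z ∉ Γ → r z ≤ t z ^ 2 * η / 16
  dr : ∀ z, z ∉ Γ → ∃ ρ : ℝ, 0 < ρ ∧ ∀ v : ℝ × ℝ, sq v ≤ ρ ^ 2 →
    (r (z + v) - r z) ^ 2 ≤ sq v / 16 ∧ |D2 r v z| ≤ t z ^ 2 / 4 * sq v

variable {U : ℝ × ℝ → ℝ} {Γ : Set (ℝ × ℝ)} {T : ℝ × ℝ → ℝ × ℝ} {η : ℝ} {t r : ℝ × ℝ → ℝ}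

theorem pt_core (rk : Rk U Γ η t r) (hη : η ≤ 1) {z : ℝ × ℝ} (hz : z ∉ Γ) :
    ∃ ρ : ℝ, 0 < ρ ∧ ∀ v s : ℝ × ℝ, sq v ≤ ρ ^ 2 → sq s ≤ 1 → ∃ m w : ℝ × ℝ,
      sq (m - z) ≤ (t z / 8) ^ 2 ∧ sq v / 2 ≤ sq w ∧ sq w ≤ 25 / 16 * sq v ∧
      sq v ≤ (t z / 4) ^ 2 ∧
      |U (z + v + r (z + v) • s) + U (z - v + r (z - v) • s) - 2 * U (z + r z • s) -
        D2 U w m| ≤ t z / 4 * sq v := by
  obtain ⟨hr0, ht0, ht1, hadm⟩ := rk.pos z hz
  have hrle := rk.le z hz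
  obtain ⟨ρ0, hρ0, hdr⟩ := rk.dr z hz
  refine ⟨min ρ0 (t z / 4), by positivity, fun v s hv hs => ?_⟩
  have hv0 : sq v ≤ ρ0 ^ 2 := hv.trans (pow_le_pow_left₀ (by positivity) (min_le_left _ _) 2)
  have hvt : sq v ≤ (t z / 4) ^ 2 :=
    hv.trans (pow_le_pow_left₀ (by positivity) (min_le_right _ _) 2)
  obtain ⟨h1, h2⟩ := hdr v hv0
  obtain ⟨h3, -⟩ := hdr (-v) (by rw [sq_neg']; exact hv0)
  rw [sq_neg', ← sub_eq_add_neg] at h3
  -- the length of `v`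
  obtain ⟨n, hn0, hn⟩ : ∃ n : ℝ, 0 ≤ n ∧ sq v = n ^ 2 :=
    ⟨Real.sqrt (sq v), Real.sqrt_nonneg _, (Real.sq_sqrt (sq_nonneg' v)).symm⟩
  have hnt : n ≤ t z / 4 := by
    rw [hn] at hvt
    exact (sq_le_sq₀ hn0 (by positivity)).1 hvt
  have hrt : r z ≤ t z / 16 := by
    have : t z ^ 2 * η / 16 ≤ t z / 16 := by
      have h5 : t z ^ 2 * η ≤ t z ^ 2 * 1 := mul_le_mul_of_nonneg_left hη (by positivity)
      nlinarith
    linarith
  set a := r (z + v) with ha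
  set b := r (z - v) with hb
  set c := r z with hc
  rw [hn] at h1 h3
  have h1' : |a - c| ≤ n / 4 := by
    apply abs_le_of_sq_le_sq _ (by positivity)
    calc (a - c) ^ 2 ≤ n ^ 2 / 16 := h1
      _ = (n / 4) ^ 2 := by ring
  have h3' : |b - c| ≤ n / 4 := by
    apply abs_le_of_sq_le_sq _ (by positivity)
    calc (b - c) ^ 2 ≤ n ^ 2 / 16 := h3
      _ = (n / 4) ^ 2 := by ring
  rw [abs_le] at h1' h3'
  -- the offset
  have hab : sq (((a - b) / 2) • s) ≤ (n / 4) ^ 2 := by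
    rw [sq_smul']
    have h5 : ((a - b) / 2) ^ 2 ≤ (n / 4) ^ 2 := by
      apply sq_le_sq'
      · linarith
      · linarith
    calc ((a - b) / 2) ^ 2 * sq s ≤ (n / 4) ^ 2 * 1 :=
          mul_le_mul h5 hs (sq_nonneg' s) (by positivity)
      _ = (n / 4) ^ 2 := by ring
  have hdot : |dot v (((a - b) / 2) • s)| ≤ n * (n / 4) := by
    apply abs_le_of_sq_le_sq _ (by positivity)
    calc dot v (((a - b) / 2) • s) ^ 2 ≤ sq v * sq (((a - b) / 2) • s) := dot_sq_le _ _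
      _ ≤ n ^ 2 * (n / 4) ^ 2 := by
          rw [hn]; exact mul_le_mul_of_nonneg_left hab (by positivity)
      _ = (n * (n / 4)) ^ 2 := by ring
  rw [abs_le] at hdot
  have hw := sq_add' v (((a - b) / 2) • s)
  have hw0 := sq_nonneg' (((a - b) / 2) • s)
  have hmz : sq (z + ((a + b) / 2) • s - z) ≤ (t z / 8) ^ 2 := by
    rw [add_sub_cancel_left, sq_smul']
    have h5 : ((a + b) / 2) ^ 2 ≤ (t z / 8) ^ 2 := by
      apply sq_le_sq'
      · linarith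
      · linarith
    calc ((a + b) / 2) ^ 2 * sq s ≤ (t z / 8) ^ 2 * 1 :=
          mul_le_mul h5 hs (sq_nonneg' s) (by positivity)
      _ = (t z / 8) ^ 2 := by ring
  have hcz : sq (z + c • s - z) ≤ (t z / 16) ^ 2 := by
    rw [add_sub_cancel_left, sq_smul']
    have h5 : c ^ 2 ≤ (t z / 16) ^ 2 := by
      apply sq_le_sq'
      · linarith
      · linarith
    calc c ^ 2 * sq s ≤ (t z / 16) ^ 2 * 1 :=
          mul_le_mul h5 hs (sq_nonneg' s) (by positivity)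
      _ = (t z / 16) ^ 2 := by ring
  refine ⟨z + ((a + b) / 2) • s, v + ((a - b) / 2) • s, hmz, ?_, ?_, hvt, ?_⟩
  · rw [hw, hn]; nlinarith
  · rw [hw, hn]; nlinarith
  · have e1 : z + v + a • s = z + ((a + b) / 2) • s + (v + ((a - b) / 2) • s) := by
      ext <;> simp <;> ring
    have e2 : z - v + b • s = z + ((a + b) / 2) • s - (v + ((a - b) / 2) • s) := by
      ext <;> simp <;> ring
    rw [e1, e2]
    have e3 : U (z + ((a + b) / 2) • s + (v + ((a - b) / 2) • s)) +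
        U (z + ((a + b) / 2) • s - (v + ((a - b) / 2) • s)) - 2 * U (z + c • s) -
        D2 U (v + ((a - b) / 2) • s) (z + ((a + b) / 2) • s) =
        2 * (U (z + ((a + b) / 2) • s) - U (z + c • s)) := by
      simp only [D2]; ring
    rw [e3]
    have hlip := hadm.2 (z + ((a + b) / 2) • s)
      (hmz.trans (pow_le_pow_left₀ (by positivity) (by linarith) 2)) (z + c • s)
      (hcz.trans (pow_le_pow_left₀ (by positivity) (by linarith) 2))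
    have e4 : sq (z + ((a + b) / 2) • s - (z + c • s)) = (D2 r v z / 2) ^ 2 * sq s := by
      have : z + ((a + b) / 2) • s - (z + c • s) = (D2 r v z / 2) • s := by
        have hD : D2 r v z / 2 = (a + b) / 2 - c := by simp only [D2, ← ha, ← hb, ← hc]; ring
        rw [hD]
        ext <;> simp <;> ring
      rw [this, sq_smul']
    rw [e4] at hlip
    have h6 : (t z * (U (z + ((a + b) / 2) • s) - U (z + c • s))) ^ 2 ≤
        (D2 r v z / 2) ^ 2 := by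
      calc (t z * (U (z + ((a + b) / 2) • s) - U (z + c • s))) ^ 2 =
          t z ^ 2 * (U (z + ((a + b) / 2) • s) - U (z + c • s)) ^ 2 := by ring
        _ ≤ (D2 r v z / 2) ^ 2 * sq s := hlip
        _ ≤ (D2 r v z / 2) ^ 2 * 1 := mul_le_mul_of_nonneg_left hs (by positivity)
        _ = (D2 r v z / 2) ^ 2 := by ring
    have h7 := sq_le_sq.1 h6
    rw [abs_mul, abs_of_pos ht0, abs_div, abs_two] at h7
    rw [abs_mul, abs_two]
    have h8 : t z * (2 * |U (z + ((a + b) / 2) • s) - U (z + c • s)|) ≤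
        t z * (t z / 4 * sq v) := by
      calc t z * (2 * |U (z + ((a + b) / 2) • s) - U (z + c • s)|) =
          2 * (t z * |U (z + ((a + b) / 2) • s) - U (z + c • s)|) := by ring
        _ ≤ 2 * (|D2 r v z| / 2) := by linarith
        _ = |D2 r v z| := by ring
        _ ≤ t z ^ 2 / 4 * sq v := h2
        _ = t z * (t z / 4 * sq v) := by ring
    exact le_of_mul_le_mul_left h8 ht0

theorem pt_low (rk : Rk U Γ η t r) (hη : η ≤ 1) {z : ℝ × ℝ} (hz : z ∉ Γ) :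
    ∃ ρ : ℝ, 0 < ρ ∧ ∀ v s : ℝ × ℝ, sq v ≤ ρ ^ 2 → sq s ≤ 1 →
      0 ≤ U (z + v + r (z + v) • s) + U (z - v + r (z - v) • s) - 2 * U (z + r z • s) := by
  obtain ⟨ρ, hρ, H⟩ := pt_core rk hη hz
  obtain ⟨hr0, ht0, ht1, hadm⟩ := rk.pos z hz
  refine ⟨ρ, hρ, fun v s hv hs => ?_⟩
  obtain ⟨m, w, h1, h2, h3, h4, h5⟩ := H v s hv hs
  have hv0 := sq_nonneg' v
  have h6 := (hadm.1 m (h1.trans (pow_le_pow_left₀ (by positivity) (by linarith) 2))).2 w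
    (h3.trans (by nlinarith))
  rw [abs_le] at h5
  have h7 : t z * (sq v / 2) ≤ t z * sq w := mul_le_mul_of_nonneg_left h2 ht0.le
  have h8 : 0 ≤ t z * sq v := mul_nonneg ht0.le hv0
  linarith [h5.1]

theorem pt_upp (vk : Vk U Γ T) (rk : Rk U Γ η t r) (hη : η ≤ 1) {κ : ℝ} (hκ : 0 < κ) :
    ∃ δ : ℝ, 0 < δ ∧ ∀ y ∈ Γ, ∀ z ∈ cb y δ, z ∉ Γ → ∃ ρ : ℝ, 0 < ρ ∧
      ∀ v s : ℝ × ℝ, sq v ≤ ρ ^ 2 → sq s ≤ 1 →
        U (z + v + r (z + v) • s) + U (z - v + r (z - v) • s) - 2 * U (z + r z • s) ≤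
          κ * sq v := by
  obtain ⟨δ1, hδ1, hf⟩ := vk.flat (κ / 8) (by positivity)
  obtain ⟨δ2, hδ2, hs⟩ := adm_small vk (κ := min (κ / 2) (δ1 / 2)) (by positivity)
  refine ⟨min (δ1 / 2) δ2, by positivity, fun y hy z hz hzΓ => ?_⟩
  obtain ⟨ρ, hρ, H⟩ := pt_core rk hη hzΓ
  obtain ⟨hr0, ht0, ht1, hadm⟩ := rk.pos z hzΓ
  have hz1 : sq (z - y) ≤ (δ1 / 2) ^ 2 :=
    (mem_cb.1 hz).trans (pow_le_pow_left₀ (by positivity) (min_le_left _ _) 2)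
  have hz2 : z ∈ cb y δ2 :=
    (mem_cb.1 hz).trans (pow_le_pow_left₀ (by positivity) (min_le_right _ _) 2)
  have htt := hs y hy z hz2 (t z) ht0 hadm
  have ht2 : t z ≤ κ / 2 := htt.trans (min_le_left _ _)
  have ht3 : t z ≤ δ1 / 2 := htt.trans (min_le_right _ _)
  refine ⟨ρ, hρ, fun v s hv hs => ?_⟩
  obtain ⟨m, w, h1, h2, h3, h4, h5⟩ := H v s hv hs
  have hv0 := sq_nonneg' v
  have hm : m ∈ cb y δ1 := by
    rw [mem_cb]
    have e : m - y = (m - z) + (z - y) := by abel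
    rw [e]
    refine (sq_tri (by positivity) (by positivity) h1 hz1).trans ?_
    exact pow_le_pow_left₀ (by positivity) (by linarith) 2
  have hw : sq w ≤ δ1 ^ 2 := by
    refine h3.trans ?_
    nlinarith
  have h6 := hf y hy m hm w hw
  rw [abs_le] at h5
  have h7 : κ / 8 * sq w ≤ κ / 8 * (25 / 16 * sq v) :=
    mul_le_mul_of_nonneg_left h3 (by positivity)
  have h8 : t z * sq v ≤ κ / 2 * sq v := mul_le_mul_of_nonneg_right ht2 hv0
  have h9 : 0 ≤ κ * sq v := mul_nonneg hκ.le hv0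
  linarith [h5.2]

end Pool.Agent.MP_4eca41.R0
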