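import Pool.Agent.Work.MP_4eca41_an.R0.MolD
import Pool.Agent.Work.MP_4eca41_an.R0.Pt

/-! # Module R0/ExpG: expansions of the mollified function on `Γ` (R0.8)

`near_tan` PROOF. `δ` from `vk.flat κ`. For `y ∈ Γ`, `sq w ≤ δ^2`: `D2 U w y ≤ κ sq w` (`y ∈ cb y δ`) and
`U (y - w) ≥ U y - dot (T y) w` (`vk.tan`), so `U (y + w) ≤ U y + dot (T y) w + κ sq w`.
`exp_gam` PROOF. Coefficients: `vk.cT` and constants. For `κ > 0` take `δ` from `near_tan` for `κ/4` and use `δ/2`. Let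
`y ∈ Γ`, `sq v ≤ (δ/2)^2`, `g = T.mol2 U r`. `g y = U y` (`mol_zero`, `rk.zero`). Lower bound: `mol_ge` with `vk.tan`. Upper bound:
`z = y + v`; `0 ≤ r z` and `(r z)^2 ≤ sq v` (if `z ∈ Γ`: `r z = 0`; otherwise `r z ≤ (t z)^2 η / 16 ≤ t z` and `(t z)^2 < sq (y - z) = sq v` by
`adm_dist`); so for `sq s ≤ 1` the vector `w = v + r z • s` has `sq w ≤ 4 sq v ≤ δ^2` and `U (y + w) ≤ U y + dot (T y) w + κ sq v`;
`mol_le_aff` with `c = κ sq v` gives `g (y + v) ≤ U y + dot (T y) v + κ sq v`. The quadratic part of the jet is zero. -/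

set_option autoImplicit false

namespace Pool.Agent.MP_4eca41.R0

open Set MeasureTheory

variable {U : ℝ × ℝ → ℝ} {Γ : Set (ℝ × ℝ)} {T : ℝ × ℝ → ℝ × ℝ} {η : ℝ} {t r : ℝ × ℝ → ℝ}

theorem near_tan (vk : Vk U Γ T) {κ : ℝ} (hκ : 0 < κ) : ∃ δ : ℝ, 0 < δ ∧ ∀ y ∈ Γ,
    ∀ w : ℝ × ℝ, sq w ≤ δ ^ 2 → U (y + w) ≤ U y + dot (T y) w + κ * sq w := by
  obtain ⟨δ, hδ, hf⟩ := vk.flat κ hκ
  refine ⟨δ, hδ, fun y hy w hw => ?_⟩
  have h1 := hf y hy y (self_mem_cb y δ) w hw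
  have h2 := vk.tan y hy (y - w)
  have h3 : y - w - y = -w := by abel
  rw [h3, dot_neg_right] at h2
  unfold D2 at h1
  linarith

theorem exp_gam (vk : Vk U Γ T) (rk : Rk U Γ η t r) (hη : η ≤ 1) :
    Exp2 (MP_4eca41.T.mol2 U r) Γ ⟨fun y => (T y).1, fun y => (T y).2, fun _ => 0, fun _ => 0, fun _ => 0⟩ := by
  have hUc : Continuous U := continuous_of_convex vk.conv
  refine ⟨continuous_fst.comp_continuousOn vk.cT, continuous_snd.comp_continuousOn vk.cT,
    continuousOn_const, continuousOn_const, continuousOn_const, fun κ hκ => ?_⟩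
  obtain ⟨δ, hδ, hnt⟩ := near_tan vk (κ := κ / 4) (by positivity)
  refine ⟨δ / 2, by positivity, fun y hy v hv => ?_⟩
  have hv0 := sq_nonneg' v
  have hgy : MP_4eca41.T.mol2 U r y = U y := mol_zero (rk.zero y hy)
  have hq : (⟨fun y => (T y).1, fun y => (T y).2, fun _ => 0, fun _ => 0, fun _ => 0⟩ : Jets).q y v
      = dot (T y) v := by
    simp only [Jets.q, dot]; ring
  rw [hq, hgy]
  -- the radius at `y + v`
  have hr : 0 ≤ r (y + v) ∧ r (y + v) ^ 2 ≤ sq v := by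
    by_cases hz : y + v ∈ Γ
    · rw [rk.zero _ hz]; exact ⟨le_rfl, by simpa using hv0⟩
    · obtain ⟨hr0, ht0, ht1, hadm⟩ := rk.pos _ hz
      have hrle := rk.le _ hz
      have hd := adm_dist hadm hy
      have h5 : y - (y + v) = -v := by abel
      rw [h5, sq_neg'] at hd
      have h6 : r (y + v) ≤ t (y + v) := by
        have h7 : t (y + v) ^ 2 * η ≤ t (y + v) ^ 2 * 1 :=
          mul_le_mul_of_nonneg_left hη (by positivity)
        nlinarith
      refine ⟨hr0.le, ?_⟩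
      have h8 : r (y + v) ^ 2 ≤ t (y + v) ^ 2 := pow_le_pow_left₀ hr0.le h6 2
      linarith
  -- lower bound
  have hlow := mol_ge (r := r) hUc (z := y + v) (y := y) (q := T y) (a := U y)
    (fun w => vk.tan y hy w)
  rw [add_sub_cancel_left] at hlow
  -- upper bound
  have hupp : MP_4eca41.T.mol2 U r (y + v) ≤ U y + dot (T y) (y + v - y) + κ * sq v := by
    apply mol_le_aff hUc
    intro s hs
    obtain ⟨n, hn0, hn⟩ : ∃ n : ℝ, 0 ≤ n ∧ sq v = n ^ 2 :=
      ⟨Real.sqrt (sq v), Real.sqrt_nonneg _, (Real.sq_sqrt hv0).symm⟩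
    have h1 : sq (r (y + v) • s) ≤ n ^ 2 := by
      rw [sq_smul', ← hn]
      calc r (y + v) ^ 2 * sq s ≤ sq v * 1 := mul_le_mul hr.2 hs (sq_nonneg' s) hv0
        _ = sq v := mul_one _
    have h2 : sq (v + r (y + v) • s) ≤ (n + n) ^ 2 := sq_tri hn0 hn0 hn.le h1
    have h3 : sq (v + r (y + v) • s) ≤ 4 * sq v := by rw [hn]; nlinarith
    have h4 : sq (v + r (y + v) • s) ≤ δ ^ 2 := by nlinarith
    have h5 := hnt y hy _ h4
    have e1 : y + v + r (y + v) • s = y + (v + r (y + v) • s) := by abel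
    have e2 : y + (v + r (y + v) • s) - y = v + r (y + v) • s := by abel
    rw [e1, e2]
    have h6 : κ / 4 * sq (v + r (y + v) • s) ≤ κ / 4 * (4 * sq v) :=
      mul_le_mul_of_nonneg_left h3 (by positivity)
    linarith
  rw [add_sub_cancel_left] at hupp
  rw [abs_le]
  have h9 : 0 ≤ κ * sq v := mul_nonneg hκ.le hv0
  constructor <;> linarith

end Pool.Agent.MP_4eca41.R0
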