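import Pool.Agent.Work.MP_4eca41_an.R0.Unq

/-! # Module R0/Gam: the compact set `Γ` (R0.2)

Let `K ⊆ cb 0 R` (`R > 0`). DEFINITION. `z ∈ Γ` if `z ∈ cb 0 R` and there is `y ∈ K` with
(1) `L z = L y + dot (g y) (z - y)` and (2) `L (z + v) ≤ L z + dot (g y) v + G v` for all `v`; `T z = g y` for such a `y`.
FACTS. (a) (1) and `ht` give `L z + dot (g y) (z' - z) = L y + dot (g y) (z' - y) ≤ L z'`.
(b) UNIQUENESS: if `q` is any vector with `L z + dot q v ≤ L (z + v)` for all `v`, then `q = g y` (`unq` with (2) and `hG`);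
in particular `g y = T z` for every admissible `y`, and `T y = g y` for `y ∈ K` (`y` is admissible for itself by `hu`).
(c) COMPACTNESS: the set of pairs `(z, y) ∈ cb 0 R ×ˢ K` with (1), (2) is closed in the compact product (`L` continuous,
`g` continuous on `K`; each condition (2) for fixed `v` is closed; no continuity of `G` is needed), so it is compact
and `Γ` is its first projection. `K ⊆ Γ`.
(d) `T` is continuous on `Γ`: if `z_n → z` in `Γ` with admissible `y_n`, every subsequence has a further one with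
`y_n → y ∈ K`; `(z, y)` is admissible, so `T z_n = g y_n → g y = T z`.
(e) HULL: let `y ∈ Γ` with admissible `y0 ∈ K`, `A z = L y + dot (T y) (z - y) = L y0 + dot (g y0) (z - y0)`, `A ≤ L`. If
`z ∈ Γ`, `L z = A z`, then by (b) `T z = T y`, so `L (z + v) ≤ A (z + v) + G v` for all `v`. If this holds for `z` and `z'`
(in `Γ`), then for `z'' = s z + t z'`: `L (z'' + v) ≤ s L (z + v) + t L (z' + v) ≤ A (z'' + v) + G v`; and with `v = 0`:
`L z'' ≤ A z'' + G 0`; `G 0 ≤ 0` by `hG` (`sq 0 = 0`), so `L z'' = A z''`; `z'' ∈ cb 0 R` (convex). So `y0` is admissible for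
`z''`, `z'' ∈ Γ`. -/

set_option autoImplicit false

namespace Pool.Agent.MP_4eca41.R0

open Set MeasureTheory

/-- `y` is admissible for `z` -/
private def Adm (L G : ℝ × ℝ → ℝ) (K : Set (ℝ × ℝ)) (g : ℝ × ℝ → ℝ × ℝ) (z y : ℝ × ℝ) : Prop :=
  y ∈ K ∧ L z = L y + dot (g y) (z - y) ∧ ∀ v, L (z + v) ≤ L z + dot (g y) v + G v

private theorem adm_below {L G : ℝ × ℝ → ℝ} {K : Set (ℝ × ℝ)} {g : ℝ × ℝ → ℝ × ℝ}
    (ht : ∀ y ∈ K, ∀ z, L y + dot (g y) (z - y) ≤ L z) {z y : ℝ × ℝ} (h : Adm L G K g z y)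
    (v : ℝ × ℝ) : L z + dot (g y) v ≤ L (z + v) := by
  have h1 := ht y h.1 (z + v)
  have h2 : dot (g y) (z + v - y) = dot (g y) (z - y) + dot (g y) v := by
    rw [← dot_add_right]
    congr 1
    abel
  rw [h2] at h1
  have h3 := h.2.1
  linarith

private theorem adm_uniq {L G : ℝ × ℝ → ℝ} {K : Set (ℝ × ℝ)} {g : ℝ × ℝ → ℝ × ℝ}
    (hG : ∀ ε : ℝ, 0 < ε → ∃ δ : ℝ, 0 < δ ∧ ∀ v, sq v ≤ δ ^ 2 → G v ≤ ε * sq v)
    {z y q : ℝ × ℝ} (h : Adm L G K g z y) (hq : ∀ v, L z + dot q v ≤ L (z + v)) : q = g y := by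
  apply unq
  intro κ hκ
  obtain ⟨δ, hδ, hv⟩ := hG κ hκ
  refine ⟨δ, hδ, fun v h1 => ?_⟩
  have h2 := hq v
  have h3 := h.2.2 v
  have h4 := hv v h1
  linarith

theorem gam_ex {L G : ℝ × ℝ → ℝ} {K : Set (ℝ × ℝ)} {g : ℝ × ℝ → ℝ × ℝ}
    (hL : ConvexOn ℝ univ L) (hK : IsCompact K) (hg : ContinuousOn g K)
    (ht : ∀ y ∈ K, ∀ z, L y + dot (g y) (z - y) ≤ L z)
    (hu : ∀ y ∈ K, ∀ v, L (y + v) ≤ L y + dot (g y) v + G v)
    (hG : ∀ ε : ℝ, 0 < ε → ∃ δ : ℝ, 0 < δ ∧ ∀ v, sq v ≤ δ ^ 2 → G v ≤ ε * sq v) :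
    ∃ (Γ : Set (ℝ × ℝ)) (T : ℝ × ℝ → ℝ × ℝ), IsCompact Γ ∧ K ⊆ Γ ∧ ContinuousOn T Γ ∧
      (∀ y ∈ K, T y = g y) ∧ (∀ y ∈ Γ, ∀ z, L y + dot (T y) (z - y) ≤ L z) ∧
      (∀ y ∈ Γ, ∀ v, L (y + v) ≤ L y + dot (T y) v + G v) ∧
      ∀ y ∈ Γ, Convex ℝ {z | z ∈ Γ ∧ L z = L y + dot (T y) (z - y)} := by
  classical
  have hLc : Continuous L := continuous_of_convex hL
  obtain ⟨R, hR⟩ := hK.isBounded.subset_closedBall (0 : ℝ × ℝ)
  set B : Set (ℝ × ℝ) := Metric.closedBall (0 : ℝ × ℝ) R with hB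
  have hBc : IsCompact B := isCompact_closedBall _ _
  have hBv : Convex ℝ B := convex_closedBall _ _
  have hCc : IsCompact (B ×ˢ K) := hBc.prod hK
  have hCcl : IsClosed (B ×ˢ K) := hCc.isClosed
  have hg2 : ContinuousOn (fun p : (ℝ × ℝ) × (ℝ × ℝ) => g p.2) (B ×ˢ K) :=
    hg.comp continuousOn_snd (fun p hp => hp.2)
  set φ : (ℝ × ℝ) × (ℝ × ℝ) → ℝ := fun p => L p.1 - (L p.2 + dot (g p.2) (p.1 - p.2)) with hφ
  set ψ : (ℝ × ℝ) → (ℝ × ℝ) × (ℝ × ℝ) → ℝ :=
    fun v p => L (p.1 + v) - (L p.1 + dot (g p.2) v) with hψ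
  have cφ : ContinuousOn φ (B ×ˢ K) := by
    have h1 : ContinuousOn (fun p : (ℝ × ℝ) × (ℝ × ℝ) => L p.1) (B ×ˢ K) :=
      (hLc.comp continuous_fst).continuousOn
    have h2 : ContinuousOn (fun p : (ℝ × ℝ) × (ℝ × ℝ) => L p.2) (B ×ˢ K) :=
      (hLc.comp continuous_snd).continuousOn
    have h3 : ContinuousOn (fun p : (ℝ × ℝ) × (ℝ × ℝ) => dot (g p.2) (p.1 - p.2)) (B ×ˢ K) := by
      unfold dot
      have a1 : ContinuousOn (fun p : (ℝ × ℝ) × (ℝ × ℝ) => (g p.2).1) (B ×ˢ K) := hg2.fst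
      have a2 : ContinuousOn (fun p : (ℝ × ℝ) × (ℝ × ℝ) => (g p.2).2) (B ×ˢ K) := hg2.snd
      have b1 : ContinuousOn (fun p : (ℝ × ℝ) × (ℝ × ℝ) => (p.1 - p.2).1) (B ×ˢ K) := by
        fun_prop
      have b2 : ContinuousOn (fun p : (ℝ × ℝ) × (ℝ × ℝ) => (p.1 - p.2).2) (B ×ˢ K) := by
        fun_prop
      exact (a1.mul b1).add (a2.mul b2)
    exact h1.sub (h2.add h3)
  have cψ : ∀ v, ContinuousOn (ψ v) (B ×ˢ K) := by
    intro v
    have h1 : ContinuousOn (fun p : (ℝ × ℝ) × (ℝ × ℝ) => L (p.1 + v)) (B ×ˢ K) :=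
      (hLc.comp (continuous_fst.add continuous_const)).continuousOn
    have h2 : ContinuousOn (fun p : (ℝ × ℝ) × (ℝ × ℝ) => L p.1) (B ×ˢ K) :=
      (hLc.comp continuous_fst).continuousOn
    have h3 : ContinuousOn (fun p : (ℝ × ℝ) × (ℝ × ℝ) => dot (g p.2) v) (B ×ˢ K) := by
      unfold dot
      have a1 : ContinuousOn (fun p : (ℝ × ℝ) × (ℝ × ℝ) => (g p.2).1) (B ×ˢ K) := hg2.fst
      have a2 : ContinuousOn (fun p : (ℝ × ℝ) × (ℝ × ℝ) => (g p.2).2) (B ×ˢ K) := hg2.snd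
      exact (a1.mul continuousOn_const).add (a2.mul continuousOn_const)
    exact h1.sub (h2.add h3)
  -- the set of admissible pairs
  set P : Set ((ℝ × ℝ) × (ℝ × ℝ)) := {p | p.1 ∈ B ∧ Adm L G K g p.1 p.2} with hP
  have hPeq : P = ((B ×ˢ K) ∩ φ ⁻¹' {0}) ∩ ⋂ v, ((B ×ˢ K) ∩ ψ v ⁻¹' Iic (G v)) := by
    ext p
    simp only [hP, mem_setOf_eq, Adm, mem_inter_iff, mem_prod, mem_preimage, mem_singleton_iff,
      mem_iInter, mem_Iic, hφ, hψ]
    constructor
    · rintro ⟨h1, h2, h3, h4⟩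
      refine ⟨⟨⟨h1, h2⟩, by linarith⟩, fun v => ⟨⟨h1, h2⟩, ?_⟩⟩
      have := h4 v
      linarith
    · rintro ⟨⟨⟨h1, h2⟩, h3⟩, h4⟩
      refine ⟨h1, h2, by linarith, fun v => ?_⟩
      have := (h4 v).2
      linarith
  have hPcl : IsClosed P := by
    rw [hPeq]
    refine (cφ.preimage_isClosed_of_isClosed hCcl isClosed_singleton).inter (isClosed_iInter ?_)
    intro v
    exact (cψ v).preimage_isClosed_of_isClosed hCcl isClosed_Iic
  have hPsub : P ⊆ B ×ˢ K := fun p hp => ⟨hp.1, hp.2.1⟩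
  have hPc : IsCompact P := hCc.of_isClosed_subset hPcl hPsub
  set T : ℝ × ℝ → ℝ × ℝ := fun z => if h : ∃ y, Adm L G K g z y then g h.choose else 0 with hT
  have hTe : ∀ z y, Adm L G K g z y → T z = g y := by
    intro z y h
    have hex : ∃ y, Adm L G K g z y := ⟨y, h⟩
    have h1 : T z = g hex.choose := by
      simp only [hT]
      rw [dif_pos hex]
    rw [h1]
    exact adm_uniq hG h (adm_below ht hex.choose_spec)
  have hKadm : ∀ y ∈ K, Adm L G K g y y := by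
    intro y hy
    refine ⟨hy, ?_, fun v => hu y hy v⟩
    rw [sub_self, dot_zero_right, add_zero]
  have hG0 : G 0 ≤ 0 := by
    obtain ⟨δ, _, hv⟩ := hG 1 one_pos
    have h1 := hv 0 (by rw [sq_zero']; positivity)
    rw [sq_zero'] at h1
    linarith
  refine ⟨Prod.fst '' P, T, hPc.image continuous_fst, ?_, ?_, ?_, ?_, ?_, ?_⟩
  · intro y hy
    exact ⟨(y, y), ⟨hR hy, hKadm y hy⟩, rfl⟩
  · rw [continuousOn_iff_isClosed]
    intro F hF
    have hg3 : ContinuousOn (fun p : (ℝ × ℝ) × (ℝ × ℝ) => g p.2) P := hg2.mono hPsub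
    have hcl : IsClosed (P ∩ (fun p : (ℝ × ℝ) × (ℝ × ℝ) => g p.2) ⁻¹' F) :=
      hg3.preimage_isClosed_of_isClosed hPcl hF
    have hcp : IsCompact (P ∩ (fun p : (ℝ × ℝ) × (ℝ × ℝ) => g p.2) ⁻¹' F) :=
      hPc.of_isClosed_subset hcl inter_subset_left
    refine ⟨Prod.fst '' (P ∩ (fun p : (ℝ × ℝ) × (ℝ × ℝ) => g p.2) ⁻¹' F),
      (hcp.image continuous_fst).isClosed, ?_⟩
    ext z
    constructor
    · rintro ⟨hz, ⟨p, hp, rfl⟩⟩
      refine ⟨⟨p, ⟨hp, ?_⟩, rfl⟩, ⟨p, hp, rfl⟩⟩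
      have := hTe _ _ hp.2
      rw [mem_preimage] at hz ⊢
      rwa [this] at hz
    · rintro ⟨⟨p, ⟨hp, hpF⟩, rfl⟩, _⟩
      refine ⟨?_, ⟨p, hp, rfl⟩⟩
      have := hTe _ _ hp.2
      rw [mem_preimage] at hpF ⊢
      rwa [this]
  · intro y hy
    exact hTe y y (hKadm y hy)
  · rintro _ ⟨p, hp, rfl⟩ z
    rw [hTe _ _ hp.2]
    have := adm_below ht hp.2 (z - p.1)
    rwa [add_sub_cancel] at this
  · rintro _ ⟨p, hp, rfl⟩ v
    rw [hTe _ _ hp.2]
    exact hp.2.2.2 v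
  · rintro _ ⟨⟨y, y0⟩, hp, rfl⟩
    have hTy := hTe _ _ hp.2
    have hA1 : y0 ∈ K := hp.2.1
    have hA2 : L y = L y0 + dot (g y0) (y - y0) := hp.2.2.1
    simp only at hTy ⊢
    rw [hTy]
    have hbel : ∀ z, L y + dot (g y0) (z - y) ≤ L z := by
      intro z
      have := adm_below ht hp.2 (z - y)
      simpa only [add_sub_cancel] using this
    -- the upper bound at a point of the face
    have key : ∀ z, z ∈ Prod.fst '' P → L z = L y + dot (g y0) (z - y) →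
        ∀ v, L (z + v) ≤ L z + dot (g y0) v + G v := by
      rintro _ ⟨q, hq, rfl⟩ hz v
      have h1 : g y0 = g q.2 := by
        apply adm_uniq hG hq.2
        intro w
        have h2 := hbel (q.1 + w)
        have h3 : dot (g y0) (q.1 + w - y) = dot (g y0) (q.1 - y) + dot (g y0) w := by
          rw [← dot_add_right]
          congr 1
          abel
        rw [h3] at h2
        linarith
      rw [h1]
      exact hq.2.2.2 v
    have hPB : ∀ z, z ∈ Prod.fst '' P → z ∈ B := by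
      rintro _ ⟨q, hq, rfl⟩
      exact hq.1
    rintro z ⟨hz1, hz2⟩ z' ⟨hz1', hz2'⟩ s t hs ht' hst
    have kz := key z hz1 hz2
    have kz' := key z' hz1' hz2'
    have haff : ∀ v, s * dot (g y0) (z + v - y) + t * dot (g y0) (z' + v - y) =
        dot (g y0) (s • z + t • z' + v - y) := by
      intro v
      have : t = 1 - s := by linarith
      subst this
      simp only [dot, Prod.fst_sub, Prod.snd_sub, Prod.fst_add, Prod.snd_add, Prod.smul_fst,
        Prod.smul_snd, smul_eq_mul]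
      ring
    have hsplit : ∀ w v, dot (g y0) (w + v - y) = dot (g y0) (w - y) + dot (g y0) v := by
      intro w v
      rw [← dot_add_right]
      congr 1
      abel
    have hup : ∀ v, L (s • z + t • z' + v) ≤ L y + dot (g y0) (s • z + t • z' + v - y) + G v := by
      intro v
      have h1 := hL.2 (mem_univ (z + v)) (mem_univ (z' + v)) hs ht' hst
      have h2 : s • (z + v) + t • (z' + v) = s • z + t • z' + v := by
        rw [smul_add, smul_add]
        have : s • v + t • v = v := by rw [← add_smul, hst, one_smul]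
        calc s • z + s • v + (t • z' + t • v) = s • z + t • z' + (s • v + t • v) := by abel
          _ = _ := by rw [this]
      rw [h2] at h1
      simp only [smul_eq_mul] at h1
      have h3 := kz v
      have h4 := kz' v
      rw [hz2] at h3
      rw [hz2'] at h4
      have h5 := haff v
      rw [hsplit z v, hsplit z' v] at h5
      rw [← h5]
      have h6 := mul_le_mul_of_nonneg_left h3 hs
      have h7 := mul_le_mul_of_nonneg_left h4 ht'
      have : t = 1 - s := by linarith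
      subst this
      nlinarith
    have heq : L (s • z + t • z') = L y + dot (g y0) (s • z + t • z' - y) := by
      apply le_antisymm
      · have := hup 0
        rw [add_zero] at this
        linarith
      · exact hbel _
    refine ⟨⟨(s • z + t • z', y0), ⟨hBv (hPB z hz1) (hPB z' hz1') hs ht' hst, hA1, ?_, ?_⟩, rfl⟩,
      heq⟩
    · rw [heq, hA2]
      simp only [dot, Prod.fst_sub, Prod.snd_sub]
      ring
    · intro v
      have h1 := hup v
      rw [hsplit] at h1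
      simp only
      rw [heq]
      linarith

end Pool.Agent.MP_4eca41.R0
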