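import Pool.Agent.Work.MP_4eca41_an.R0.Lx
import Pool.Agent.Work.MP_4eca41_an.R0.Gam
import Pool.Agent.Work.MP_4eca41_an.T.Theta

/-! # Module R0/PkE: assembly of the data of R0.1 - R0.3 -/

set_option autoImplicit false

namespace Pool.Agent.MP_4eca41.R0

open Set MeasureTheory

theorem pk_ex {f : ℝ × ℝ → ℝ} (hf : ConvexOn ℝ univ f) {K : Set (ℝ × ℝ)} (hK : IsCompact K)
    (hne : K.Nonempty) {J : Jets} (hE : Exp2 f K J)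
    (h0 : ∀ z ∈ K, J.a z = 0 ∧ J.b z = 0 ∧ J.c z = 0) :
    ∃ (L : ℝ × ℝ → ℝ) (Γ : Set (ℝ × ℝ)) (T : ℝ × ℝ → ℝ × ℝ) (θ : ℝ × ℝ → ℝ), Pk L Γ T θ ∧
      K ⊆ Γ ∧ (∀ z, L z ≤ f z) ∧ (∀ y ∈ K, L y = f y) ∧
      ∀ z, ∃ y ∈ K, L z = f y + dot (J.p y, J.s y) (z - y) := by
  obtain ⟨L, hLc, hlip, hLf, hLeq, htan, hact⟩ := lx_ex hf hK hne hE
  obtain ⟨G, hG0, hGC, hGs, hGu⟩ := gx_ex hK hne hE h0 hlip hLf hLeq htan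
  obtain ⟨θ, hθc, hθ0, -, hθn, hθG, hθl, ⟨M, -, hθM⟩, hθs, hθu⟩ := T.theta_ex G hG0 hGC hGs
  have hgc : ContinuousOn (fun y => (J.p y, J.s y)) K := hE.cp.prodMk hE.cs
  obtain ⟨Γ, T, hΓc, hKΓ, hTc, hTg, hTt, hTu, hTh⟩ := gam_ex hLc hK hgc htan hGu hGs
  refine ⟨L, Γ, T, θ, ⟨hLc, hlip, hΓc, hne.mono hKΓ, hTc, hTt, ?_, ?_, hTh,
    ⟨hθc, hθ0, hθn, hθl, ⟨M, hθM⟩, hθs, hθu⟩⟩, hKΓ, hLf, hLeq, ?_⟩
  · intro z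
    obtain ⟨y, hy, h⟩ := hact z
    exact ⟨y, hKΓ hy, by rw [hTg y hy]; exact h⟩
  · intro y hy v
    have h1 := hTu y hy v
    have h2 := hθG v
    linarith
  · intro z
    obtain ⟨y, hy, h⟩ := hact z
    exact ⟨y, hy, by rw [← hLeq y hy]; exact h⟩

end Pool.Agent.MP_4eca41.R0
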