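import Pool.Agent.Work.MP_4eca41_an.R0.Pt
import Pool.Agent.Work.MP_4eca41_an.T.Tiny

/-! # Module R0/RkE: the radius function -/

set_option autoImplicit false

namespace Pool.Agent.MP_4eca41.R0

open Set MeasureTheory

theorem rk_ex {U : ℝ × ℝ → ℝ} {Γ : Set (ℝ × ℝ)} {T : ℝ × ℝ → ℝ × ℝ} (vk : Vk U Γ T) {η : ℝ}
    (hη : 0 < η) (hη1 : η ≤ 1) : ∃ t r : ℝ × ℝ → ℝ, Rk U Γ η t r := by
  obtain ⟨t, ht, hloc⟩ := adm_ex vk
  obtain ⟨r, hr, hr0, hrp⟩ := MP_4eca41.T.tiny_radius Γ vk.cG.isClosed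
    (fun z => t z ^ 2 * η / 16) (by
      intro z hz
      obtain ⟨ρ, hρ, m, hm, h⟩ := hloc z hz
      refine ⟨ρ, hρ, m ^ 2 * η / 16, by positivity, fun z' hz' => ?_⟩
      have h1 := h z' hz'
      have h2 : m ^ 2 ≤ t z' ^ 2 := pow_le_pow_left₀ hm.le h1 2
      nlinarith)
  refine ⟨t, r, hr, hr0, ?_, ?_, ?_⟩
  · intro z hz
    exact ⟨(hrp z hz).1, (ht z hz).1, (ht z hz).2.1, (ht z hz).2.2⟩
  · intro z hz
    exact (hrp z hz).2.1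
  · intro z hz
    obtain ⟨ρ, hρ, h⟩ := (hrp z hz).2.2
    refine ⟨ρ, hρ, fun v hv => ?_⟩
    obtain ⟨h1, h2⟩ := h v hv
    obtain ⟨ht0, ht1, -⟩ := ht z hz
    have h3 : t z ^ 2 ≤ 1 := by
      calc t z ^ 2 ≤ 1 ^ 2 := pow_le_pow_left₀ ht0.le ht1 2
        _ = 1 := one_pow 2
    have hsv := sq_nonneg' v
    have h4 : t z ^ 2 * η / 16 ≤ t z ^ 2 / 4 := by nlinarith [sq_nonneg (t z)]
    have h5 : 0 ≤ t z ^ 2 * η / 16 := by positivity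
    have h6 : t z ^ 2 * η / 16 ≤ 1 / 4 := by nlinarith
    have h7 : (t z ^ 2 * η / 16) ^ 2 ≤ 1 / 16 := by
      calc (t z ^ 2 * η / 16) ^ 2 ≤ (1 / 4) ^ 2 := pow_le_pow_left₀ h5 h6 2
        _ = 1 / 16 := by norm_num
    constructor
    · calc (r (z + v) - r z) ^ 2 ≤ (t z ^ 2 * η / 16) ^ 2 * sq v := h1
        _ ≤ 1 / 16 * sq v := mul_le_mul_of_nonneg_right h7 hsv
        _ = sq v / 16 := by ring
    · exact h2.trans (mul_le_mul_of_nonneg_right h4 hsv)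

end Pool.Agent.MP_4eca41.R0
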