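import Pool.Agent.Work.MP_4eca41_an.R0.Unq
import Pool.Agent.Work.MP_4eca41_an.T.T3

/-! # Module R0/Loc: local modification of `u` at a point outside `Γ` (R0.6)

PROOF. `q` a subgradient of `u` at `z0` (`sub_plane`), `l z = u z0 + dot q (z - z0) ≤ u z`. By `uk.strict` and compactness
of `Γ` there is `m > 0` with `u y - l y ≥ 4 m` for `y ∈ Γ`. `c > 0` with `c sq (y - z0) ≤ m` on `Γ`.
`P z = l z + m + c sq (z - z0)`, `v z = smax (m/2) (u z) (P z)` (tools T3). Convex (`smax_convexOn`), `u ≤ v` (`le_smax`).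
On `Γ`: `u - P ≥ 4 m - m - m = 2 m`; by continuity and compactness `u - P ≥ m` on `cb y ρ`, `y ∈ Γ`, for a `ρ > 0`
(uniform continuity on a ball); there `v = max = u` (`smax_eq`). `P z0 - u z0 = m`, so near `z0`: `P - u ≥ m / 2`, `v = P`,
and for `z ∈ cb z0 ρ`, `sq w ≤ ρ^2` all of `z, z ± w` are near `z0` and `D2 v w z = D2 P w z = 2 c sq w`.
BOUND: with `d = u - P` at `z`, `d1` at `z + w`, `d2` at `z - w`, `δ = m/2`:
`2 D2 v w z = D2 u w z + D2 P w z + (sabs δ d1 + sabs δ d2 - 2 sabs δ d)` and, with `s = (d1 + d2)/2`, `h = (d1 - d2)/2`,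
`sabs d1 + sabs d2 - 2 sabs s ≤ 3/(2δ) h^2` (`sabs_d2`) and `2 |sabs s - sabs d| ≤ |d1 + d2 - 2 d| = |D2 u w z - D2 P w z|`
(`sabs_lip`). `0 ≤ D2 u w z ≤ M sq w`, `D2 P w z = 2 c sq w`, and `h^2 ≤ C sq w` for `z ∈ cb 0 R`, `sq w ≤ 1`, since `u` and `P`
are Lipschitz on bounded sets (`u` convex: locally Lipschitz, compact ball; or directly
`u (z + w) - u (z - w) ≤ 2 dot q w + M sq w` with subgradients `q` at `z` bounded on compact sets). -/

set_option autoImplicit false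

namespace Pool.Agent.MP_4eca41.R0

open Set MeasureTheory

private theorem loc_norm_le {w : ℝ × ℝ} {r : ℝ} (hr : 0 ≤ r) (h : sq w ≤ r ^ 2) : ‖w‖ ≤ r := by
  have h1 : w.1 ^ 2 ≤ r ^ 2 := by
    unfold sq at h
    nlinarith [sq_nonneg w.2]
  have h2 : w.2 ^ 2 ≤ r ^ 2 := by
    unfold sq at h
    nlinarith [sq_nonneg w.1]
  rw [Prod.norm_def]
  exact max_le (by rw [Real.norm_eq_abs]; exact abs_le_of_sq_le_sq h1 hr)
    (by rw [Real.norm_eq_abs]; exact abs_le_of_sq_le_sq h2 hr)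

private theorem loc_norm_sq (w : ℝ × ℝ) : ‖w‖ ^ 2 ≤ sq w := by
  rw [Prod.norm_def, Real.norm_eq_abs, Real.norm_eq_abs]
  unfold sq
  rcases le_total |w.1| |w.2| with h | h
  · rw [max_eq_right h, sq_abs]
    nlinarith [sq_nonneg w.1]
  · rw [max_eq_left h, sq_abs]
    nlinarith [sq_nonneg w.2]

private theorem loc_lip {f : ℝ × ℝ → ℝ} (hf : ConvexOn ℝ univ f) (R : ℝ) :
    ∃ K : ℝ, 0 ≤ K ∧ ∀ z ∈ cb 0 R, ∀ w : ℝ × ℝ, sq w ≤ 1 →
      (f (z + w) - f (z - w)) ^ 2 ≤ K * sq w := by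
  have hcont : Continuous f := continuous_of_convex hf
  have hcomp : IsCompact (Metric.closedBall (0 : ℝ × ℝ) (|R| + 4)) := isCompact_closedBall _ _
  obtain ⟨M, hM⟩ := hcomp.exists_bound_of_continuousOn hcont.continuousOn
  have hfb : ConvexOn ℝ (Metric.ball (0 : ℝ × ℝ) (|R| + 4)) f :=
    hf.subset (subset_univ _) (convex_ball _ _)
  have hL := hfb.lipschitzOnWith_of_abs_le (ε := 1) one_pos (M := M) (fun a ha => by
    rw [← Real.norm_eq_abs]
    exact hM a (Metric.mem_closedBall.2 ha.le))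
  set L : NNReal := (2 * M / 1).toNNReal
  refine ⟨4 * (L : ℝ) ^ 2, by positivity, fun z hz w hw => ?_⟩
  have hz1 : ‖z‖ ≤ |R| := by
    apply loc_norm_le (abs_nonneg R)
    have h1 : sq (z - 0) ≤ R ^ 2 := hz
    rw [sub_zero] at h1
    rw [sq_abs]
    exact h1
  have hw1 : ‖w‖ ≤ 1 := loc_norm_le zero_le_one (by rw [one_pow]; exact hw)
  have hmem1 : z + w ∈ Metric.ball (0 : ℝ × ℝ) (|R| + 4 - 1) := by
    rw [Metric.mem_ball, dist_zero_right]
    have := norm_add_le z w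
    linarith
  have hmem2 : z - w ∈ Metric.ball (0 : ℝ × ℝ) (|R| + 4 - 1) := by
    rw [Metric.mem_ball, dist_zero_right]
    have := norm_sub_le z w
    linarith
  have h1 := hL.dist_le_mul _ hmem1 _ hmem2
  rw [Real.dist_eq, dist_eq_norm] at h1
  have h2 : z + w - (z - w) = (2 : ℝ) • w := by
    rw [two_smul]
    abel
  rw [h2, norm_smul, Real.norm_eq_abs, abs_two] at h1
  have h3 : (f (z + w) - f (z - w)) ^ 2 ≤ ((L : ℝ) * (2 * ‖w‖)) ^ 2 := by
    rw [← sq_abs (f (z + w) - f (z - w))]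
    exact pow_le_pow_left₀ (abs_nonneg _) h1 2
  have h4 := loc_norm_sq w
  calc (f (z + w) - f (z - w)) ^ 2 ≤ ((L : ℝ) * (2 * ‖w‖)) ^ 2 := h3
    _ = 4 * (L : ℝ) ^ 2 * ‖w‖ ^ 2 := by ring
    _ ≤ 4 * (L : ℝ) ^ 2 * sq w := mul_le_mul_of_nonneg_left h4 (by positivity)

private theorem loc_D2P (a c : ℝ) (q z0 w z : ℝ × ℝ) :
    D2 (fun z => a + dot q (z - z0) + c * sq (z - z0)) w z = 2 * c * sq w := by
  simp only [D2, dot, sq, Prod.fst_sub, Prod.snd_sub, Prod.fst_add, Prod.snd_add]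
  ring

private theorem loc_bound {u P : ℝ × ℝ → ℝ} {δ : ℝ} (hδ : 0 < δ) (z w : ℝ × ℝ) (hu : 0 ≤ D2 u w z)
    (hP : 0 ≤ D2 P w z) :
    D2 (fun z => smax δ (u z) (P z)) w z ≤ D2 u w z + D2 P w z +
      3 / (2 * δ) * ((u (z + w) - u (z - w)) ^ 2 + (P (z + w) - P (z - w)) ^ 2) := by
  have h1 := sabs_d2 δ hδ (((u (z + w) - P (z + w)) + (u (z - w) - P (z - w))) / 2)
    (((u (z + w) - P (z + w)) - (u (z - w) - P (z - w))) / 2)
  have h2 := sabs_lip δ hδ (((u (z + w) - P (z + w)) + (u (z - w) - P (z - w))) / 2) (u z - P z)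
  have h3 : ((u (z + w) - P (z + w)) + (u (z - w) - P (z - w))) / 2 - (u z - P z) =
      (D2 u w z - D2 P w z) / 2 := by
    unfold D2
    ring
  rw [h3] at h2
  have h4 : |(D2 u w z - D2 P w z) / 2| ≤ (D2 u w z + D2 P w z) / 2 := by
    rw [abs_le]
    constructor <;> linarith
  have h5 := (abs_le.1 (h2.trans h4)).2
  unfold d2 at h1
  have e1 : ((u (z + w) - P (z + w)) + (u (z - w) - P (z - w))) / 2 +
      ((u (z + w) - P (z + w)) - (u (z - w) - P (z - w))) / 2 = u (z + w) - P (z + w) := by ring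
  have e2 : ((u (z + w) - P (z + w)) + (u (z - w) - P (z - w))) / 2 -
      ((u (z + w) - P (z + w)) - (u (z - w) - P (z - w))) / 2 = u (z - w) - P (z - w) := by ring
  rw [e1, e2] at h1
  have h6 : (((u (z + w) - P (z + w)) - (u (z - w) - P (z - w))) / 2) ^ 2 ≤
      (u (z + w) - u (z - w)) ^ 2 + (P (z + w) - P (z - w)) ^ 2 := by
    nlinarith [sq_nonneg ((u (z + w) - u (z - w)) + (P (z + w) - P (z - w))),
      sq_nonneg (u (z + w) - u (z - w)), sq_nonneg (P (z + w) - P (z - w))]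
  have h7 : 3 / (2 * δ) * (((u (z + w) - P (z + w)) - (u (z - w) - P (z - w))) / 2) ^ 2 ≤
      3 / (2 * δ) * ((u (z + w) - u (z - w)) ^ 2 + (P (z + w) - P (z - w)) ^ 2) :=
    mul_le_mul_of_nonneg_left h6 (by positivity)
  have h8 : 0 ≤ 3 / (2 * δ) * ((u (z + w) - u (z - w)) ^ 2 + (P (z + w) - P (z - w)) ^ 2) := by
    positivity
  have h9 : D2 (fun z => smax δ (u z) (P z)) w z = (D2 u w z + D2 P w z +
      (sabs δ (u (z + w) - P (z + w)) + sabs δ (u (z - w) - P (z - w)) -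
        2 * sabs δ (u z - P z))) / 2 := by
    simp only [D2, smax]
    ring
  rw [h9]
  linarith

theorem loc_ex {u : ℝ × ℝ → ℝ} {Γ : Set (ℝ × ℝ)} {T : ℝ × ℝ → ℝ × ℝ} (uk : Uk u Γ T)
    {z0 : ℝ × ℝ} (hz0 : z0 ∉ Γ) :
    ∃ v : ℝ × ℝ → ℝ, ConvexOn ℝ univ v ∧ (∀ z, u z ≤ v z) ∧
      (∃ ρ : ℝ, 0 < ρ ∧ ∀ y ∈ Γ, ∀ z ∈ cb y ρ, v z = u z) ∧
      (∃ ρ m : ℝ, 0 < ρ ∧ 0 < m ∧ ∀ z ∈ cb z0 ρ, ∀ w : ℝ × ℝ, sq w ≤ ρ ^ 2 →
        m * sq w ≤ D2 v w z) ∧
      ∀ R : ℝ, ∃ C : ℝ, ∀ z ∈ cb 0 R, ∀ w : ℝ × ℝ, sq w ≤ 1 → D2 v w z ≤ C * sq w := by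
  obtain ⟨q, hq⟩ := sub_plane uk.conv z0
  have hucont : Continuous u := continuous_of_convex uk.conv
  -- the gap on Γ
  have hlc : Continuous fun y : ℝ × ℝ => u y - (u z0 + dot q (y - z0)) :=
    hucont.sub (continuous_const.add ((continuous_dot q).comp (continuous_id.sub continuous_const)))
  obtain ⟨y0, hy0, hmin⟩ := uk.cG.exists_isMinOn uk.ne hlc.continuousOn
  obtain ⟨m, hm⟩ : ∃ m : ℝ, m = (u y0 - (u z0 + dot q (y0 - z0))) / 4 := ⟨_, rfl⟩
  have hm0 : 0 < m := by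
    have := uk.strict z0 hz0 q hq y0 hy0
    rw [hm]
    linarith
  have hgap : ∀ y ∈ Γ, 4 * m ≤ u y - (u z0 + dot q (y - z0)) := by
    intro y hy
    have h1 := hmin hy
    simp only [mem_setOf_eq] at h1
    rw [hm]
    linarith
  -- the constant c
  have hsc : Continuous fun y : ℝ × ℝ => sq (y - z0) :=
    continuous_sq.comp (continuous_id.sub continuous_const)
  obtain ⟨B, hB⟩ := uk.cG.exists_bound_of_continuousOn hsc.continuousOn
  obtain ⟨c, hc⟩ : ∃ c : ℝ, c = m / (|B| + 1) := ⟨_, rfl⟩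
  have hB1 : 0 < |B| + 1 := by positivity
  have hc0 : 0 < c := by
    rw [hc]
    positivity
  have hcB : ∀ y ∈ Γ, c * sq (y - z0) ≤ m := by
    intro y hy
    have h1 := hB y hy
    rw [Real.norm_eq_abs] at h1
    have h2 : sq (y - z0) ≤ |B| + 1 := by
      have := le_abs_self (sq (y - z0))
      have := le_abs_self B
      linarith
    calc c * sq (y - z0) ≤ c * (|B| + 1) := mul_le_mul_of_nonneg_left h2 hc0.le
      _ = m := by
        rw [hc]
        field_simp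
  -- the function P
  obtain ⟨P, hP⟩ : ∃ P : ℝ × ℝ → ℝ, P = fun z => (u z0 + m) + dot q (z - z0) + c * sq (z - z0) :=
    ⟨_, rfl⟩
  have hPval : ∀ z, P z = (u z0 + m) + dot q (z - z0) + c * sq (z - z0) := fun z => by rw [hP]
  have hPconv : ConvexOn ℝ univ P := by
    rw [hP]
    exact (convex_affine (u z0 + m) q z0).add ((convex_sq z0).smul hc0.le)
  have hPcont : Continuous P := continuous_of_convex hPconv
  have hPD2 : ∀ w z, D2 P w z = 2 * c * sq w := by
    intro w z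
    rw [hP]
    exact loc_D2P _ _ _ _ _ _
  have hd0 : 0 < m / 2 := by linarith
  refine ⟨fun z => smax (m / 2) (u z) (P z), smax_convexOn (m / 2) hd0 univ u P uk.conv hPconv,
    fun z => (le_max_left _ _).trans (le_smax (m / 2) hd0 _ _), ?_, ?_, ?_⟩
  · have hopen : IsOpen {z : ℝ × ℝ | m / 2 < u z - P z} :=
      isOpen_lt continuous_const (hucont.sub hPcont)
    have hsub : Γ ⊆ {z : ℝ × ℝ | m / 2 < u z - P z} := by
      intro y hy
      have h1 := hgap y hy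
      have h2 := hcB y hy
      have h3 := hPval y
      simp only [mem_setOf_eq]
      rw [h3]
      linarith
    obtain ⟨ρ, hρ0, hρ⟩ := uk.cG.exists_cthickening_subset_open hopen hsub
    refine ⟨ρ, hρ0, fun y hy z hz => ?_⟩
    have h1 : dist z y ≤ ρ := by
      rw [dist_eq_norm]
      exact loc_norm_le hρ0.le hz
    have h2 : z ∈ {z : ℝ × ℝ | m / 2 < u z - P z} :=
      hρ (Metric.mem_cthickening_of_dist_le z y ρ Γ hy h1)
    simp only [mem_setOf_eq] at h2
    have h3 : m / 2 ≤ |u z - P z| := h2.le.trans (le_abs_self _)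
    change smax (m / 2) (u z) (P z) = u z
    rw [smax_eq (m / 2) hd0 _ _ h3]
    exact max_eq_left (by linarith)
  · have hopen : IsOpen {z : ℝ × ℝ | m / 2 < P z - u z} :=
      isOpen_lt continuous_const (hPcont.sub hucont)
    have hmem : z0 ∈ {z : ℝ × ℝ | m / 2 < P z - u z} := by
      simp only [mem_setOf_eq]
      rw [hPval z0, sub_self, dot_zero_right, sq_zero']
      linarith
    obtain ⟨ρ0, hρ0, hρ⟩ := Metric.isOpen_iff.1 hopen z0 hmem
    refine ⟨ρ0 / 3, 2 * c, by positivity, by positivity, fun z hz w hw => ?_⟩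
    have hz1 : ‖z - z0‖ ≤ ρ0 / 3 := loc_norm_le (by positivity) hz
    have hw1 : ‖w‖ ≤ ρ0 / 3 := loc_norm_le (by positivity) hw
    have key : ∀ x ∈ Metric.ball z0 ρ0, smax (m / 2) (u x) (P x) = P x := by
      intro x hx
      have h2 := hρ hx
      simp only [mem_setOf_eq] at h2
      have h3 : m / 2 ≤ |u x - P x| := by
        rw [abs_sub_comm]
        exact h2.le.trans (le_abs_self _)
      rw [smax_eq (m / 2) hd0 _ _ h3]
      exact max_eq_right (by linarith)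
    have h1 : z + w ∈ Metric.ball z0 ρ0 := by
      rw [Metric.mem_ball, dist_eq_norm]
      have e : z + w - z0 = (z - z0) + w := by abel
      rw [e]
      have := norm_add_le (z - z0) w
      linarith
    have h2 : z - w ∈ Metric.ball z0 ρ0 := by
      rw [Metric.mem_ball, dist_eq_norm]
      have e : z - w - z0 = (z - z0) - w := by abel
      rw [e]
      have := norm_sub_le (z - z0) w
      linarith
    have h3 : z ∈ Metric.ball z0 ρ0 := by
      rw [Metric.mem_ball, dist_eq_norm]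
      linarith
    have h4 : D2 (fun z => smax (m / 2) (u z) (P z)) w z = D2 P w z := by
      simp only [D2]
      rw [key _ h1, key _ h2, key _ h3]
    rw [h4, hPD2]
  · intro R
    obtain ⟨K1, hK1, h1⟩ := loc_lip uk.conv R
    obtain ⟨K2, hK2, h2⟩ := loc_lip hPconv R
    obtain ⟨M, hM⟩ := uk.upp
    refine ⟨M + 2 * c + 3 / (2 * (m / 2)) * (K1 + K2), fun z hz w hw => ?_⟩
    have hb := loc_bound (u := u) (P := P) hd0 z w (D2_convex uk.conv w z) (D2_convex hPconv w z)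
    have h3 := h1 z hz w hw
    have h4 := h2 z hz w hw
    have h5 := hM w z
    have h6 := hPD2 w z
    have h7 : 3 / (2 * (m / 2)) * ((u (z + w) - u (z - w)) ^ 2 + (P (z + w) - P (z - w)) ^ 2) ≤
        3 / (2 * (m / 2)) * ((K1 + K2) * sq w) :=
      mul_le_mul_of_nonneg_left (by linarith) (by positivity)
    have h8 : 3 / (2 * (m / 2)) * ((K1 + K2) * sq w) =
        3 / (2 * (m / 2)) * (K1 + K2) * sq w := by ring
    refine hb.trans ?_
    rw [h6]
    calc D2 u w z + 2 * c * sq w + 3 / (2 * (m / 2)) *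
          ((u (z + w) - u (z - w)) ^ 2 + (P (z + w) - P (z - w)) ^ 2)
        ≤ M * sq w + 2 * c * sq w + 3 / (2 * (m / 2)) * (K1 + K2) * sq w := by linarith
      _ = (M + 2 * c + 3 / (2 * (m / 2)) * (K1 + K2)) * sq w := by ring

end Pool.Agent.MP_4eca41.R0
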