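import Pool.Agent.Work.MP_4eca41_an.R0.SumA
import Pool.Agent.Work.MP_4eca41_an.R0.Loc

/-! # Module R0/SumB: the function `U` (R0.7)

PROOF. For `z0 ∉ Γ` choose `v_{z0}`, `ρ(z0)`, `m(z0)` by `loc_ex`. The open sets `{z | sq (z - z0) < (ρ(z0)/2)^2}`, `z0 ∉ Γ`,
cover `Γᶜ`; by Lindelof (`TopologicalSpace.isOpen_iUnion_countable`, or `TopologicalSpace.countable_cover_nhdsWithin`)
countably many `z_j` suffice (`Γᶜ` is nonempty as `Γ` is compact and the plane is not; enumerate with repetitions by `ℕ`: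
`Set.Countable.exists_eq_range`). `sum_abs` with `v j = v_{z_j}`, `R` so large that `K'` and all points at distance `≤ 1` from `Γ`
are in `cb 0 R`. For `y ∈ Γ`: `v j y = u y` for all `j`, so `U y = u y`; `tan` from `uk.tan` and `u ≤ U`.
`flat`: for `κ` take `n` for `κ/2`; `δ ≤ 1/2` with `2 δ ≤` the `ρ` (neighbourhood of `Γ`) of `v j`, `j < n` (finite minimum), and `δ`
from `uk.flat (κ/2)`; for `z ∈ cb y δ`, `sq w ≤ δ^2` the points `z, z ± w` are in `cb y (2 δ)` (`sq_tri`).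
`str`: `z0 ∉ Γ` lies in the set of `z_j`; with `ρ := ρ(z_j) / 2`: `cb z0 ρ ⊆ cb z_j ρ(z_j)`, and
`D2 U w z ≥ c j D2 (v j) w z ≥ c j m(z_j) sq w`. -/

set_option autoImplicit false

namespace Pool.Agent.MP_4eca41.R0

open Set MeasureTheory

private theorem sb_min (r : ℕ → ℝ) (hr : ∀ j, 0 < r j) (n : ℕ) :
    ∃ d : ℝ, 0 < d ∧ ∀ j < n, d ≤ r j := by
  induction n with
  | zero => exact ⟨1, one_pos, fun j hj => absurd hj (Nat.not_lt_zero j)⟩
  | succ n ih =>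
    obtain ⟨d, hd, h⟩ := ih
    refine ⟨min d (r n), lt_min hd (hr n), fun j hj => ?_⟩
    rcases Nat.lt_succ_iff_lt_or_eq.1 hj with h1 | h1
    · exact (min_le_left _ _).trans (h j h1)
    · rw [h1]
      exact min_le_right _ _

theorem vk_ex {u : ℝ × ℝ → ℝ} {Γ : Set (ℝ × ℝ)} {T : ℝ × ℝ → ℝ × ℝ} (uk : Uk u Γ T)
    {K' : Set (ℝ × ℝ)} (hK' : IsCompact K') {η : ℝ} (hη : 0 < η) :
    ∃ U : ℝ × ℝ → ℝ, Vk U Γ T ∧ (∀ y ∈ Γ, U y = u y) ∧ ∀ z ∈ K', U z ≤ u z + η := by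
  classical
  have hloc : ∀ z0 : ℝ × ℝ, ∃ (v : ℝ × ℝ → ℝ) (r ρ m : ℝ), z0 ∉ Γ →
      (ConvexOn ℝ univ v ∧ (∀ z, u z ≤ v z) ∧ 0 < r ∧ (∀ y ∈ Γ, ∀ z ∈ cb y r, v z = u z) ∧
      0 < ρ ∧ 0 < m ∧ (∀ z ∈ cb z0 ρ, ∀ w : ℝ × ℝ, sq w ≤ ρ ^ 2 → m * sq w ≤ D2 v w z) ∧
      ∀ R : ℝ, ∃ C : ℝ, ∀ z ∈ cb 0 R, ∀ w : ℝ × ℝ, sq w ≤ 1 → D2 v w z ≤ C * sq w) := by
    intro z0
    by_cases hz : z0 ∈ Γ
    · exact ⟨0, 0, 0, 0, fun h => absurd hz h⟩
    · obtain ⟨v, h1, h2, ⟨r, h3, h4⟩, ⟨ρ, m, h5, h6, h7⟩, h8⟩ := loc_ex uk hz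
      exact ⟨v, r, ρ, m, fun _ => ⟨h1, h2, h3, h4, h5, h6, h7, h8⟩⟩
  choose V r ρ m hV using hloc
  -- countable cover
  have hcov : ∀ x ∈ Γᶜ, {z : ℝ × ℝ | sq (z - x) < (ρ x / 2) ^ 2} ∈ nhdsWithin x Γᶜ := by
    intro x hx
    obtain ⟨h1, h2, h3, h4, h5, h6, h7, h8⟩ := hV x hx
    refine mem_nhdsWithin_of_mem_nhds (IsOpen.mem_nhds ?_ ?_)
    · exact isOpen_lt (continuous_sq.comp (continuous_id.sub continuous_const)) continuous_const
    · show sq (x - x) < (ρ x / 2) ^ 2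
      rw [sub_self, sq_zero']
      positivity
  obtain ⟨t, htsub, htc, ht⟩ := TopologicalSpace.countable_cover_nhdsWithin hcov
  have hne : (Γᶜ).Nonempty := by
    by_contra h
    rw [not_nonempty_iff_eq_empty, compl_empty_iff] at h
    have h1 := uk.cG
    rw [h] at h1
    exact noncompact_univ (ℝ × ℝ) h1
  have htne : t.Nonempty := by
    obtain ⟨x, hx⟩ := hne
    have h1 := ht hx
    simp only [mem_iUnion] at h1
    obtain ⟨i, hi, -⟩ := h1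
    exact ⟨i, hi⟩
  obtain ⟨zs, hzs⟩ := htc.exists_eq_range htne
  have hzsΓ : ∀ j, zs j ∉ Γ := fun j => htsub (by rw [hzs]; exact ⟨j, rfl⟩)
  have hcov2 : ∀ z0, z0 ∉ Γ → ∃ j, sq (z0 - zs j) < (ρ (zs j) / 2) ^ 2 := by
    intro z0 hz0
    have h1 := ht (show z0 ∈ Γᶜ from hz0)
    simp only [mem_iUnion] at h1
    obtain ⟨i, hi, h2⟩ := h1
    rw [hzs] at hi
    obtain ⟨j, rfl⟩ := hi
    exact ⟨j, h2⟩
  -- the radius
  obtain ⟨B, hB⟩ := (uk.cG.union hK').exists_bound_of_continuousOn continuous_sq.continuousOn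
  have hB1 : ∀ z ∈ Γ ∪ K', sq z ≤ |B| := by
    intro z hz
    have h1 := hB z hz
    rw [Real.norm_eq_abs] at h1
    exact (le_abs_self _).trans (h1.trans (le_abs_self _))
  have hBn := abs_nonneg B
  obtain ⟨c, U, hc0, hUc, huU, hUη, hUeq, hUD, hUn⟩ := sum_abs uk.conv
    (fun j => (hV (zs j) (hzsΓ j)).1) (fun j => (hV (zs j) (hzsΓ j)).2.1)
    (fun j => (hV (zs j) (hzsΓ j)).2.2.2.2.2.2.2) (|B| + 3) hη
  have hUy : ∀ y ∈ Γ, U y = u y := fun y hy =>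
    hUeq y fun j => (hV (zs j) (hzsΓ j)).2.2.2.1 y hy y (self_mem_cb y _)
  refine ⟨U, ⟨hUc, uk.cG, uk.ne, uk.cT, ?_, ?_, ?_⟩, hUy, fun z hz => hUη z ?_⟩
  · intro y hy z
    rw [hUy y hy]
    exact (uk.tan y hy z).trans (huU z)
  · intro κ hκ
    obtain ⟨n, hn⟩ := hUn (κ / 2) (by linarith)
    obtain ⟨δ1, hδ1, hfl⟩ := uk.flat (κ / 2) (by linarith)
    obtain ⟨d, hd, hdr⟩ := sb_min (fun j => r (zs j))
      (fun j => (hV (zs j) (hzsΓ j)).2.2.1) n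
    set δ : ℝ := min (1 / 2) (min δ1 (d / 2)) with hδ
    have hδ0 : 0 < δ := lt_min (by norm_num) (lt_min hδ1 (by linarith))
    have hδa : δ ≤ 1 / 2 := min_le_left _ _
    have hδb : δ ≤ δ1 := (min_le_right _ _).trans (min_le_left _ _)
    have hδc : δ ≤ d / 2 := (min_le_right _ _).trans (min_le_right _ _)
    refine ⟨δ, hδ0, fun y hy z hz w hw => ?_⟩
    have hz' : sq (z - y) ≤ δ ^ 2 := hz
    have hzw : sq (z + w - y) ≤ (δ + δ) ^ 2 := by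
      have e1 : z + w - y = (z - y) + w := by abel
      rw [e1]
      exact sq_tri hδ0.le hδ0.le hz' hw
    have hzw' : sq (z - w - y) ≤ (δ + δ) ^ 2 := by
      have e1 : z - w - y = (z - y) + (-w) := by abel
      rw [e1]
      exact sq_tri hδ0.le hδ0.le hz' (by rw [sq_neg']; exact hw)
    have hzz : sq (z - y) ≤ (δ + δ) ^ 2 := hz'.trans (by nlinarith)
    have hmono : ∀ j < n, (δ + δ) ^ 2 ≤ r (zs j) ^ 2 := by
      intro j hj
      have h1 := hdr j hj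
      exact pow_le_pow_left₀ (by linarith) (by linarith) 2
    have hR0 : z ∈ cb 0 (|B| + 3) := by
      rw [mem_cb, sub_zero]
      have h1 : z = (z - y) + y := by abel
      have h2 := sq_add_le (z - y) y
      rw [← h1] at h2
      have h3 := hB1 y (Or.inl hy)
      nlinarith
    have hw1 : sq w ≤ 1 := hw.trans (by nlinarith)
    have h4 := hn z hR0 w hw1 (fun j hj => by
      have h5 := (hV (zs j) (hzsΓ j)).2.2.2.1 y hy
      exact ⟨h5 z (hzz.trans (hmono j hj)), h5 (z + w) (hzw.trans (hmono j hj)),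
        h5 (z - w) (hzw'.trans (hmono j hj))⟩)
    have h6 := hfl y hy z (hz'.trans (pow_le_pow_left₀ hδ0.le hδb 2)) w
      (hw.trans (pow_le_pow_left₀ hδ0.le hδb 2))
    linarith
  · intro z0 hz0
    obtain ⟨j, hj⟩ := hcov2 z0 hz0
    obtain ⟨h1, h2, h3, h4, h5, h6, h7, h8⟩ := hV (zs j) (hzsΓ j)
    refine ⟨ρ (zs j) / 2, by linarith, c j * m (zs j), mul_pos (hc0 j) h6,
      fun z hz w hw => ?_⟩
    have e1 : sq (z - zs j) ≤ (ρ (zs j) / 2 + ρ (zs j) / 2) ^ 2 := by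
      have e2 : z - zs j = (z - z0) + (z0 - zs j) := by abel
      rw [e2]
      exact sq_tri (by linarith) (by linarith) hz hj.le
    have e3 : ρ (zs j) / 2 + ρ (zs j) / 2 = ρ (zs j) := by ring
    rw [e3] at e1
    have e4 : sq w ≤ ρ (zs j) ^ 2 := hw.trans (pow_le_pow_left₀ (by linarith) (by linarith) 2)
    have e5 := h7 z e1 w e4
    have e6 := mul_le_mul_of_nonneg_left e5 (hc0 j).le
    have e7 := hUD j w z
    linarith
  · rw [mem_cb, sub_zero]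
    have h1 := hB1 z (Or.inr hz)
    nlinarith

end Pool.Agent.MP_4eca41.R0
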