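import Pool.Agent.Work.MP_4eca41_an.R0.Base

/-! # Module R0/Cvm: the largest convex minorant of a family of functions (R0.4, R0.5)

`F` is a nonempty set of functions, all `≥ L` with `L` convex.
`cvm_D2` PROOF. Let `u = cvm F`, `e = n / 2`. The function
`g z = ((u (z + v) + u (z - v)) / 2 + e * L z - κ / 2) / (1 + e)` is convex. For `h ∈ F`:
`(u (z+v) + u (z-v))/2 + e L z - κ/2 ≤ (h (z+v) + h (z-v))/2 + e L z - κ/2 = h z + D2 h v z / 2 + e L z - κ/2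
≤ h z + e (h z - L z) + e L z = (1 + e) h z`. So `g ≤ h`, hence `g ≤ u` (`le_cvm`), which is the claim. -/

set_option autoImplicit false

namespace Pool.Agent.MP_4eca41.R0

open Set MeasureTheory

/-- the largest convex minorant of a set of functions -/
noncomputable def cvm (F : Set (ℝ × ℝ → ℝ)) (z : ℝ × ℝ) : ℝ :=
  sSup {x | ∃ g : ℝ × ℝ → ℝ, ConvexOn ℝ univ g ∧ (∀ h ∈ F, ∀ w, g w ≤ h w) ∧ x = g z}

theorem le_cvm {F : Set (ℝ × ℝ → ℝ)} (hF : F.Nonempty) {g : ℝ × ℝ → ℝ}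
    (hg : ConvexOn ℝ univ g) (hgF : ∀ h ∈ F, ∀ w, g w ≤ h w) (z : ℝ × ℝ) : g z ≤ cvm F z := by
  obtain ⟨h0, hh0⟩ := hF
  refine le_csSup ⟨h0 z, ?_⟩ ⟨g, hg, hgF, rfl⟩
  rintro x ⟨g', -, hg', rfl⟩
  exact hg' h0 hh0 z

theorem cvm_le {F : Set (ℝ × ℝ → ℝ)} {L : ℝ × ℝ → ℝ}
    (hL : ConvexOn ℝ univ L) (hLF : ∀ h ∈ F, ∀ w, L w ≤ h w) {h : ℝ × ℝ → ℝ} (hh : h ∈ F)
    (z : ℝ × ℝ) : cvm F z ≤ h z := by
  refine csSup_le ⟨L z, L, hL, hLF, rfl⟩ ?_
  rintro x ⟨g', -, hg', rfl⟩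
  exact hg' h hh z

theorem cvm_convex {F : Set (ℝ × ℝ → ℝ)} (hF : F.Nonempty) {L : ℝ × ℝ → ℝ}
    (hL : ConvexOn ℝ univ L) (hLF : ∀ h ∈ F, ∀ w, L w ≤ h w) : ConvexOn ℝ univ (cvm F) := by
  refine ⟨convex_univ, fun x _ y _ s t hs ht hst => ?_⟩
  refine csSup_le ⟨_, L, hL, hLF, rfl⟩ ?_
  rintro _ ⟨g, hg, hgF, rfl⟩
  refine (hg.2 (mem_univ x) (mem_univ y) hs ht hst).trans ?_
  exact add_le_add (smul_le_smul_of_nonneg_left (le_cvm hF hg hgF x) hs)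
    (smul_le_smul_of_nonneg_left (le_cvm hF hg hgF y) ht)

theorem cvm_D2 {F : Set (ℝ × ℝ → ℝ)} (hF : F.Nonempty) {L : ℝ × ℝ → ℝ}
    (hL : ConvexOn ℝ univ L) (hLF : ∀ h ∈ F, ∀ w, L w ≤ h w) {κ n : ℝ} (hn : 0 ≤ n) {v : ℝ × ℝ}
    (h : ∀ h ∈ F, ∀ z, D2 h v z ≤ κ + n * (h z - L z)) (z : ℝ × ℝ) :
    D2 (cvm F) v z ≤ κ + n * (cvm F z - L z) := by
  have hu : ConvexOn ℝ univ (cvm F) := cvm_convex hF hL hLF
  set e : ℝ := n / 2 with he
  have he0 : 0 ≤ e := by rw [he]; linarith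
  have he1 : 0 < 1 + e := by linarith
  have hG : ConvexOn ℝ univ fun z => (1 + e)⁻¹ *
      ((cvm F (z + v) + cvm F (z - v)) / 2 + e * L z - κ / 2) := by
    refine ⟨convex_univ, fun x _ y _ s t hs ht hst => ?_⟩
    have h1 := hu.2 (mem_univ (x + v)) (mem_univ (y + v)) hs ht hst
    have h2 := hu.2 (mem_univ (x - v)) (mem_univ (y - v)) hs ht hst
    have h3 := hL.2 (mem_univ x) (mem_univ y) hs ht hst
    have e1 : s • (x + v) + t • (y + v) = s • x + t • y + v := by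
      rw [smul_add, smul_add, add_add_add_comm, ← add_smul, hst, one_smul]
    have e2 : s • (x - v) + t • (y - v) = s • x + t • y - v := by
      rw [smul_sub, smul_sub, sub_add_sub_comm, ← add_smul, hst, one_smul]
    rw [e1] at h1
    rw [e2] at h2
    simp only [smul_eq_mul] at h1 h2 h3 ⊢
    have h4 := mul_le_mul_of_nonneg_left h3 he0
    have h5 : s * (κ / 2) + t * (κ / 2) = κ / 2 := by rw [← add_mul, hst, one_mul]
    have h6 : (cvm F (s • x + t • y + v) + cvm F (s • x + t • y - v)) / 2 +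
        e * L (s • x + t • y) - κ / 2 ≤
        s * ((cvm F (x + v) + cvm F (x - v)) / 2 + e * L x - κ / 2) +
        t * ((cvm F (y + v) + cvm F (y - v)) / 2 + e * L y - κ / 2) := by
      linarith
    have h7 := mul_le_mul_of_nonneg_left h6 (inv_nonneg.2 he1.le)
    refine h7.trans (le_of_eq ?_)
    ring
  have hGF : ∀ h ∈ F, ∀ w, (1 + e)⁻¹ *
      ((cvm F (w + v) + cvm F (w - v)) / 2 + e * L w - κ / 2) ≤ h w := by
    intro f hf w
    have h1 := cvm_le hL hLF hf (w + v)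
    have h2 := cvm_le hL hLF hf (w - v)
    have h3 := h f hf w
    unfold D2 at h3
    rw [inv_mul_le_iff₀ he1]
    have h4 : n = 2 * e := by rw [he]; ring
    rw [h4] at h3
    nlinarith
  have h1 := le_cvm hF hG hGF z
  rw [inv_mul_le_iff₀ he1] at h1
  unfold D2
  have h4 : n = 2 * e := by rw [he]; ring
  rw [h4]
  nlinarith

end Pool.Agent.MP_4eca41.R0
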