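import Pool.Agent.Work.MP_4eca41_an.R0.Aff
import Pool.Agent.Work.MP_4eca41_an.R0.Cvm

/-! # Module R0/UkE: the function `u` (R0.5, R0.6 first part)

PROOF. `Λ` from `pk.lip`, `M = Λ^2 / η + 1`, `F = Mem L Γ T θ K' η M` (nonempty since `Γ` is), `u = cvm F`.
`L ≤ u` (`le_cvm`, `mem_low`), `u ≤ h` for `h ∈ F`. For `y ∈ Γ` the member of `y` at `y` has the value `L y` (`θ 0 = 0`): `u y = L y`.
For `z ∈ K'` the member of `z` at `z`: `u z ≤ L z + η`. `upp`: `cvm_D2` with `n = 0`, `mem_D2M`. `tan`: `L y + dot .. ≤ L ≤ u`.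
`flat`: for `y ∈ Γ`: `u (y + v) ≤ 2 u y + M1 sq v - u (y - v) ≤ u y + dot (T y) v + M1 sq v ≤ L (y + v) + M1 sq v` (`upp`,
`tan` at `y - v`, `tan` of `L`), so `u z - L z ≤ M1 sq (z - y)`; `cvm_D2` with `κ := κ/2 * sq v`, `n := N sq v`
(`mem_D2` for `κ/2`): `D2 u v z ≤ (κ/2 + N (u z - L z)) sq v ≤ κ sq v` if `N M1 δ^2 ≤ κ / 2`.
`strict`: (ii) for `z0 ∉ Γ` take `y ∈ Γ` with `L z0 = T_y z0` (`act`); `fam_aff` gives an affine `g ≤ h` for all
members, `g z0 > L z0`; `g ≤ u` by `le_cvm`; so `L z0 < u z0`. Now let `u z0 + dot q (z - z0) ≤ u z` for all `z` and suppose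
`u y ≤ u z0 + dot q (y - z0)` for some `y ∈ Γ` (so equality). Then
`u y + dot q v ≤ u (y + v) ≤ u y + dot (T y) v + θ v` (the member of `y`), `θ v ≤ κ sq v` for small `v` (`tu`), so `q = T y`
(`unq`), and `u z0 = u y + dot (T y) (z0 - y) = L y + dot (T y) (z0 - y) ≤ L z0 < u z0`: contradiction. -/

set_option autoImplicit false

namespace Pool.Agent.MP_4eca41.R0

open Set MeasureTheory

theorem uk_ex {L : ℝ × ℝ → ℝ} {Γ : Set (ℝ × ℝ)} {T : ℝ × ℝ → ℝ × ℝ} {θ : ℝ × ℝ → ℝ}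
    {K' : Set (ℝ × ℝ)} {η : ℝ} (pk : Pk L Γ T θ) (hK' : IsCompact K') (hη : 0 < η) :
    ∃ u : ℝ × ℝ → ℝ, Uk u Γ T ∧ (∀ y ∈ Γ, u y = L y) ∧ ∀ z ∈ K', u z ≤ L z + η := by
  obtain ⟨Λ, hΛ, hL⟩ := pk.lip
  have hΛη : 0 ≤ Λ ^ 2 / η := by positivity
  obtain ⟨M, hM0, hM⟩ : ∃ M : ℝ, 0 < M ∧ Λ ^ 2 ≤ 2 * η * M := by
    refine ⟨Λ ^ 2 / η + 1, by positivity, ?_⟩
    have h1 : 2 * η * (Λ ^ 2 / η + 1) = 2 * Λ ^ 2 + 2 * η := by field_simp
    rw [h1]
    nlinarith [sq_nonneg Λ]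
  have hmem : ∀ y ∈ Γ, (fun z => L y + dot (T y) (z - y) + θ (z - y)) ∈ Mem L Γ T θ K' η M :=
    fun y hy => Or.inl ⟨y, hy, rfl⟩
  have hmem2 : ∀ z0 ∈ K', (fun z => L z0 + η + M * sq (z - z0)) ∈ Mem L Γ T θ K' η M :=
    fun z0 hz0 => Or.inr ⟨z0, hz0, rfl⟩
  have hF : (Mem L Γ T θ K' η M).Nonempty := by
    obtain ⟨y, hy⟩ := pk.ne
    exact ⟨_, hmem y hy⟩
  have hLF := mem_low (K' := K') pk hL hη hM
  have hLu : ∀ z, L z ≤ cvm (Mem L Γ T θ K' η M) z := le_cvm hF pk.conv hLF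
  have huh : ∀ h ∈ Mem L Γ T θ K' η M, ∀ z, cvm (Mem L Γ T θ K' η M) z ≤ h z :=
    fun h hh z => cvm_le pk.conv hLF hh z
  have huy : ∀ y ∈ Γ, cvm (Mem L Γ T θ K' η M) y = L y := by
    intro y hy
    apply le_antisymm _ (hLu y)
    have h1 := huh _ (hmem y hy) y
    simp only [sub_self, dot_zero_right, pk.th.t0, add_zero] at h1
    exact h1
  obtain ⟨M1, hM1, hD⟩ := mem_D2M (K' := K') (η := η) pk hM0.le
  have hupp : ∀ v z, D2 (cvm (Mem L Γ T θ K' η M)) v z ≤ M1 * sq v := by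
    intro v z
    have h1 := cvm_D2 hF pk.conv hLF (κ := M1 * sq v) (n := 0) le_rfl (v := v)
      (fun h hh z => by
        rw [zero_mul, add_zero]
        exact hD h hh v z) z
    rwa [zero_mul, add_zero] at h1
  have htan : ∀ y ∈ Γ, ∀ z, cvm (Mem L Γ T θ K' η M) y + dot (T y) (z - y) ≤
      cvm (Mem L Γ T θ K' η M) z := by
    intro y hy z
    rw [huy y hy]
    exact (pk.tan y hy z).trans (hLu z)
  have hclose : ∀ y ∈ Γ, ∀ z, cvm (Mem L Γ T θ K' η M) z - L z ≤ M1 * sq (z - y) := by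
    intro y hy z
    have h1 := hupp (z - y) y
    have e1 : y + (z - y) = z := by abel
    unfold D2 at h1
    rw [e1] at h1
    have h2 := htan y hy (y - (z - y))
    have e2 : y - (z - y) - y = -(z - y) := by abel
    rw [e2, dot_neg_right] at h2
    have h3 := pk.tan y hy z
    have h4 := huy y hy
    linarith
  refine ⟨cvm (Mem L Γ T θ K' η M), ⟨cvm_convex hF pk.conv hLF, pk.cG, pk.ne, pk.cT, htan,
    ⟨M1, hupp⟩, ?_, ?_⟩, huy, ?_⟩
  · intro κ hκ
    obtain ⟨N, hN, δ0, hδ0, hND⟩ := mem_D2 (K' := K') pk hL hη hM hM0.le (half_pos hκ)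
    have hNM : 0 ≤ N * M1 := mul_nonneg hN hM1
    obtain ⟨δ, hδ, hδle, hδN⟩ : ∃ δ : ℝ, 0 < δ ∧ δ ≤ δ0 ∧ N * M1 * δ ^ 2 ≤ κ / 2 := by
      refine ⟨min δ0 (min 1 (κ / (2 * (N * M1 + 1)))), by positivity, min_le_left _ _, ?_⟩
      have h1 : min δ0 (min 1 (κ / (2 * (N * M1 + 1)))) ≤ 1 :=
        (min_le_right _ _).trans (min_le_left _ _)
      have h2 : min δ0 (min 1 (κ / (2 * (N * M1 + 1)))) ≤ κ / (2 * (N * M1 + 1)) :=
        (min_le_right _ _).trans (min_le_right _ _)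
      have h3 : 0 < min δ0 (min 1 (κ / (2 * (N * M1 + 1)))) := by positivity
      have h4 : min δ0 (min 1 (κ / (2 * (N * M1 + 1)))) ^ 2 ≤ κ / (2 * (N * M1 + 1)) := by
        nlinarith
      calc N * M1 * min δ0 (min 1 (κ / (2 * (N * M1 + 1)))) ^ 2
          ≤ (N * M1 + 1) * (κ / (2 * (N * M1 + 1))) :=
            mul_le_mul (by linarith) h4 (by positivity) (by positivity)
        _ = κ / 2 := by field_simp
    refine ⟨δ, hδ, ?_⟩
    intro y hy z hz v hv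
    have hsv := sq_nonneg' v
    have hv0 : sq v ≤ δ0 ^ 2 := hv.trans (pow_le_pow_left₀ hδ.le hδle 2)
    have h1 := cvm_D2 hF pk.conv hLF (κ := κ / 2 * sq v) (n := N * sq v)
      (mul_nonneg hN hsv) (v := v)
      (fun h hh z => by
        refine (hND h hh v z hv0).trans (le_of_eq ?_)
        ring) z
    have h2 := (hclose y hy z).trans (mul_le_mul_of_nonneg_left (mem_cb.1 hz) hM1)
    have h3 := mul_le_mul_of_nonneg_left h2 (mul_nonneg hN hsv)
    have h4 := mul_le_mul_of_nonneg_right hδN hsv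
    nlinarith
  · intro z0 hz0 q hq y hy
    have hlt : L z0 < cvm (Mem L Γ T θ K' η M) z0 := by
      obtain ⟨y1, hy1, hact⟩ := pk.act z0
      obtain ⟨a, q1, h1, h2⟩ := fam_aff pk hK' hL hη hM hM0 hy1 hz0 hact
      have h3 := le_cvm hF (convex_affine a q1 z0) h1 z0
      simp only [sub_self, dot_zero_right, add_zero] at h3
      linarith
    by_contra hcon
    rw [not_lt] at hcon
    have hqT : q = T y := by
      apply unq
      intro κ hκ
      obtain ⟨δ, hδ, hu⟩ := pk.th.tu κ hκ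
      refine ⟨δ, hδ, ?_⟩
      intro v hv
      have h1 := hq (y + v)
      have e1 : y + v - z0 = y - z0 + v := by abel
      rw [e1, dot_add_right] at h1
      have h2 := huh _ (hmem y hy) (y + v)
      simp only [add_sub_cancel_left] at h2
      have h3 := hu v hv
      have h4 := huy y hy
      linarith
    have h1 := hq y
    have h2 := pk.tan y hy z0
    have h3 := huy y hy
    have e2 : dot (T y) (z0 - y) = - dot (T y) (y - z0) := by
      rw [← dot_neg_right, neg_sub]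
    rw [hqT] at h1
    linarith
  · intro z hz
    have h1 := huh _ (hmem2 z hz) z
    simp only [sub_self, sq_zero', mul_zero, add_zero] at h1
    exact h1

end Pool.Agent.MP_4eca41.R0
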