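import Pool.Agent.Work.MP_4eca41_an.R0.Base

/-! # Module R0/Adm: admissible scales (R0.8)

`adm_mono`: immediate (`t * sq v ≤ t' * sq v`, `cb z t ⊆ cb z t'`, `t^2 ≤ t'^2`).
`adm_half`: `cb z' (t/2) ⊆ cb z t` (`sq_tri`).
`adm_at` PROOF. `ρ, m` from `vk.str`; a radius `ρ'` with `cb z ρ'` disjoint from the closed set `Γ`; `U` is Lipschitz on
`cb z 1`: `(U z' - U z'')^2 ≤ Λ^2 sq (z' - z'')` (locally Lipschitz on a compact convex set;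
`ConvexOn.locallyLipschitz`, see module A/LipC `lip_cb` for a similar proof). `t = min` of `1, ρ, ρ', m, 1/(1+Λ)`.
`adm_ex` PROOF. `t z = sSup {t | 0 < t ∧ t ≤ 1 ∧ Adm U Γ z t} / 2`. Some `t' > t z` is admissible (`lt_csSup`), so `t z` is
(`adm_mono`). If `t0` is admissible at `z0`, then `t0 / 2` is admissible at all `z ∈ cb z0 (t0/2)`, so `t z ≥ t0 / 4` there.
`adm_small` PROOF. `δ` from `vk.flat κ`; for `z ∈ cb y δ` take `v = (s, 0)` with `0 < s ≤ min δ t`: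
`t * s^2 ≤ D2 U v z ≤ κ s^2`.
`adm_dist`: `y ∈ Γ` is not in `cb z t`. -/

set_option autoImplicit false

namespace Pool.Agent.MP_4eca41.R0

open Set MeasureTheory

/-- the scale `t` is admissible at `z` -/
def Adm (U : ℝ × ℝ → ℝ) (Γ : Set (ℝ × ℝ)) (z : ℝ × ℝ) (t : ℝ) : Prop :=
  (∀ z' ∈ cb z t, z' ∉ Γ ∧ ∀ v : ℝ × ℝ, sq v ≤ t ^ 2 → t * sq v ≤ D2 U v z') ∧
    ∀ z' ∈ cb z t, ∀ z'' ∈ cb z t, t ^ 2 * (U z' - U z'') ^ 2 ≤ sq (z' - z'')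

private theorem cb_mono {z : ℝ × ℝ} {t t' : ℝ} (ht : 0 < t) (htt : t ≤ t') : cb z t ⊆ cb z t' := by
  intro w hw
  rw [mem_cb] at hw ⊢
  exact hw.trans (pow_le_pow_left₀ ht.le htt 2)

theorem adm_mono {U : ℝ × ℝ → ℝ} {Γ : Set (ℝ × ℝ)} {z : ℝ × ℝ} {t t' : ℝ} (ht : 0 < t)
    (htt : t ≤ t') (h : Adm U Γ z t') : Adm U Γ z t := by
  have h2 : t ^ 2 ≤ t' ^ 2 := pow_le_pow_left₀ ht.le htt 2
  refine ⟨fun z' hz' => ⟨(h.1 z' (cb_mono ht htt hz')).1, fun v hv => ?_⟩, fun z' hz' z'' hz'' => ?_⟩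
  · exact (mul_le_mul_of_nonneg_right htt (sq_nonneg' v)).trans
      ((h.1 z' (cb_mono ht htt hz')).2 v (hv.trans h2))
  · exact (mul_le_mul_of_nonneg_right h2 (sq_nonneg _)).trans
      (h.2 z' (cb_mono ht htt hz') z'' (cb_mono ht htt hz''))

theorem adm_half {U : ℝ × ℝ → ℝ} {Γ : Set (ℝ × ℝ)} {z z' : ℝ × ℝ} {t : ℝ} (ht : 0 < t)
    (h : Adm U Γ z t) (hz : z' ∈ cb z (t / 2)) : Adm U Γ z' (t / 2) := by
  have hsub : cb z' (t / 2) ⊆ cb z t := by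
    intro w hw
    rw [mem_cb] at hw hz ⊢
    have h1 := sq_tri (half_pos ht).le (half_pos ht).le hw hz
    rwa [sub_add_sub_cancel, add_halves] at h1
  have h2 : (t / 2) ^ 2 ≤ t ^ 2 := pow_le_pow_left₀ (half_pos ht).le (by linarith) 2
  refine ⟨fun w hw => ⟨(h.1 w (hsub hw)).1, fun v hv => ?_⟩, fun w hw w' hw' => ?_⟩
  · exact (mul_le_mul_of_nonneg_right (by linarith) (sq_nonneg' v)).trans
      ((h.1 w (hsub hw)).2 v (hv.trans h2))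
  · exact (mul_le_mul_of_nonneg_right h2 (sq_nonneg _)).trans (h.2 w (hsub hw) w' (hsub hw'))

theorem adm_dist {U : ℝ × ℝ → ℝ} {Γ : Set (ℝ × ℝ)} {z y : ℝ × ℝ} {t : ℝ}
    (h : Adm U Γ z t) (hy : y ∈ Γ) : t ^ 2 < sq (y - z) := by
  by_contra h1
  exact (h.1 y (not_lt.1 h1)).1 hy

variable {U : ℝ × ℝ → ℝ} {Γ : Set (ℝ × ℝ)} {T : ℝ × ℝ → ℝ × ℝ}

private theorem dist_sq_le (w z : ℝ × ℝ) : dist w z ^ 2 ≤ sq (w - z) := by
  rw [Prod.dist_eq, Real.dist_eq, Real.dist_eq]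
  unfold sq
  rw [Prod.fst_sub, Prod.snd_sub]
  rcases max_cases |w.1 - z.1| |w.2 - z.2| with ⟨h, -⟩ | ⟨h, -⟩ <;> rw [h, sq_abs] <;>
    nlinarith [sq_nonneg (w.1 - z.1), sq_nonneg (w.2 - z.2)]

private theorem dist_le_of_cb {z w : ℝ × ℝ} {r : ℝ} (hr : 0 < r) (hw : w ∈ cb z r) :
    dist w z ≤ r := by
  have h1 := (dist_sq_le w z).trans (mem_cb.1 hw)
  exact (pow_le_pow_iff_left₀ dist_nonneg hr.le two_ne_zero).1 h1

private theorem exists_cb_sub {z : ℝ × ℝ} {s : Set (ℝ × ℝ)} (hs : s ∈ nhds z) :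
    ∃ r : ℝ, 0 < r ∧ cb z r ⊆ s := by
  obtain ⟨ε, hε, h⟩ := Metric.mem_nhds_iff.1 hs
  refine ⟨ε / 2, half_pos hε, fun w hw => h ?_⟩
  rw [Metric.mem_ball]
  exact lt_of_le_of_lt (dist_le_of_cb (half_pos hε) hw) (half_lt_self hε)

theorem adm_at (vk : Vk U Γ T) {z : ℝ × ℝ} (hz : z ∉ Γ) : ∃ t : ℝ, 0 < t ∧ t ≤ 1 ∧ Adm U Γ z t := by
  obtain ⟨ρ, hρ, m, hm, h1⟩ := vk.str z hz
  obtain ⟨r1, hr1, h2⟩ := exists_cb_sub (vk.cG.isClosed.isOpen_compl.mem_nhds hz)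
  obtain ⟨K, s, hs, hK⟩ := vk.conv.locallyLipschitz z
  obtain ⟨r2, hr2, h3⟩ := exists_cb_sub hs
  have hK1 : (0 : ℝ) < 1 + K := by positivity
  set t : ℝ := min (min 1 ρ) (min (min r1 r2) (min m (1 / (1 + K)))) with ht
  have ht0 : 0 < t := by
    refine lt_min (lt_min one_pos hρ) (lt_min (lt_min hr1 hr2) (lt_min hm (by positivity)))
  have t1 : t ≤ 1 := (min_le_left _ _).trans (min_le_left _ _)
  have t2 : t ≤ ρ := (min_le_left _ _).trans (min_le_right _ _)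
  have t3 : t ≤ r1 := (min_le_right _ _).trans ((min_le_left _ _).trans (min_le_left _ _))
  have t4 : t ≤ r2 := (min_le_right _ _).trans ((min_le_left _ _).trans (min_le_right _ _))
  have t5 : t ≤ m := (min_le_right _ _).trans ((min_le_right _ _).trans (min_le_left _ _))
  have t6 : t ≤ 1 / (1 + K) :=
    (min_le_right _ _).trans ((min_le_right _ _).trans (min_le_right _ _))
  refine ⟨t, ht0, t1, fun z' hz' => ⟨h2 (cb_mono ht0 t3 hz'), fun v hv => ?_⟩,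
    fun z' hz' z'' hz'' => ?_⟩
  · exact (mul_le_mul_of_nonneg_right t5 (sq_nonneg' v)).trans
      (h1 z' (cb_mono ht0 t2 hz') v (hv.trans (pow_le_pow_left₀ ht0.le t2 2)))
  · have h4 := hK.dist_le_mul z' (h3 (cb_mono ht0 t4 hz')) z'' (h3 (cb_mono ht0 t4 hz''))
    rw [Real.dist_eq] at h4
    have h5 : t * (K : ℝ) ≤ 1 := by
      rw [le_div_iff₀ hK1] at t6
      nlinarith
    have h6 : t * |U z' - U z''| ≤ dist z' z'' := by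
      calc t * |U z' - U z''| ≤ t * (K * dist z' z'') := mul_le_mul_of_nonneg_left h4 ht0.le
        _ = (t * K) * dist z' z'' := by ring
        _ ≤ 1 * dist z' z'' := mul_le_mul_of_nonneg_right h5 dist_nonneg
        _ = dist z' z'' := one_mul _
    calc t ^ 2 * (U z' - U z'') ^ 2 = (t * |U z' - U z''|) ^ 2 := by rw [mul_pow, sq_abs]
      _ ≤ dist z' z'' ^ 2 := pow_le_pow_left₀ (by positivity) h6 2
      _ ≤ sq (z' - z'') := dist_sq_le _ _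

theorem adm_small (vk : Vk U Γ T) {κ : ℝ} (hκ : 0 < κ) : ∃ δ : ℝ, 0 < δ ∧ ∀ y ∈ Γ,
    ∀ z ∈ cb y δ, ∀ t : ℝ, 0 < t → Adm U Γ z t → t ≤ κ := by
  obtain ⟨δ, hδ, h⟩ := vk.flat κ hκ
  refine ⟨δ, hδ, fun y hy z hz t ht hA => ?_⟩
  have hs : 0 < min δ t := lt_min hδ ht
  have hsq : sq ((min δ t, 0) : ℝ × ℝ) = (min δ t) ^ 2 := by simp [sq]
  have h1 := h y hy z hz (min δ t, 0) (by
    rw [hsq]
    exact pow_le_pow_left₀ hs.le (min_le_left _ _) 2)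
  have h2 := (hA.1 z (self_mem_cb z t)).2 (min δ t, 0) (by
    rw [hsq]
    exact pow_le_pow_left₀ hs.le (min_le_right _ _) 2)
  rw [hsq] at h1 h2
  exact le_of_mul_le_mul_right (h2.trans h1) (by positivity)

theorem adm_ex (vk : Vk U Γ T) : ∃ t : ℝ × ℝ → ℝ,
    (∀ z, z ∉ Γ → 0 < t z ∧ t z ≤ 1 ∧ Adm U Γ z (t z)) ∧
      ∀ z0, z0 ∉ Γ → ∃ ρ : ℝ, 0 < ρ ∧ ∃ m : ℝ, 0 < m ∧ ∀ z ∈ cb z0 ρ, m ≤ t z := by
  have hbd : ∀ z, BddAbove {t : ℝ | 0 < t ∧ t ≤ 1 ∧ Adm U Γ z t} :=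
    fun z => ⟨1, fun t ht => ht.2.1⟩
  refine ⟨fun z => sSup {t : ℝ | 0 < t ∧ t ≤ 1 ∧ Adm U Γ z t} / 2, fun z hz => ?_, fun z0 hz0 => ?_⟩
  · obtain ⟨t0, h0⟩ := adm_at vk hz
    have h0' : t0 ∈ {t : ℝ | 0 < t ∧ t ≤ 1 ∧ Adm U Γ z t} := h0
    have h1 : t0 ≤ sSup {t : ℝ | 0 < t ∧ t ≤ 1 ∧ Adm U Γ z t} := le_csSup (hbd z) h0'
    have h2 : 0 < sSup {t : ℝ | 0 < t ∧ t ≤ 1 ∧ Adm U Γ z t} := h0.1.trans_le h1
    have h3 : sSup {t : ℝ | 0 < t ∧ t ≤ 1 ∧ Adm U Γ z t} ≤ 1 :=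
      csSup_le ⟨t0, h0'⟩ fun t ht => ht.2.1
    obtain ⟨t', ht', h4⟩ := exists_lt_of_lt_csSup ⟨t0, h0'⟩ (half_lt_self h2)
    exact ⟨half_pos h2, by linarith, adm_mono (half_pos h2) h4.le ht'.2.2⟩
  · obtain ⟨t0, h0, h1, h2⟩ := adm_at vk hz0
    refine ⟨t0 / 2, half_pos h0, t0 / 4, by positivity, fun z hz => ?_⟩
    have h3 : t0 / 2 ∈ {t : ℝ | 0 < t ∧ t ≤ 1 ∧ Adm U Γ z t} :=
      ⟨half_pos h0, by linarith, adm_half h0 h2 hz⟩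
    have h4 := le_csSup (hbd z) h3
    linarith

end Pool.Agent.MP_4eca41.R0
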