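import Pool.Agent.Work.MP_4eca41_an.R0.Fam

/-! # Module R0/Aff: an affine function below the family (R0.5 (ii))

PROOF. Let `A z = L y + dot (T y) (z - y)` (`A ≤ L`), `C = {z ∈ Γ | L z = A z}`, convex (`hull`), closed, does
not contain `z0`. Separation gives an affine `a z = dot q z - u` with `a < 0` on `C`, `a z0 > 0`.
There is `ε > 0` with `A z + ε * a z ≤ h z` for all `h ∈ Mem`, all `z`: this is clear where `a z ≤ 0`, and outside
a large ball by `mem_gr`.  On the compact set where `a z ≥ 0` in the ball, `h z ≥ A z + η / 2` for the second type and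
`h z ≥ L z + θ (z - y') / 2`, with `L z + θ (z - y') / 2 - A z` positive and continuous, for the first type. -/

set_option autoImplicit false

namespace Pool.Agent.MP_4eca41.R0

open Set MeasureTheory Filter Topology

variable {L : ℝ × ℝ → ℝ} {Γ : Set (ℝ × ℝ)} {T : ℝ × ℝ → ℝ × ℝ} {θ : ℝ × ℝ → ℝ}
  {K' : Set (ℝ × ℝ)} {η M Λ : ℝ}

theorem aff_ball_compact (R : ℝ) : IsCompact {z : ℝ × ℝ | sq z ≤ R} := by
  apply Metric.isCompact_of_isClosed_isBounded (isClosed_le continuous_sq continuous_const)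
  refine (Metric.isBounded_closedBall (x := (0 : ℝ × ℝ)) (r := Real.sqrt R)).subset ?_
  intro z hz
  have hz' : sq z ≤ R := hz
  rw [mem_closedBall_zero_iff, Prod.norm_def]
  unfold sq at hz'
  apply max_le
  · rw [Real.norm_eq_abs]
    apply Real.abs_le_sqrt; nlinarith [sq_nonneg z.2]
  · rw [Real.norm_eq_abs]
    apply Real.abs_le_sqrt; nlinarith [sq_nonneg z.1]

theorem fam_aff (pk : Pk L Γ T θ) (hK' : IsCompact K')
    (hL : ∀ z w, (L z - L w) ^ 2 ≤ Λ ^ 2 * sq (z - w))
    (hη : 0 < η) (hM : Λ ^ 2 ≤ 2 * η * M) (hM0 : 0 < M) {y z0 : ℝ × ℝ} (hy : y ∈ Γ)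
    (hz0 : z0 ∉ Γ) (hA : L z0 = L y + dot (T y) (z0 - y)) :
    ∃ (a : ℝ) (q : ℝ × ℝ), (∀ h ∈ Mem L Γ T θ K' η M, ∀ z, a + dot q (z - z0) ≤ h z) ∧
      L z0 < a := by
  have cL : Continuous L := continuous_of_convex pk.conv
  have cθ : Continuous θ := pk.th.ct
  have cA : Continuous fun z => L y + dot (T y) (z - y) := by unfold dot; fun_prop
  have hCc : IsClosed {z | z ∈ Γ ∧ L z = L y + dot (T y) (z - y)} :=
    pk.cG.isClosed.inter (isClosed_eq cL cA)
  have hz0C : z0 ∉ {z | z ∈ Γ ∧ L z = L y + dot (T y) (z - y)} := fun h => hz0 h.1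
  obtain ⟨f, u, hf1, hf2⟩ := geometric_hahn_banach_closed_point (pk.hull y hy) hCc hz0C
  obtain ⟨q, hfq⟩ : ∃ q : ℝ × ℝ, ∀ z, f z = dot q z := by
    refine ⟨(f (1, 0), f (0, 1)), fun z => ?_⟩
    have : z = z.1 • ((1 : ℝ), (0 : ℝ)) + z.2 • ((0 : ℝ), (1 : ℝ)) := by ext <;> simp
    conv_lhs => rw [this]
    rw [map_add, map_smul, map_smul]
    simp only [dot, smul_eq_mul]; ring
  have ha0 : 0 < dot q z0 - u := by have := hf2; rw [hfq] at this; linarith
  obtain ⟨c, C, hc, hgr⟩ := mem_gr (K' := K') (η := η) pk hK' hM0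
  -- the ball
  obtain ⟨R, hR⟩ : ∃ R : ℝ, ∀ z : ℝ × ℝ, R ≤ sq z →
      L y + dot (T y) (z - y) + (dot q z - u) ≤ c * sq z - C := by
    refine ⟨2 / c * (C + (L y - dot (T y) y - u) + sq (T y + q) / (2 * c)), fun z hz => ?_⟩
    have h1 : dot (T y + q) z ≤ c / 2 * sq z + sq (T y + q) / (2 * c) := by
      have h2 : 0 ≤ sq (c • z - (T y + q)) := sq_nonneg' _
      have h3 : sq (c • z - (T y + q)) = c ^ 2 * sq z - 2 * c * dot (T y + q) z +
          sq (T y + q) := by
        simp only [sq, dot, Prod.fst_sub, Prod.snd_sub, Prod.fst_add, Prod.snd_add, Prod.smul_fst,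
          Prod.smul_snd, smul_eq_mul]; ring
      rw [h3] at h2
      have h4 : c / 2 * sq z + sq (T y + q) / (2 * c) - dot (T y + q) z =
          (c ^ 2 * sq z - 2 * c * dot (T y + q) z + sq (T y + q)) / (2 * c) := by
        field_simp
        ring
      have h5 : 0 ≤ (c ^ 2 * sq z - 2 * c * dot (T y + q) z + sq (T y + q)) / (2 * c) := by
        positivity
      linarith
    have h6 : dot (T y) (z - y) + dot q z = dot (T y + q) z - dot (T y) y := by
      simp only [dot, Prod.fst_sub, Prod.snd_sub, Prod.fst_add, Prod.snd_add]; ring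
    have h7 : C + (L y - dot (T y) y - u) + sq (T y + q) / (2 * c) ≤ c / 2 * sq z := by
      have h8 := mul_le_mul_of_nonneg_left hz (by positivity : 0 ≤ c / 2)
      have h9 : c / 2 * (2 / c * (C + (L y - dot (T y) y - u) + sq (T y + q) / (2 * c))) =
          C + (L y - dot (T y) y - u) + sq (T y + q) / (2 * c) := by
        field_simp
      rw [h9] at h8; exact h8
    linarith
  have hDc : IsCompact {z : ℝ × ℝ | sq z ≤ R ∧ 0 ≤ dot q z - u} := by
    apply (aff_ball_compact R).inter_right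
    exact isClosed_le continuous_const ((continuous_dot q).sub continuous_const)
  obtain ⟨B, hB0, hB⟩ : ∃ B : ℝ, 0 < B ∧ ∀ z : ℝ × ℝ, sq z ≤ R → dot q z - u ≤ B := by
    obtain ⟨B, hB⟩ := (aff_ball_compact R).exists_bound_of_continuousOn
      (f := fun z => dot q z - u) ((continuous_dot q).sub continuous_const).continuousOn
    refine ⟨|B| + 1, by positivity, fun z hz => ?_⟩
    have h1 := hB z hz
    have h2 := le_abs_self (dot q z - u)
    have h3 := le_abs_self B
    rw [Real.norm_eq_abs] at h1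
    linarith
  -- the minimum of the first type
  obtain ⟨μ, hμ0, hμ⟩ : ∃ μ : ℝ, 0 < μ ∧ ∀ p ∈ {z : ℝ × ℝ | sq z ≤ R ∧ 0 ≤ dot q z - u} ×ˢ Γ,
      μ ≤ L p.1 + θ (p.1 - p.2) / 2 - (L y + dot (T y) (p.1 - y)) := by
    apply (hDc.prod pk.cG).exists_forall_le'
    · apply Continuous.continuousOn
      have c1 : Continuous fun p : (ℝ × ℝ) × (ℝ × ℝ) => L p.1 := cL.comp continuous_fst
      have c2 : Continuous fun p : (ℝ × ℝ) × (ℝ × ℝ) => θ (p.1 - p.2) :=
        cθ.comp (continuous_fst.sub continuous_snd)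
      have c3 : Continuous fun p : (ℝ × ℝ) × (ℝ × ℝ) => L y + dot (T y) (p.1 - y) :=
        cA.comp continuous_fst
      exact (c1.add (c2.div_const 2)).sub c3
    · rintro ⟨z, y'⟩ ⟨⟨hz1, hz2⟩, hy'⟩
      simp only at hz1 hz2 hy' ⊢
      have h1 := pk.tan y hy z
      have h2 := pk.th.tn (z - y')
      by_contra hcon
      push Not at hcon
      have h3 : θ (z - y') = 0 := by linarith
      have h4 : L z = L y + dot (T y) (z - y) := by linarith
      have h5 : z = y' := by
        by_contra hne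
        have hne' : z - y' ≠ 0 := sub_ne_zero.2 hne
        have hpos := sq_pos' hne'
        obtain ⟨m, hm, hm2⟩ := pk.th.tl (Real.sqrt (sq (z - y'))) (Real.sqrt_pos.2 hpos)
        have h6 := hm2 (z - y') (by rw [Real.sq_sqrt hpos.le])
        have := mul_pos hm hpos
        linarith
      have h7 := hf1 z ⟨h5 ▸ hy', h4⟩
      rw [hfq] at h7
      linarith
  -- the small number
  obtain ⟨ε, hε0, hε1, hε2, hε3⟩ : ∃ ε : ℝ, 0 < ε ∧ ε ≤ 1 ∧ ε * B ≤ μ ∧ ε * B ≤ η / 2 := by
    refine ⟨min 1 (min (μ / B) (η / 2 / B)), by positivity, min_le_left _ _, ?_, ?_⟩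
    · calc min 1 (min (μ / B) (η / 2 / B)) * B ≤ μ / B * B := by
            apply mul_le_mul_of_nonneg_right _ hB0.le
            exact (min_le_right _ _).trans (min_le_left _ _)
        _ = μ := by field_simp
    · calc min 1 (min (μ / B) (η / 2 / B)) * B ≤ η / 2 / B * B := by
            apply mul_le_mul_of_nonneg_right _ hB0.le
            exact (min_le_right _ _).trans (min_le_right _ _)
        _ = η / 2 := by field_simp
  have key : ∀ h ∈ Mem L Γ T θ K' η M, ∀ z,
      L y + dot (T y) (z - y) + ε * (dot q z - u) ≤ h z := by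
    intro h hh z
    have hlow := mem_low (K' := K') pk hL hη hM h hh z
    have htan := pk.tan y hy z
    rcases le_or_gt (dot q z - u) 0 with hn | hp
    · have : ε * (dot q z - u) ≤ 0 := mul_nonpos_of_nonneg_of_nonpos hε0.le hn
      linarith
    · rcases le_or_gt R (sq z) with hbig | hsm
      · have h1 := hR z hbig
        have h2 := hgr h hh z
        have h3 : ε * (dot q z - u) ≤ 1 * (dot q z - u) :=
          mul_le_mul_of_nonneg_right hε1 hp.le
        linarith
      · have h1 := hB z hsm.le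
        have h2 : ε * (dot q z - u) ≤ ε * B := mul_le_mul_of_nonneg_left h1 hε0.le
        rcases hh with ⟨y', hy', rfl⟩ | ⟨w, hw, rfl⟩
        · have h3 := mem1_low pk hy' z
          have h4 := hμ (z, y') ⟨⟨hsm.le, hp.le⟩, hy'⟩
          simp only at h4 ⊢
          linarith
        · have h3 := mem2_low (L := L) hL hη hM w z
          simp only
          linarith
  refine ⟨L y + dot (T y) (z0 - y) + ε * (dot q z0 - u), T y + ε • q, ?_, ?_⟩
  · intro h hh z
    have h1 := key h hh z
    have h2 : L y + dot (T y) (z0 - y) + ε * (dot q z0 - u) + dot (T y + ε • q) (z - z0) =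
        L y + dot (T y) (z - y) + ε * (dot q z - u) := by
      simp only [dot, Prod.fst_sub, Prod.snd_sub, Prod.fst_add, Prod.snd_add, Prod.smul_fst,
        Prod.smul_snd, smul_eq_mul]; ring
    rw [h2]; exact h1
  · have := mul_pos hε0 ha0
    linarith

end Pool.Agent.MP_4eca41.R0
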