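import Pool.Agent.Work.MP_4eca41_an.Defs

/-! # Block R0: basic definitions and elementary facts -/

set_option autoImplicit false

namespace Pool.Agent.MP_4eca41.R0

open Set MeasureTheory

/-- scalar product in the plane -/
def dot (q v : ℝ × ℝ) : ℝ := q.1 * v.1 + q.2 * v.2

theorem sq_nonneg' (v : ℝ × ℝ) : 0 ≤ sq v := by unfold sq; positivity

theorem sq_zero' : sq (0 : ℝ × ℝ) = 0 := by simp [sq]

theorem sq_eq_zero' {v : ℝ × ℝ} (h : sq v = 0) : v = 0 := by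
  unfold sq at h
  have h1 : v.1 ^ 2 = 0 := by nlinarith [sq_nonneg v.1, sq_nonneg v.2]
  have h2 : v.2 ^ 2 = 0 := by nlinarith [sq_nonneg v.1, sq_nonneg v.2]
  exact Prod.ext (pow_eq_zero_iff (two_ne_zero) |>.1 h1) (pow_eq_zero_iff (two_ne_zero) |>.1 h2)

theorem sq_pos' {v : ℝ × ℝ} (h : v ≠ 0) : 0 < sq v :=
  lt_of_le_of_ne (sq_nonneg' v) fun h0 => h (sq_eq_zero' h0.symm)

theorem sq_neg' (v : ℝ × ℝ) : sq (-v) = sq v := by simp [sq]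

theorem sq_sub_comm (v w : ℝ × ℝ) : sq (v - w) = sq (w - v) := by
  simp only [sq, Prod.fst_sub, Prod.snd_sub]; ring

theorem sq_smul' (c : ℝ) (v : ℝ × ℝ) : sq (c • v) = c ^ 2 * sq v := by
  simp only [sq, Prod.smul_fst, Prod.smul_snd, smul_eq_mul]; ring

theorem sq_add' (v w : ℝ × ℝ) : sq (v + w) = sq v + 2 * dot v w + sq w := by
  simp only [sq, dot, Prod.fst_add, Prod.snd_add]; ring

theorem sq_add_le (v w : ℝ × ℝ) : sq (v + w) ≤ 2 * sq v + 2 * sq w := by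
  simp only [sq, Prod.fst_add, Prod.snd_add]
  nlinarith [sq_nonneg (v.1 - w.1), sq_nonneg (v.2 - w.2)]

theorem dot_sq_le (q v : ℝ × ℝ) : dot q v ^ 2 ≤ sq q * sq v := by
  simp only [sq, dot]
  nlinarith [sq_nonneg (q.1 * v.2 - q.2 * v.1)]

/-- triangle inequality in squared form -/
theorem sq_tri {v w : ℝ × ℝ} {a b : ℝ} (ha : 0 ≤ a) (hb : 0 ≤ b) (hv : sq v ≤ a ^ 2)
    (hw : sq w ≤ b ^ 2) : sq (v + w) ≤ (a + b) ^ 2 := by
  have h1 : dot v w ≤ a * b := by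
    apply le_of_sq_le_sq ?_ (mul_nonneg ha hb)
    calc dot v w ^ 2 ≤ sq v * sq w := dot_sq_le v w
      _ ≤ a ^ 2 * b ^ 2 := mul_le_mul hv hw (sq_nonneg' w) (sq_nonneg a)
      _ = (a * b) ^ 2 := by ring
  rw [sq_add']
  nlinarith
where
  le_of_sq_le_sq {x y : ℝ} (h : x ^ 2 ≤ y ^ 2) (hy : 0 ≤ y) : x ≤ y := by
    exact le_trans (le_abs_self x) (by rw [← abs_of_nonneg hy]; exact sq_le_sq.1 h)

theorem dot_add_right (q v w : ℝ × ℝ) : dot q (v + w) = dot q v + dot q w := by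
  simp only [dot, Prod.fst_add, Prod.snd_add]; ring

theorem dot_sub_right (q v w : ℝ × ℝ) : dot q (v - w) = dot q v - dot q w := by
  simp only [dot, Prod.fst_sub, Prod.snd_sub]; ring

theorem dot_smul_right (q : ℝ × ℝ) (c : ℝ) (v : ℝ × ℝ) : dot q (c • v) = c * dot q v := by
  simp only [dot, Prod.smul_fst, Prod.smul_snd, smul_eq_mul]; ring

theorem dot_neg_right (q v : ℝ × ℝ) : dot q (-v) = - dot q v := by
  simp only [dot, Prod.fst_neg, Prod.snd_neg]; ring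

theorem dot_zero_right (q : ℝ × ℝ) : dot q 0 = 0 := by simp [dot]

theorem dot_self (v : ℝ × ℝ) : dot v v = sq v := by simp only [dot, sq]; ring

theorem continuous_sq : Continuous sq := by unfold sq; fun_prop

theorem continuous_dot (q : ℝ × ℝ) : Continuous (dot q) := by unfold dot; fun_prop

theorem mem_cb {z z' : ℝ × ℝ} {r : ℝ} : z' ∈ cb z r ↔ sq (z' - z) ≤ r ^ 2 := Iff.rfl

theorem self_mem_cb (z : ℝ × ℝ) (r : ℝ) : z ∈ cb z r := by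
  rw [mem_cb, sub_self, sq_zero']; positivity

theorem convex_affine (a : ℝ) (q z0 : ℝ × ℝ) :
    ConvexOn ℝ univ fun z => a + dot q (z - z0) := by
  refine ⟨convex_univ, fun x _ y _ s t _ _ hst => le_of_eq ?_⟩
  simp only [dot, Prod.fst_sub, Prod.snd_sub, Prod.fst_add, Prod.snd_add, Prod.smul_fst,
    Prod.smul_snd, smul_eq_mul]
  have : t = 1 - s := by linarith
  subst this; ring

theorem convex_sq (z0 : ℝ × ℝ) : ConvexOn ℝ univ fun z => sq (z - z0) := by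
  refine ⟨convex_univ, fun x _ y _ s t hs ht hst => ?_⟩
  simp only [sq, Prod.fst_sub, Prod.snd_sub, Prod.fst_add, Prod.snd_add, Prod.smul_fst,
    Prod.smul_snd, smul_eq_mul]
  have : t = 1 - s := by linarith
  subst this
  nlinarith [mul_nonneg hs ht, mul_nonneg (mul_nonneg hs ht) (sq_nonneg (x.1 - y.1)),
    mul_nonneg (mul_nonneg hs ht) (sq_nonneg (x.2 - y.2))]

theorem D2_convex {f : ℝ × ℝ → ℝ} (hf : ConvexOn ℝ univ f) (v z : ℝ × ℝ) : 0 ≤ D2 f v z := by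
  have h := hf.2 (mem_univ (z + v)) (mem_univ (z - v)) (by norm_num : (0 : ℝ) ≤ 1 / 2)
    (by norm_num : (0 : ℝ) ≤ 1 / 2) (by norm_num)
  have h1 : (1 / 2 : ℝ) • (z + v) + (1 / 2 : ℝ) • (z - v) = z := by
    ext <;> simp <;> ring
  rw [h1] at h
  simp only [smul_eq_mul] at h
  unfold D2; linarith

theorem D2_affine (a : ℝ) (q z0 v z : ℝ × ℝ) : D2 (fun z => a + dot q (z - z0)) v z = 0 := by
  simp only [D2, dot, Prod.fst_sub, Prod.snd_sub, Prod.fst_add, Prod.snd_add]; ring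

theorem D2_sq (z0 v z : ℝ × ℝ) : D2 (fun z => sq (z - z0)) v z = 2 * sq v := by
  simp only [D2, sq, Prod.fst_sub, Prod.snd_sub, Prod.fst_add, Prod.snd_add]; ring

theorem continuous_of_convex {f : ℝ × ℝ → ℝ} (hf : ConvexOn ℝ univ f) : Continuous f := by
  rw [← continuousOn_univ]
  exact hf.continuousOn isOpen_univ

/-- second differences of `U` tend to zero uniformly at `Γ` -/
def Flat (U : ℝ × ℝ → ℝ) (Γ : Set (ℝ × ℝ)) : Prop :=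
  ∀ κ : ℝ, 0 < κ → ∃ δ : ℝ, 0 < δ ∧ ∀ y ∈ Γ, ∀ z ∈ cb y δ, ∀ v : ℝ × ℝ, sq v ≤ δ ^ 2 →
    D2 U v z ≤ κ * sq v

/-- the functions `θ` of tool T7 -/
structure Th (θ : ℝ × ℝ → ℝ) : Prop where
  ct : Continuous θ
  t0 : θ 0 = 0
  tn : ∀ v, 0 ≤ θ v
  tl : ∀ r : ℝ, 0 < r → ∃ m : ℝ, 0 < m ∧ ∀ v, r ^ 2 ≤ sq v → m * sq v ≤ θ v
  tM : ∃ M : ℝ, ∀ v z, D2 θ v z ≤ M * sq v
  ts : ∀ κ : ℝ, 0 < κ → ∃ δ : ℝ, 0 < δ ∧ ∀ v z, sq v ≤ δ ^ 2 → sq z ≤ δ ^ 2 →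
    D2 θ v z ≤ κ * sq v
  tu : ∀ κ : ℝ, 0 < κ → ∃ δ : ℝ, 0 < δ ∧ ∀ v, sq v ≤ δ ^ 2 → θ v ≤ κ * sq v

/-- the data after R0.3: the maximum `L` of the tangent functions, the compact set `Γ` of the points where
it has a uniform expansion, the gradients `T` there, and the function `θ` -/
structure Pk (L : ℝ × ℝ → ℝ) (Γ : Set (ℝ × ℝ)) (T : ℝ × ℝ → ℝ × ℝ) (θ : ℝ × ℝ → ℝ) : Prop where
  conv : ConvexOn ℝ univ L
  lip : ∃ Λ : ℝ, 0 ≤ Λ ∧ ∀ z w, (L z - L w) ^ 2 ≤ Λ ^ 2 * sq (z - w)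
  cG : IsCompact Γ
  ne : Γ.Nonempty
  cT : ContinuousOn T Γ
  tan : ∀ y ∈ Γ, ∀ z, L y + dot (T y) (z - y) ≤ L z
  act : ∀ z, ∃ y ∈ Γ, L z = L y + dot (T y) (z - y)
  up : ∀ y ∈ Γ, ∀ v, L (y + v) ≤ L y + dot (T y) v + θ v / 2
  hull : ∀ y ∈ Γ, Convex ℝ {z | z ∈ Γ ∧ L z = L y + dot (T y) (z - y)}
  th : Th θ

/-- the data after R0.5 and R0.6 (first part) -/
structure Uk (u : ℝ × ℝ → ℝ) (Γ : Set (ℝ × ℝ)) (T : ℝ × ℝ → ℝ × ℝ) : Prop where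
  conv : ConvexOn ℝ univ u
  cG : IsCompact Γ
  ne : Γ.Nonempty
  cT : ContinuousOn T Γ
  tan : ∀ y ∈ Γ, ∀ z, u y + dot (T y) (z - y) ≤ u z
  upp : ∃ M : ℝ, ∀ v z, D2 u v z ≤ M * sq v
  flat : Flat u Γ
  strict : ∀ z0, z0 ∉ Γ → ∀ q, (∀ z, u z0 + dot q (z - z0) ≤ u z) →
    ∀ y ∈ Γ, u z0 + dot q (y - z0) < u y

/-- the data after R0.7 -/
structure Vk (U : ℝ × ℝ → ℝ) (Γ : Set (ℝ × ℝ)) (T : ℝ × ℝ → ℝ × ℝ) : Prop where
  conv : ConvexOn ℝ univ U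
  cG : IsCompact Γ
  ne : Γ.Nonempty
  cT : ContinuousOn T Γ
  tan : ∀ y ∈ Γ, ∀ z, U y + dot (T y) (z - y) ≤ U z
  flat : Flat U Γ
  str : ∀ z0, z0 ∉ Γ → ∃ ρ : ℝ, 0 < ρ ∧ ∃ m : ℝ, 0 < m ∧ ∀ z ∈ cb z0 ρ, ∀ v : ℝ × ℝ,
    sq v ≤ ρ ^ 2 → m * sq v ≤ D2 U v z

end Pool.Agent.MP_4eca41.R0
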