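import Pool.Agent.Work.MP_4eca41_an.R0.Unq

/-! # Module R0/Fam: the family of functions (R0.4)

`Mem`: the functions `z ↦ T_y z + θ (z - y)` (`y ∈ Γ`) and `z ↦ L z0 + η + M * sq (z - z0)` (`z0 ∈ K'`), where
`T_y z = L y + dot (T y) (z - y)` and `Λ^2 ≤ 2 η M`.
`mem1_low`: `up` with `v = z - y` gives `L z ≤ T_y z + θ (z - y) / 2`.
`mem2_low`: `L z - L z0 ≤ Λ √(sq (z - z0)) ≤ η/2 + Λ^2 sq (z - z0) / (2 η) ≤ η / 2 + M sq (z - z0)`; in squared form:
with `x = L z - L z0`, `x^2 ≤ Λ^2 s`, `s = sq (z - z0)`: `x ≤ η/2 + x^2/(2η)`.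
`mem_D2` PROOF. First type: `D2 h v z = D2 θ v (z - y)`. Let `δ1` be from `ts` for `κ`. If `sq (z - y) ≤ δ1^2` (and
`sq v ≤ δ1^2`): `≤ κ sq v`. Otherwise `h z - L z ≥ θ (z - y) / 2 ≥ m δ1^2 / 2 > 0` (`tl` with `r = δ1`), and
`D2 θ v (z - y) ≤ M1 sq v ≤ (2 M1 / (m δ1^2)) (h z - L z) sq v`. Second type: `D2 h v z = 2 M sq v` and
`h z - L z ≥ η / 2`.
`mem_gr` PROOF. First type: `θ w ≥ m sq w` if `sq w ≥ 1`, `L y`, `T y`, `y` bounded on the compact `Γ` (`L` is continuous, `T`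
continuous on `Γ`); second type clear (`K'` bounded). -/

set_option autoImplicit false

namespace Pool.Agent.MP_4eca41.R0

open Set MeasureTheory

/-- the family -/
def Mem (L : ℝ × ℝ → ℝ) (Γ : Set (ℝ × ℝ)) (T : ℝ × ℝ → ℝ × ℝ) (θ : ℝ × ℝ → ℝ)
    (K' : Set (ℝ × ℝ)) (η M : ℝ) : Set (ℝ × ℝ → ℝ) :=
  {h | (∃ y ∈ Γ, h = fun z => L y + dot (T y) (z - y) + θ (z - y)) ∨
    ∃ z0 ∈ K', h = fun z => L z0 + η + M * sq (z - z0)}

variable {L : ℝ × ℝ → ℝ} {Γ : Set (ℝ × ℝ)} {T : ℝ × ℝ → ℝ × ℝ} {θ : ℝ × ℝ → ℝ}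
  {K' : Set (ℝ × ℝ)} {η M Λ : ℝ}

private theorem fam_D2a (L : ℝ × ℝ → ℝ) (T : ℝ × ℝ → ℝ × ℝ) (θ : ℝ × ℝ → ℝ) (y v z : ℝ × ℝ) :
    D2 (fun z => L y + dot (T y) (z - y) + θ (z - y)) v z = D2 θ v (z - y) := by
  have e1 : z + v - y = z - y + v := by abel
  have e2 : z - v - y = z - y - v := by abel
  simp only [D2, e1, e2, dot_add_right, dot_sub_right]
  ring

private theorem fam_D2b (L : ℝ × ℝ → ℝ) (z0 : ℝ × ℝ) (η M : ℝ) (v z : ℝ × ℝ) :
    D2 (fun z => L z0 + η + M * sq (z - z0)) v z = 2 * M * sq v := by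
  have h := D2_sq z0 v z
  simp only [D2] at h ⊢
  linear_combination M * h

theorem mem1_low (pk : Pk L Γ T θ) {y : ℝ × ℝ} (hy : y ∈ Γ) (z : ℝ × ℝ) :
    L z + θ (z - y) / 2 ≤ L y + dot (T y) (z - y) + θ (z - y) := by
  have h := pk.up y hy (z - y)
  rw [add_sub_cancel] at h
  linarith

theorem mem2_low (hL : ∀ z w, (L z - L w) ^ 2 ≤ Λ ^ 2 * sq (z - w)) (hη : 0 < η)
    (hM : Λ ^ 2 ≤ 2 * η * M) (z0 z : ℝ × ℝ) : L z + η / 2 ≤ L z0 + η + M * sq (z - z0) := by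
  have h1 := hL z z0
  have h2 : Λ ^ 2 * sq (z - z0) ≤ 2 * η * M * sq (z - z0) :=
    mul_le_mul_of_nonneg_right hM (sq_nonneg' _)
  have h3 : 2 * η * (L z - L z0) ≤ 2 * η * (η / 2 + M * sq (z - z0)) := by
    nlinarith [sq_nonneg (L z - L z0 - η)]
  have h4 := le_of_mul_le_mul_left h3 (by positivity)
  linarith

theorem mem_low (pk : Pk L Γ T θ) (hL : ∀ z w, (L z - L w) ^ 2 ≤ Λ ^ 2 * sq (z - w))
    (hη : 0 < η) (hM : Λ ^ 2 ≤ 2 * η * M) : ∀ h ∈ Mem L Γ T θ K' η M, ∀ z, L z ≤ h z := by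
  intro h hh z
  rcases hh with ⟨y, hy, rfl⟩ | ⟨z0, _, rfl⟩
  · have h1 := mem1_low pk hy z
    have h2 := pk.th.tn (z - y)
    show L z ≤ L y + dot (T y) (z - y) + θ (z - y)
    linarith
  · have h1 := mem2_low hL hη hM z0 z
    show L z ≤ L z0 + η + M * sq (z - z0)
    linarith

theorem mem_D2 (pk : Pk L Γ T θ) (hL : ∀ z w, (L z - L w) ^ 2 ≤ Λ ^ 2 * sq (z - w))
    (hη : 0 < η) (hM : Λ ^ 2 ≤ 2 * η * M) (hM0 : 0 ≤ M) {κ : ℝ} (hκ : 0 < κ) :
    ∃ N : ℝ, 0 ≤ N ∧ ∃ δ : ℝ, 0 < δ ∧ ∀ h ∈ Mem L Γ T θ K' η M, ∀ v z : ℝ × ℝ,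
      sq v ≤ δ ^ 2 → D2 h v z ≤ (κ + N * (h z - L z)) * sq v := by
  obtain ⟨δ, hδ, hts⟩ := pk.th.ts κ hκ
  obtain ⟨m, hm, htl⟩ := pk.th.tl δ hδ
  obtain ⟨M1, hM1⟩ := pk.th.tM
  have hmd : 0 < m * δ ^ 2 := by positivity
  have hN1 : 0 ≤ 2 * |M1| / (m * δ ^ 2) := by positivity
  have hN2 : 0 ≤ 4 * M / η := by positivity
  refine ⟨2 * |M1| / (m * δ ^ 2) + 4 * M / η, by positivity, δ, hδ, ?_⟩
  intro h hh v z hv
  have hlow := mem_low pk hL hη hM h hh z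
  have hsv := sq_nonneg' v
  rcases hh with ⟨y, hy, rfl⟩ | ⟨z0, _, rfl⟩
  · have e1 := fam_D2a L T θ y v z
    rw [e1]
    have h1 := mem1_low pk hy z
    by_cases hz : sq (z - y) ≤ δ ^ 2
    · refine (hts v (z - y) hv hz).trans ?_
      apply mul_le_mul_of_nonneg_right _ hsv
      have h2 : 0 ≤ (2 * |M1| / (m * δ ^ 2) + 4 * M / η) *
          (L y + dot (T y) (z - y) + θ (z - y) - L z) :=
        mul_nonneg (by positivity) (sub_nonneg.2 hlow)
      show κ ≤ κ + (2 * |M1| / (m * δ ^ 2) + 4 * M / η) *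
          (L y + dot (T y) (z - y) + θ (z - y) - L z)
      linarith
    · rw [not_le] at hz
      have h2 := htl (z - y) hz.le
      have h3 : m * δ ^ 2 / 2 ≤ L y + dot (T y) (z - y) + θ (z - y) - L z := by
        nlinarith
      refine (hM1 v (z - y)).trans ?_
      apply mul_le_mul_of_nonneg_right _ hsv
      have h4 : |M1| ≤ 2 * |M1| / (m * δ ^ 2) *
          (L y + dot (T y) (z - y) + θ (z - y) - L z) := by
        calc |M1| = 2 * |M1| / (m * δ ^ 2) * (m * δ ^ 2 / 2) := by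
              field_simp
          _ ≤ _ := mul_le_mul_of_nonneg_left h3 hN1
      have h5 : 0 ≤ 4 * M / η * (L y + dot (T y) (z - y) + θ (z - y) - L z) :=
        mul_nonneg hN2 (sub_nonneg.2 hlow)
      have h6 := le_abs_self M1
      show M1 ≤ κ + (2 * |M1| / (m * δ ^ 2) + 4 * M / η) *
          (L y + dot (T y) (z - y) + θ (z - y) - L z)
      rw [add_mul]
      linarith
  · have e1 := fam_D2b L z0 η M v z
    rw [e1]
    have h1 := mem2_low hL hη hM z0 z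
    apply mul_le_mul_of_nonneg_right _ hsv
    have h3 : η / 2 ≤ L z0 + η + M * sq (z - z0) - L z := by linarith
    have h4 : 2 * M ≤ 4 * M / η * (L z0 + η + M * sq (z - z0) - L z) := by
      calc 2 * M = 4 * M / η * (η / 2) := by
            field_simp
            ring
        _ ≤ _ := mul_le_mul_of_nonneg_left h3 hN2
    have h5 : 0 ≤ 2 * |M1| / (m * δ ^ 2) * (L z0 + η + M * sq (z - z0) - L z) :=
      mul_nonneg hN1 (sub_nonneg.2 hlow)
    show 2 * M ≤ κ + (2 * |M1| / (m * δ ^ 2) + 4 * M / η) *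
        (L z0 + η + M * sq (z - z0) - L z)
    rw [add_mul]
    linarith

theorem mem_D2M (pk : Pk L Γ T θ) (hM0 : 0 ≤ M) :
    ∃ M1 : ℝ, 0 ≤ M1 ∧ ∀ h ∈ Mem L Γ T θ K' η M, ∀ v z : ℝ × ℝ, D2 h v z ≤ M1 * sq v := by
  obtain ⟨M1, hM1⟩ := pk.th.tM
  refine ⟨max |M1| (2 * M), le_max_of_le_left (abs_nonneg _), ?_⟩
  intro h hh v z
  have hsv := sq_nonneg' v
  rcases hh with ⟨y, _, rfl⟩ | ⟨z0, _, rfl⟩
  · rw [fam_D2a L T θ y v z]
    exact (hM1 v (z - y)).trans (mul_le_mul_of_nonneg_right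
      ((le_abs_self M1).trans (le_max_left _ _)) hsv)
  · rw [fam_D2b L z0 η M v z]
    exact mul_le_mul_of_nonneg_right (le_max_right _ _) hsv

theorem mem_gr (pk : Pk L Γ T θ) (hK' : IsCompact K') (hM : 0 < M) :
    ∃ c C : ℝ, 0 < c ∧ ∀ h ∈ Mem L Γ T θ K' η M, ∀ z, c * sq z - C ≤ h z := by
  have hLc := continuous_of_convex pk.conv
  obtain ⟨m, hm, htl⟩ := pk.th.tl 1 one_pos
  obtain ⟨B1, hB1⟩ := pk.cG.exists_bound_of_continuousOn hLc.continuousOn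
  obtain ⟨B2, hB2⟩ := pk.cG.exists_bound_of_continuousOn (continuous_sq.comp_continuousOn pk.cT)
  obtain ⟨B3, hB3⟩ := pk.cG.exists_bound_of_continuousOn continuous_sq.continuousOn
  obtain ⟨B4, hB4⟩ := hK'.exists_bound_of_continuousOn hLc.continuousOn
  obtain ⟨B5, hB5⟩ := hK'.exists_bound_of_continuousOn continuous_sq.continuousOn
  refine ⟨min (3 * m / 8) (M / 2), max (B1 + B2 / m + m + 3 * m / 4 * B3) (B4 - η + M * B5),
    lt_min (by positivity) (by positivity), ?_⟩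
  intro h hh z
  have hsz := sq_nonneg' z
  rcases hh with ⟨y, hy, rfl⟩ | ⟨z0, hz0, rfl⟩
  · have h1 := (abs_le.1 (hB1 y hy)).1
    have h2 : sq (T y) ≤ B2 := (le_abs_self _).trans (hB2 y hy)
    have h3 : sq y ≤ B3 := (le_abs_self _).trans (hB3 y hy)
    have h4 : m * sq (z - y) - m ≤ θ (z - y) := by
      by_cases hc : (1 : ℝ) ^ 2 ≤ sq (z - y)
      · have := htl (z - y) hc
        linarith
      · have h5 := pk.th.tn (z - y)
        nlinarith
    have h6 : -(B2 / m + m / 4 * sq (z - y)) ≤ dot (T y) (z - y) := by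
      have h7 : 0 ≤ sq (T y) + m * dot (T y) (z - y) + m ^ 2 / 4 * sq (z - y) := by
        simp only [sq, dot]
        nlinarith [sq_nonneg ((T y).1 + m / 2 * (z - y).1),
          sq_nonneg ((T y).2 + m / 2 * (z - y).2)]
      have h8 : m * (-(B2 / m + m / 4 * sq (z - y))) ≤ m * dot (T y) (z - y) := by
        have h9 : m * (-(B2 / m + m / 4 * sq (z - y))) = -B2 - m ^ 2 / 4 * sq (z - y) := by
          field_simp
          ring
        rw [h9]
        linarith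
      exact le_of_mul_le_mul_left h8 hm
    have h10 : sq z ≤ 2 * sq (z - y) + 2 * sq y := by
      have := sq_add_le (z - y) y
      rwa [sub_add_cancel] at this
    have h11 : min (3 * m / 8) (M / 2) * sq z ≤ 3 * m / 8 * sq z :=
      mul_le_mul_of_nonneg_right (min_le_left _ _) hsz
    have h12 := le_max_left (B1 + B2 / m + m + 3 * m / 4 * B3) (B4 - η + M * B5)
    show min (3 * m / 8) (M / 2) * sq z - max (B1 + B2 / m + m + 3 * m / 4 * B3)
      (B4 - η + M * B5) ≤ L y + dot (T y) (z - y) + θ (z - y)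
    have h13 : 3 * m / 8 * sq z ≤ 3 * m / 4 * sq (z - y) + 3 * m / 4 * B3 := by
      have h14 : 3 * m / 8 * sq z ≤ 3 * m / 8 * (2 * sq (z - y) + 2 * B3) :=
        mul_le_mul_of_nonneg_left (by linarith) (by positivity)
      linarith
    linarith
  · have h1 := (abs_le.1 (hB4 z0 hz0)).1
    have h3 : sq z0 ≤ B5 := (le_abs_self _).trans (hB5 z0 hz0)
    have h10 : sq z ≤ 2 * sq (z - z0) + 2 * sq z0 := by
      have := sq_add_le (z - z0) z0
      rwa [sub_add_cancel] at this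
    have h11 : min (3 * m / 8) (M / 2) * sq z ≤ M / 2 * sq z :=
      mul_le_mul_of_nonneg_right (min_le_right _ _) hsz
    have h12 := le_max_right (B1 + B2 / m + m + 3 * m / 4 * B3) (B4 - η + M * B5)
    show min (3 * m / 8) (M / 2) * sq z - max (B1 + B2 / m + m + 3 * m / 4 * B3)
      (B4 - η + M * B5) ≤ L z0 + η + M * sq (z - z0)
    have h13 : M / 2 * sq z ≤ M * sq (z - z0) + M * B5 := by
      have h14 : M / 2 * sq z ≤ M / 2 * (2 * sq (z - z0) + 2 * B5) :=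
        mul_le_mul_of_nonneg_left (by linarith) (by positivity)
      linarith
    linarith

end Pool.Agent.MP_4eca41.R0
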