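import Pool.Agent.Work.MP_4eca41_an.R0.Unq

/-! # Module R0/Lx: the maximum of the tangent functions, and its modulus (R0.1)

`lx_ex` PROOF. For `y ∈ K` the expansion `Exp2` (with `ε = 1`, the quadratic part of `J.q` bounded by `C * sq v` as
`J.a, J.b, J.c` are real numbers at `y`) and `sub_exp` give
`f y + dot (J.p y, J.s y) (z - y) ≤ f z`. Let `L z = sSup ((fun y => f y + dot (J.p y, J.s y) (z - y)) '' K)`; the function of
`y` is continuous on the compact nonempty set `K` (`f` is continuous), so the supremum is attained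
(`IsCompact.exists_isMaxOn`). Convex: at the maximizing `y` for `s z + t w` (affine in `z`). Lipschitz with
`Λ^2 ≥ sq (J.p y, J.s y)` on `K` (`dot_sq_le`).
`gx_ex` PROOF. `G v = sSup ((fun y => L (y + v) - L y - dot (J.p y, J.s y) v) '' K)` (bounded: Lipschitz and bounded
gradients). `0 ≤ G v` by the tangent inequality. `L (y + v) ≤ f (y + v) ≤ f y + dot (..) v + ε sq v` for small `v`, since the
quadratic coefficients vanish on `K`; so `G v ≤ ε sq v` for `sq v ≤ δ^2`. For all `v`: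
`G v ≤ Λ |v| + Λ' |v| ≤ C |v|` (`|v| = √(sq v)`), so `G v ≤ (C/δ) sq v` if `sq v ≥ δ^2`. -/

set_option autoImplicit false

namespace Pool.Agent.MP_4eca41.R0

open Set MeasureTheory

private theorem lx_tan {f : ℝ × ℝ → ℝ} (hf : ConvexOn ℝ univ f) {K : Set (ℝ × ℝ)} {J : Jets}
    (hE : Exp2 f K J) {y : ℝ × ℝ} (hy : y ∈ K) (z : ℝ × ℝ) :
    f y + dot (J.p y, J.s y) (z - y) ≤ f z := by
  apply sub_exp hf
  obtain ⟨δ, hδ, h⟩ := hE.ex 1 one_pos
  refine ⟨1 + |J.a y| + |J.b y| + |J.c y|, δ, hδ, fun v hv => ?_⟩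
  have h1 := (abs_le.1 (h y hy v hv)).1
  have ha := neg_abs_le (J.a y)
  have hb := abs_le.1 (le_refl |J.b y|)
  have hc := neg_abs_le (J.c y)
  have hb0 := abs_nonneg (J.b y)
  have hab : - (|J.b y| * (v.1 ^ 2 + v.2 ^ 2)) ≤ 2 * J.b y * v.1 * v.2 := by
    have e1 : 0 ≤ (|J.b y| + J.b y) * (v.1 + v.2) ^ 2 :=
      mul_nonneg (by linarith [hb.1]) (sq_nonneg _)
    have e2 : 0 ≤ (|J.b y| - J.b y) * (v.1 - v.2) ^ 2 :=
      mul_nonneg (by linarith [hb.2]) (sq_nonneg _)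
    nlinarith
  have haa : - (|J.a y| * v.1 ^ 2) ≤ J.a y * v.1 ^ 2 := by
    nlinarith [mul_nonneg (by linarith : 0 ≤ |J.a y| + J.a y) (sq_nonneg v.1)]
  have hcc : - (|J.c y| * v.2 ^ 2) ≤ J.c y * v.2 ^ 2 := by
    nlinarith [mul_nonneg (by linarith : 0 ≤ |J.c y| + J.c y) (sq_nonneg v.2)]
  have n1 := mul_nonneg (abs_nonneg (J.a y)) (sq_nonneg v.1)
  have n2 := mul_nonneg (abs_nonneg (J.a y)) (sq_nonneg v.2)
  have n3 := mul_nonneg (abs_nonneg (J.b y)) (sq_nonneg v.1)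
  have n4 := mul_nonneg (abs_nonneg (J.b y)) (sq_nonneg v.2)
  have n5 := mul_nonneg (abs_nonneg (J.c y)) (sq_nonneg v.1)
  have n6 := mul_nonneg (abs_nonneg (J.c y)) (sq_nonneg v.2)
  unfold Jets.q sq at h1
  unfold dot sq
  simp only
  nlinarith

private theorem lx_cont {K : Set (ℝ × ℝ)} {f : ℝ × ℝ → ℝ} {J : Jets} (hE : Exp2 f K J) :
    ContinuousOn (fun y => sq (J.p y, J.s y)) K := by
  unfold sq
  exact (hE.cp.pow 2).add (hE.cs.pow 2)

private theorem lx_bd {K : Set (ℝ × ℝ)} (hK : IsCompact K) {f : ℝ × ℝ → ℝ} {J : Jets}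
    (hE : Exp2 f K J) : ∃ Λ : ℝ, 0 ≤ Λ ∧ ∀ y ∈ K, ∀ v, dot (J.p y, J.s y) v ^ 2 ≤ Λ ^ 2 * sq v := by
  obtain ⟨B, hB⟩ := hK.bddAbove_image (lx_cont hE)
  refine ⟨|B| + 1, by positivity, fun y hy v => ?_⟩
  have h1 : sq (J.p y, J.s y) ≤ B := hB ⟨y, hy, rfl⟩
  have h2 := dot_sq_le (J.p y, J.s y) v
  have h3 := sq_nonneg' v
  have h4 := le_abs_self B
  have h5 := abs_nonneg B
  have h6 : sq (J.p y, J.s y) ≤ (|B| + 1) ^ 2 := by nlinarith
  exact h2.trans (mul_le_mul_of_nonneg_right h6 h3)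

theorem lx_ex {f : ℝ × ℝ → ℝ} (hf : ConvexOn ℝ univ f) {K : Set (ℝ × ℝ)} (hK : IsCompact K)
    (hne : K.Nonempty) {J : Jets} (hE : Exp2 f K J) :
    ∃ L : ℝ × ℝ → ℝ, ConvexOn ℝ univ L ∧
      (∃ Λ : ℝ, 0 ≤ Λ ∧ ∀ z w, (L z - L w) ^ 2 ≤ Λ ^ 2 * sq (z - w)) ∧
      (∀ z, L z ≤ f z) ∧ (∀ y ∈ K, L y = f y) ∧
      (∀ y ∈ K, ∀ z, L y + dot (J.p y, J.s y) (z - y) ≤ L z) ∧
      ∀ z, ∃ y ∈ K, L z = L y + dot (J.p y, J.s y) (z - y) := by
  have hcf := continuous_of_convex hf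
  have key : ∀ z : ℝ × ℝ, ∃ y ∈ K, ∀ y' ∈ K,
      f y' + dot (J.p y', J.s y') (z - y') ≤ f y + dot (J.p y, J.s y) (z - y) := by
    intro z
    have hc : ContinuousOn (fun y => f y + dot (J.p y, J.s y) (z - y)) K := by
      unfold dot
      have c1 : ContinuousOn (fun y : ℝ × ℝ => (z - y).1) K := by fun_prop
      have c2 : ContinuousOn (fun y : ℝ × ℝ => (z - y).2) K := by fun_prop
      exact hcf.continuousOn.add ((hE.cp.mul c1).add (hE.cs.mul c2))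
    obtain ⟨y, hy, hmax⟩ := hK.exists_isMaxOn hne hc
    exact ⟨y, hy, fun y' hy' => hmax hy'⟩
  choose Y hY hYm using key
  have htan := fun y (hy : y ∈ K) z => lx_tan hf hE hy z
  have hle : ∀ z, f (Y z) + dot (J.p (Y z), J.s (Y z)) (z - Y z) ≤ f z := fun z => htan _ (hY z) z
  have heq : ∀ y ∈ K, f (Y y) + dot (J.p (Y y), J.s (Y y)) (y - Y y) = f y := by
    intro y hy
    apply le_antisymm (hle y)
    have := hYm y y hy
    rwa [sub_self, dot_zero_right, add_zero] at this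
  refine ⟨fun z => f (Y z) + dot (J.p (Y z), J.s (Y z)) (z - Y z), ?_, ?_, hle, heq, ?_, ?_⟩
  · refine ⟨convex_univ, fun x _ w _ s t hs ht hst => ?_⟩
    have h1 := hYm x _ (hY (s • x + t • w))
    have h2 := hYm w _ (hY (s • x + t • w))
    have h3 := mul_le_mul_of_nonneg_left h1 hs
    have h4 := mul_le_mul_of_nonneg_left h2 ht
    have h5 : t = 1 - s := by linarith
    simp only [smul_eq_mul]
    refine le_trans (le_of_eq ?_) (add_le_add h3 h4)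
    generalize Y (s • x + t • w) = y
    simp only [dot, Prod.fst_sub, Prod.snd_sub, Prod.fst_add, Prod.snd_add, Prod.smul_fst,
      Prod.smul_snd, smul_eq_mul]
    subst h5
    ring
  · obtain ⟨Λ, hΛ, hb⟩ := lx_bd hK hE
    refine ⟨Λ, hΛ, fun z w => ?_⟩
    have hone : ∀ z w : ℝ × ℝ, (f (Y z) + dot (J.p (Y z), J.s (Y z)) (z - Y z)) -
        (f (Y w) + dot (J.p (Y w), J.s (Y w)) (w - Y w)) ≤ dot (J.p (Y z), J.s (Y z)) (z - w) := by
      intro z w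
      have h1 := hYm w _ (hY z)
      have h2 : dot (J.p (Y z), J.s (Y z)) (z - w) = dot (J.p (Y z), J.s (Y z)) (z - Y z) -
          dot (J.p (Y z), J.s (Y z)) (w - Y z) := by
        rw [← dot_sub_right]
        congr 1
        abel
      linarith
    simp only
    rcases le_total (f (Y w) + dot (J.p (Y w), J.s (Y w)) (w - Y w))
      (f (Y z) + dot (J.p (Y z), J.s (Y z)) (z - Y z)) with hc | hc
    · have h1 := hone z w
      have h2 := hb _ (hY z) (z - w)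
      have h3 := sub_nonneg.2 hc
      calc _ ≤ (dot (J.p (Y z), J.s (Y z)) (z - w)) ^ 2 := pow_le_pow_left₀ h3 h1 2
        _ ≤ _ := h2
    · have h1 := hone w z
      have h2 := hb _ (hY w) (w - z)
      have h3 := sub_nonneg.2 hc
      rw [sq_sub_comm z w]
      calc _ = (f (Y w) + dot (J.p (Y w), J.s (Y w)) (w - Y w) -
          (f (Y z) + dot (J.p (Y z), J.s (Y z)) (z - Y z))) ^ 2 := by ring
        _ ≤ (dot (J.p (Y w), J.s (Y w)) (w - z)) ^ 2 := pow_le_pow_left₀ h3 h1 2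
        _ ≤ _ := h2
  · intro y hy z
    simp only
    rw [heq y hy]
    exact hYm z y hy
  · intro z
    refine ⟨Y z, hY z, ?_⟩
    simp only
    rw [heq _ (hY z)]

theorem gx_ex {f : ℝ × ℝ → ℝ} {K : Set (ℝ × ℝ)} (hK : IsCompact K)
    (hne : K.Nonempty) {J : Jets} (hE : Exp2 f K J)
    (h0 : ∀ z ∈ K, J.a z = 0 ∧ J.b z = 0 ∧ J.c z = 0) {L : ℝ × ℝ → ℝ}
    (hlip : ∃ Λ : ℝ, 0 ≤ Λ ∧ ∀ z w, (L z - L w) ^ 2 ≤ Λ ^ 2 * sq (z - w))
    (hle : ∀ z, L z ≤ f z) (heq : ∀ y ∈ K, L y = f y)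
    (htan : ∀ y ∈ K, ∀ z, L y + dot (J.p y, J.s y) (z - y) ≤ L z) :
    ∃ G : ℝ × ℝ → ℝ, (∀ v, 0 ≤ G v) ∧ (∃ C : ℝ, ∀ v, G v ≤ C * sq v) ∧
      (∀ ε : ℝ, 0 < ε → ∃ δ : ℝ, 0 < δ ∧ ∀ v, sq v ≤ δ ^ 2 → G v ≤ ε * sq v) ∧
      ∀ y ∈ K, ∀ v, L (y + v) ≤ L y + dot (J.p y, J.s y) v + G v := by
  obtain ⟨Λ, hΛ, hl⟩ := hlip
  obtain ⟨Λ', hΛ', hb⟩ := lx_bd hK hE
  have hroot : ∀ (x a : ℝ) (v : ℝ × ℝ), 0 ≤ a → x ^ 2 ≤ a ^ 2 * sq v → x ≤ a * Real.sqrt (sq v) := by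
    intro x a v ha h
    have h1 : x ^ 2 ≤ (a * Real.sqrt (sq v)) ^ 2 := by
      rw [mul_pow, Real.sq_sqrt (sq_nonneg' v)]
      exact h
    exact (abs_le_of_sq_le_sq' h1 (by positivity)).2
  have hup : ∀ y ∈ K, ∀ v, L (y + v) - L y - dot (J.p y, J.s y) v ≤ (Λ + Λ') * Real.sqrt (sq v) := by
    intro y hy v
    have h1 := hl (y + v) y
    rw [add_sub_cancel_left] at h1
    have h2 := hroot _ Λ v hΛ h1
    have h3 := hb y hy v
    have h4 : (- dot (J.p y, J.s y) v) ^ 2 ≤ Λ' ^ 2 * sq v := by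
      rw [neg_sq]
      exact h3
    have h5 := hroot _ Λ' v hΛ' h4
    nlinarith
  have hlow : ∀ y ∈ K, ∀ v, 0 ≤ L (y + v) - L y - dot (J.p y, J.s y) v := by
    intro y hy v
    have h1 := htan y hy (y + v)
    rw [add_sub_cancel_left] at h1
    linarith
  have hbdd : ∀ v, BddAbove ((fun y => L (y + v) - L y - dot (J.p y, J.s y) v) '' K) := by
    intro v
    refine ⟨(Λ + Λ') * Real.sqrt (sq v), ?_⟩
    rintro _ ⟨y, hy, rfl⟩
    exact hup y hy v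
  have hleG : ∀ y ∈ K, ∀ v, L (y + v) - L y - dot (J.p y, J.s y) v ≤
      sSup ((fun y => L (y + v) - L y - dot (J.p y, J.s y) v) '' K) :=
    fun y hy v => le_csSup (hbdd v) ⟨y, hy, rfl⟩
  have hGle : ∀ v (c : ℝ), (∀ y ∈ K, L (y + v) - L y - dot (J.p y, J.s y) v ≤ c) →
      sSup ((fun y => L (y + v) - L y - dot (J.p y, J.s y) v) '' K) ≤ c := by
    intro v c h
    apply csSup_le (hne.image _)
    rintro _ ⟨y, hy, rfl⟩
    exact h y hy
  have hsm : ∀ ε : ℝ, 0 < ε → ∃ δ : ℝ, 0 < δ ∧ ∀ v, sq v ≤ δ ^ 2 →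
      sSup ((fun y => L (y + v) - L y - dot (J.p y, J.s y) v) '' K) ≤ ε * sq v := by
    intro ε hε
    obtain ⟨δ, hδ, h⟩ := hE.ex ε hε
    refine ⟨δ, hδ, fun v hv => hGle v _ fun y hy => ?_⟩
    have h1 := (abs_le.1 (h y hy v hv)).2
    obtain ⟨ha, hb', hc⟩ := h0 y hy
    have h2 : J.q y v = dot (J.p y, J.s y) v := by
      unfold Jets.q dot
      rw [ha, hb', hc]
      simp only
      ring
    rw [h2] at h1
    have h3 := hle (y + v)
    have h4 := heq y hy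
    linarith
  refine ⟨fun v => sSup ((fun y => L (y + v) - L y - dot (J.p y, J.s y) v) '' K), ?_, ?_, hsm, ?_⟩
  · intro v
    obtain ⟨y, hy⟩ := hne
    exact (hlow y hy v).trans (hleG y hy v)
  · obtain ⟨δ, hδ, h⟩ := hsm 1 one_pos
    refine ⟨1 + (Λ + Λ') / δ, fun v => ?_⟩
    have hv0 := sq_nonneg' v
    have hq : 0 ≤ (Λ + Λ') / δ := by positivity
    rcases le_total (sq v) (δ ^ 2) with hc | hc
    · have h1 := h v hc
      simp only
      nlinarith [mul_nonneg hq hv0]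
    · have h1 := hGle v _ (fun y hy => hup y hy v)
      have h2 : δ ≤ Real.sqrt (sq v) := by
        rw [← Real.sqrt_sq hδ.le]
        exact Real.sqrt_le_sqrt hc
      have h3 : Real.sqrt (sq v) ≤ sq v / δ := by
        rw [le_div_iff₀ hδ]
        calc Real.sqrt (sq v) * δ ≤ Real.sqrt (sq v) * Real.sqrt (sq v) :=
              mul_le_mul_of_nonneg_left h2 (Real.sqrt_nonneg _)
          _ = sq v := Real.mul_self_sqrt hv0
      have h4 : (Λ + Λ') * Real.sqrt (sq v) ≤ (Λ + Λ') / δ * sq v := by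
        calc (Λ + Λ') * Real.sqrt (sq v) ≤ (Λ + Λ') * (sq v / δ) :=
              mul_le_mul_of_nonneg_left h3 (by positivity)
          _ = (Λ + Λ') / δ * sq v := by ring
      simp only
      nlinarith
  · intro y hy v
    have := hleG y hy v
    simp only
    linarith

end Pool.Agent.MP_4eca41.R0
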