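import Pool.Agent.Work.MP_4eca41_an.R0.Base
import Pool.Agent.Work.MP_4eca41_an.T.Ker2

/-! # Module R0/MolD: elementary properties of the variable radius mollification

All integrands are integrable: `T.phi2_int` (`z + ρ • s` with `ρ = r z`, or with `r (z + v)` and the point `z + v`). The kernel
`phi2` is nonnegative, zero for `1 ≤ sq s` (`T.phi2_zero'`), `∫ phi2 = 1`, `∫ s.1 phi2 = ∫ s.2 phi2 = 0` (`T.phi2_m1`).
`mol_D2`: linearity of the integral. `mol_D2_low`, `mol_D2_upp`, `mol_le`: compare the integrands, both sides vanish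
for `1 ≤ sq s`. `mol_ge`: `∫ (a + dot q (z + r z • s - y)) phi2 s = a + dot q (z - y)`. -/

set_option autoImplicit false

namespace Pool.Agent.MP_4eca41.R0

open Set MeasureTheory

variable {U r : ℝ × ℝ → ℝ}

private theorem aff_int (q y z : ℝ × ℝ) (a ρ : ℝ) :
    ∫ s : ℝ × ℝ, (a + dot q (z + ρ • s - y)) * T.phi2 s = a + dot q (z - y) := by
  have i0 : Integrable fun s : ℝ × ℝ => T.phi2 s := T.phi2_integrable
  have i1 : Integrable fun s : ℝ × ℝ => s.1 * T.phi2 s := by
    have := T.phi2_int (fun w => w.1) continuous_fst 0 1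
    simpa using this
  have i2 : Integrable fun s : ℝ × ℝ => s.2 * T.phi2 s := by
    have := T.phi2_int (fun w => w.2) continuous_snd 0 1
    simpa using this
  have e : (fun s : ℝ × ℝ => (a + dot q (z + ρ • s - y)) * T.phi2 s) =
      fun s => (a + dot q (z - y)) * T.phi2 s +
        ((ρ * q.1) * (s.1 * T.phi2 s) + (ρ * q.2) * (s.2 * T.phi2 s)) := by
    funext s
    simp only [dot, Prod.fst_sub, Prod.snd_sub, Prod.fst_add, Prod.snd_add, Prod.smul_fst,
      Prod.smul_snd, smul_eq_mul]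
    ring
  have j0 : Integrable fun s : ℝ × ℝ => (a + dot q (z - y)) * T.phi2 s := i0.const_mul _
  have j1 : Integrable fun s : ℝ × ℝ => (ρ * q.1) * (s.1 * T.phi2 s) := i1.const_mul _
  have j2 : Integrable fun s : ℝ × ℝ => (ρ * q.2) * (s.2 * T.phi2 s) := i2.const_mul _
  have j12 : Integrable fun s : ℝ × ℝ => (ρ * q.1) * (s.1 * T.phi2 s) +
    (ρ * q.2) * (s.2 * T.phi2 s) := j1.add j2
  rw [e, integral_add j0 j12, integral_add j1 j2, integral_const_mul, integral_const_mul,
    integral_const_mul, T.phi2_m1.1, T.phi2_m1.2, T.phi2_integral]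
  ring

private theorem mono_of {A B : ℝ × ℝ → ℝ} (hA : Integrable fun s : ℝ × ℝ => A s * T.phi2 s)
    (hB : Integrable fun s : ℝ × ℝ => B s * T.phi2 s)
    (h : ∀ s : ℝ × ℝ, sq s ≤ 1 → A s ≤ B s) :
    ∫ s : ℝ × ℝ, A s * T.phi2 s ≤ ∫ s : ℝ × ℝ, B s * T.phi2 s := by
  refine integral_mono hA hB (fun s => ?_)
  by_cases hs : sq s ≤ 1
  · exact mul_le_mul_of_nonneg_right (h s hs) (T.phi2_nonneg s)
  · have h0 := T.phi2_zero' s (le_of_not_ge hs)
    simp only [h0, mul_zero, le_refl]

private theorem const_int (c : ℝ) : ∫ s : ℝ × ℝ, c * T.phi2 s = c := by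
  rw [integral_const_mul, T.phi2_integral, mul_one]

private theorem D2_eq (hU : Continuous U) (v z : ℝ × ℝ) : D2 (T.mol2 U r) v z =
    ∫ s : ℝ × ℝ, (U (z + v + r (z + v) • s) + U (z - v + r (z - v) • s)
      - 2 * U (z + r z • s)) * T.phi2 s := by
  have i1 := T.phi2_int U hU (z + v) (r (z + v))
  have i2 := T.phi2_int U hU (z - v) (r (z - v))
  have i3 := T.phi2_int U hU z (r z)
  have e : (fun s : ℝ × ℝ => (U (z + v + r (z + v) • s) + U (z - v + r (z - v) • s)
      - 2 * U (z + r z • s)) * T.phi2 s) =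
      fun s => (U (z + v + r (z + v) • s) * T.phi2 s + U (z - v + r (z - v) • s) * T.phi2 s)
        - 2 * (U (z + r z • s) * T.phi2 s) := by
    funext s
    ring
  have i12 : Integrable fun s : ℝ × ℝ => U (z + v + r (z + v) • s) * T.phi2 s +
    U (z - v + r (z - v) • s) * T.phi2 s := i1.add i2
  have i3' : Integrable fun s : ℝ × ℝ => 2 * (U (z + r z • s) * T.phi2 s) := i3.const_mul 2
  rw [e, integral_sub i12 i3', integral_add i1 i2, integral_const_mul]
  rfl

private theorem D2_integrable (hU : Continuous U) (v z : ℝ × ℝ) :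
    Integrable fun s : ℝ × ℝ => (U (z + v + r (z + v) • s) + U (z - v + r (z - v) • s)
      - 2 * U (z + r z • s)) * T.phi2 s := by
  have i1 := T.phi2_int U hU (z + v) (r (z + v))
  have i2 := T.phi2_int U hU (z - v) (r (z - v))
  have i3 := T.phi2_int U hU z (r z)
  have e : (fun s : ℝ × ℝ => (U (z + v + r (z + v) • s) + U (z - v + r (z - v) • s)
      - 2 * U (z + r z • s)) * T.phi2 s) =
      fun s => (U (z + v + r (z + v) • s) * T.phi2 s + U (z - v + r (z - v) • s) * T.phi2 s)
        - 2 * (U (z + r z • s) * T.phi2 s) := by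
    funext s
    ring
  rw [e]
  exact (i1.add i2).sub (i3.const_mul 2)

theorem mol_zero {z : ℝ × ℝ} (hz : r z = 0) : T.mol2 U r z = U z := by
  unfold T.mol2
  rw [hz]
  simp only [zero_smul, add_zero]
  exact const_int (U z)

theorem mol_le (hU : Continuous U) {z : ℝ × ℝ} {c : ℝ}
    (h : ∀ s : ℝ × ℝ, sq s ≤ 1 → U (z + r z • s) ≤ c) : T.mol2 U r z ≤ c := by
  have h1 := mono_of (A := fun s => U (z + r z • s)) (B := fun _ => c)
    (T.phi2_int U hU z (r z)) (T.phi2_integrable.const_mul c) h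
  rw [const_int] at h1
  exact h1

theorem mol_le_aff (hU : Continuous U) {z y q : ℝ × ℝ} {a c : ℝ}
    (h : ∀ s : ℝ × ℝ, sq s ≤ 1 → U (z + r z • s) ≤ a + dot q (z + r z • s - y) + c) :
    T.mol2 U r z ≤ a + dot q (z - y) + c := by
  have hB : Integrable fun s : ℝ × ℝ => (a + c + dot q (z + r z • s - y)) * T.phi2 s := by
    have hc : Continuous fun w : ℝ × ℝ => a + c + dot q (w - y) := by
      unfold dot
      fun_prop
    exact T.phi2_int (fun w => a + c + dot q (w - y)) hc z (r z)
  have h1 := mono_of (A := fun s => U (z + r z • s))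
    (B := fun s => a + c + dot q (z + r z • s - y))
    (T.phi2_int U hU z (r z)) hB (fun s hs => by
      have := h s hs
      linarith)
  rw [aff_int] at h1
  have h2 : T.mol2 U r z = ∫ s : ℝ × ℝ, U (z + r z • s) * T.phi2 s := rfl
  rw [h2]
  linarith

theorem mol_ge (hU : Continuous U) {z y q : ℝ × ℝ} {a : ℝ}
    (h : ∀ w, a + dot q (w - y) ≤ U w) : a + dot q (z - y) ≤ T.mol2 U r z := by
  have hB : Integrable fun s : ℝ × ℝ => (a + dot q (z + r z • s - y)) * T.phi2 s := by
    have hc : Continuous fun w : ℝ × ℝ => a + dot q (w - y) := by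
      unfold dot
      fun_prop
    exact T.phi2_int (fun w => a + dot q (w - y)) hc z (r z)
  have h1 := mono_of (A := fun s => a + dot q (z + r z • s - y))
    (B := fun s => U (z + r z • s)) hB
    (T.phi2_int U hU z (r z)) (fun s _ => h _)
  rw [aff_int] at h1
  exact h1

theorem mol_D2_low (hU : Continuous U) {v z : ℝ × ℝ}
    (h : ∀ s : ℝ × ℝ, sq s ≤ 1 →
      0 ≤ U (z + v + r (z + v) • s) + U (z - v + r (z - v) • s) - 2 * U (z + r z • s)) :
    0 ≤ D2 (T.mol2 U r) v z := by
  rw [D2_eq hU]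
  have h1 := mono_of (A := fun _ => 0) (B := fun s => U (z + v + r (z + v) • s)
    + U (z - v + r (z - v) • s) - 2 * U (z + r z • s))
    (T.phi2_integrable.const_mul 0) (D2_integrable hU v z) h
  rw [const_int] at h1
  exact h1

theorem mol_D2_upp (hU : Continuous U) {v z : ℝ × ℝ} {c : ℝ}
    (h : ∀ s : ℝ × ℝ, sq s ≤ 1 →
      U (z + v + r (z + v) • s) + U (z - v + r (z - v) • s) - 2 * U (z + r z • s) ≤ c) :
    D2 (T.mol2 U r) v z ≤ c := by
  rw [D2_eq hU]
  have h1 := mono_of (A := fun s => U (z + v + r (z + v) • s)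
    + U (z - v + r (z - v) • s) - 2 * U (z + r z • s)) (B := fun _ => c)
    (D2_integrable hU v z) (T.phi2_integrable.const_mul c) h
  rw [const_int] at h1
  exact h1

end Pool.Agent.MP_4eca41.R0
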