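import Pool.Agent.Work.MP_4eca41_an.R0.Base

/-! # Module R0/SumA: an infinite convex combination (R0.7)

PROOF. Let `R_j = |R| + j + 1`. `S_j ≥ 0` with `v j - u ≤ S_j` on `cb 0 R_j` (continuous functions on a compact set),
`C_j ≥ 0` with `D2 (v j) w z ≤ C_j sq w` for `z ∈ cb 0 R_j`, `sq w ≤ 1`. `c j = (1/2)^(j+2) * min 1 η / (1 + S_j + C_j)`,
`U z = u z + ∑' j, c j * (v j z - u z)`.
For every `z` eventually `z ∈ cb 0 R_j`, where `0 ≤ c j (v j z - u z) ≤ (1/2)^(j+2)`: summable. `∑ c j ≤ 1/2`.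
Convex: partial sums `u + ∑_{j<n} c j (v j - u) = (1 - ∑_{j<n} c j) u + ∑_{j<n} c j v j` are convex; pointwise limit.
`U ≤ u + η` on `cb 0 R`: all `c j (v j - u) ≤ (1/2)^(j+2) η`.
`D2 U w z = D2 u w z + ∑' j, c j * (D2 (v j) w z - D2 u w z)` (linearity of `tsum`)
`= (1 - ∑ c j) D2 u w z + ∑' j, c j * D2 (v j) w z`, all terms `≥ 0` (`D2_convex`): `c j * D2 (v j) w z ≤ D2 U w z`.
Last claim: choose `n` with `∑_{j ≥ n} (1/2)^(j+2) ≤ κ`; the terms `j < n` vanish, and for `j ≥ n`: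
`c j (D2 (v j) w z - D2 u w z) ≤ c j D2 (v j) w z ≤ c j C_j sq w ≤ (1/2)^(j+2) sq w`. -/

set_option autoImplicit false

namespace Pool.Agent.MP_4eca41.R0

open Set MeasureTheory

private theorem sa_norm {w : ℝ × ℝ} {r : ℝ} (hr : 0 ≤ r) (h : sq w ≤ r ^ 2) : ‖w‖ ≤ r := by
  have h1 : w.1 ^ 2 ≤ r ^ 2 := by
    unfold sq at h
    nlinarith [sq_nonneg w.2]
  have h2 : w.2 ^ 2 ≤ r ^ 2 := by
    unfold sq at h
    nlinarith [sq_nonneg w.1]
  rw [Prod.norm_def]
  exact max_le (by rw [Real.norm_eq_abs]; exact abs_le_of_sq_le_sq h1 hr)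
    (by rw [Real.norm_eq_abs]; exact abs_le_of_sq_le_sq h2 hr)

private theorem sa_bd {f : ℝ × ℝ → ℝ} (hf : Continuous f) {r : ℝ} (hr : 0 ≤ r) :
    ∃ S : ℝ, 0 ≤ S ∧ ∀ z ∈ cb 0 r, f z ≤ S := by
  have hcomp : IsCompact (Metric.closedBall (0 : ℝ × ℝ) r) := isCompact_closedBall _ _
  obtain ⟨M, hM⟩ := hcomp.exists_bound_of_continuousOn hf.continuousOn
  refine ⟨|M|, abs_nonneg _, fun z hz => ?_⟩
  have h1 : sq (z - 0) ≤ r ^ 2 := hz
  rw [sub_zero] at h1
  have h2 := hM z (by rw [Metric.mem_closedBall, dist_zero_right]; exact sa_norm hr h1)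
  rw [Real.norm_eq_abs] at h2
  exact (le_abs_self _).trans (h2.trans (le_abs_self _))

private theorem sa_geo : Summable (fun j : ℕ => (1 / 2 : ℝ) ^ (j + 2)) ∧
    ∑' j : ℕ, (1 / 2 : ℝ) ^ (j + 2) = 1 / 2 := by
  have h1 : (fun j : ℕ => (1 / 2 : ℝ) ^ (j + 2)) = fun j : ℕ => (1 / 4 : ℝ) * (1 / 2) ^ j := by
    funext j
    rw [pow_add]
    norm_num
    ring
  rw [h1]
  constructor
  · exact summable_geometric_two.mul_left _
  · rw [tsum_mul_left, tsum_geometric_two]
    norm_num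

theorem sum_abs {u : ℝ × ℝ → ℝ} {v : ℕ → ℝ × ℝ → ℝ} (hu : ConvexOn ℝ univ u)
    (hv : ∀ j, ConvexOn ℝ univ (v j)) (huv : ∀ j z, u z ≤ v j z)
    (hC : ∀ (j : ℕ) (R : ℝ), ∃ C : ℝ, ∀ z ∈ cb 0 R, ∀ w : ℝ × ℝ, sq w ≤ 1 →
      D2 (v j) w z ≤ C * sq w) (R : ℝ) {η : ℝ} (hη : 0 < η) :
    ∃ (c : ℕ → ℝ) (U : ℝ × ℝ → ℝ), (∀ j, 0 < c j) ∧ ConvexOn ℝ univ U ∧ (∀ z, u z ≤ U z) ∧
      (∀ z ∈ cb 0 R, U z ≤ u z + η) ∧ (∀ z, (∀ j, v j z = u z) → U z = u z) ∧
      (∀ (j : ℕ) (w z : ℝ × ℝ), c j * D2 (v j) w z ≤ D2 U w z) ∧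
      ∀ κ : ℝ, 0 < κ → ∃ n : ℕ, ∀ z ∈ cb 0 R, ∀ w : ℝ × ℝ, sq w ≤ 1 →
        (∀ j < n, v j z = u z ∧ v j (z + w) = u (z + w) ∧ v j (z - w) = u (z - w)) →
        D2 U w z ≤ D2 u w z + κ * sq w := by
  classical
  have hRj : ∀ j : ℕ, 0 ≤ |R| + j + 1 := fun j => by positivity
  have hS : ∀ j : ℕ, ∃ S : ℝ, 0 ≤ S ∧ ∀ z ∈ cb 0 (|R| + j + 1), v j z - u z ≤ S := fun j =>
    sa_bd ((continuous_of_convex (hv j)).sub (continuous_of_convex hu)) (hRj j)
  choose S hS0 hS1 using hS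
  have hCc : ∀ j : ℕ, ∃ C : ℝ, 0 ≤ C ∧ ∀ z ∈ cb 0 (|R| + j + 1), ∀ w : ℝ × ℝ, sq w ≤ 1 →
      D2 (v j) w z ≤ C * sq w := by
    intro j
    obtain ⟨C, hC1⟩ := hC j (|R| + j + 1)
    refine ⟨max C 0, le_max_right _ _, fun z hz w hw => (hC1 z hz w hw).trans ?_⟩
    exact mul_le_mul_of_nonneg_right (le_max_left _ _) (sq_nonneg' w)
  choose C hC0 hC1 using hCc
  set p : ℕ → ℝ := fun j => (1 / 2 : ℝ) ^ (j + 2) with hp
  have hp0 : ∀ j, 0 < p j := fun j => by
    simp only [hp]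
    positivity
  have hp1 : ∀ j, p j ≤ 1 := fun j => pow_le_one₀ (by norm_num) (by norm_num)
  have hps : Summable p := sa_geo.1
  have hpt : ∑' j, p j = 1 / 2 := sa_geo.2
  set m : ℝ := min 1 η with hm
  have hm0 : 0 < m := lt_min one_pos hη
  have hm1 : m ≤ 1 := min_le_left _ _
  have hmη : m ≤ η := min_le_right _ _
  set c : ℕ → ℝ := fun j => p j * p j * m / (1 + S j + C j) with hc
  have hDp : ∀ j, 1 ≤ 1 + S j + C j := fun j => by linarith [hS0 j, hC0 j]
  have hc0 : ∀ j, 0 < c j := fun j => by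
    have h1 := hp0 j
    have h2 := hDp j
    simp only [hc]
    positivity
  have hcD : ∀ j, c j * (1 + S j + C j) = p j * p j * m := by
    intro j
    have h2 := hDp j
    simp only [hc]
    field_simp
  have hcle : ∀ j, c j ≤ p j := by
    intro j
    have h1 := hcD j
    have h2 := hDp j
    have h3 : c j * 1 ≤ c j * (1 + S j + C j) := mul_le_mul_of_nonneg_left h2 (hc0 j).le
    have h4 : p j * p j * m ≤ p j * 1 * 1 :=
      mul_le_mul (mul_le_mul_of_nonneg_left (hp1 j) (hp0 j).le) hm1 hm0.le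
        (by have := hp0 j; positivity)
    linarith
  have hcS : ∀ j, c j * S j ≤ p j * m := by
    intro j
    have h1 := hcD j
    have h3 : c j * S j ≤ c j * (1 + S j + C j) :=
      mul_le_mul_of_nonneg_left (by linarith [hC0 j]) (hc0 j).le
    have h4 : p j * p j * m ≤ p j * 1 * m :=
      mul_le_mul_of_nonneg_right (mul_le_mul_of_nonneg_left (hp1 j) (hp0 j).le) hm0.le
    linarith
  have hcC : ∀ j, c j * C j ≤ p j * p j := by
    intro j
    have h1 := hcD j
    have h3 : c j * C j ≤ c j * (1 + S j + C j) :=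
      mul_le_mul_of_nonneg_left (by linarith [hS0 j]) (hc0 j).le
    have h4 : p j * p j * m ≤ p j * p j * 1 :=
      mul_le_mul_of_nonneg_left hm1 (by have := hp0 j; positivity)
    linarith
  have hcsum : Summable c := Summable.of_nonneg_of_le (fun j => (hc0 j).le) hcle hps
  -- summability
  have hb0 : ∀ j z, 0 ≤ c j * (v j z - u z) := fun j z =>
    mul_nonneg (hc0 j).le (by linarith [huv j z])
  have hbs : ∀ z, Summable fun j => c j * (v j z - u z) := by
    intro z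
    refine Summable.of_norm_bounded_eventually_nat hps ?_
    obtain ⟨N, hN⟩ := exists_nat_ge (1 + sq z)
    filter_upwards [Filter.eventually_ge_atTop N] with j hj
    have h1 : z ∈ cb 0 (|R| + j + 1) := by
      rw [mem_cb, sub_zero]
      have h2 : (N : ℝ) ≤ j := by exact_mod_cast hj
      have h3 := abs_nonneg R
      have h4 := sq_nonneg' z
      nlinarith
    rw [Real.norm_eq_abs, abs_of_nonneg (hb0 j z)]
    have h5 : c j * (v j z - u z) ≤ c j * S j :=
      mul_le_mul_of_nonneg_left (hS1 j z h1) (hc0 j).le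
    have h6 : p j * m ≤ p j * 1 := mul_le_mul_of_nonneg_left hm1 (hp0 j).le
    linarith [hcS j]
  have hvs : ∀ z, Summable fun j => c j * v j z := by
    intro z
    have h1 := (hbs z).add (hcsum.mul_right (u z))
    refine h1.congr fun j => ?_
    ring
  set C0 : ℝ := ∑' j, c j with hC0'
  have hC01 : C0 ≤ 1 := by
    have h1 := hcsum.tsum_le_tsum hcle hps
    rw [hpt] at h1
    linarith
  set U : ℝ × ℝ → ℝ := fun z => (1 - C0) * u z + ∑' j, c j * v j z with hU
  have hU2 : ∀ z, U z = u z + ∑' j, c j * (v j z - u z) := by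
    intro z
    have h1 : ∑' j, c j * (v j z - u z) = (∑' j, c j * v j z) - C0 * u z := by
      have h2 : (fun j => c j * (v j z - u z)) = fun j => c j * v j z - c j * u z := by
        funext j
        ring
      rw [h2, (hvs z).tsum_sub (hcsum.mul_right (u z)), tsum_mul_right]
    rw [h1]
    simp only [hU]
    ring
  have hD2U : ∀ w z, D2 U w z = (1 - C0) * D2 u w z + ∑' j, c j * D2 (v j) w z := by
    intro w z
    have h1 : (fun j => c j * D2 (v j) w z) = fun j => (c j * v j (z + w) + c j * v j (z - w)) -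
        2 * (c j * v j z) := by
      funext j
      unfold D2
      ring
    rw [h1, ((hvs (z + w)).add (hvs (z - w))).tsum_sub ((hvs z).mul_left 2),
      (hvs (z + w)).tsum_add (hvs (z - w)), tsum_mul_left]
    simp only [D2, hU]
    ring
  have hD2s : ∀ w z, Summable fun j => c j * D2 (v j) w z := by
    intro w z
    have h1 : (fun j => c j * D2 (v j) w z) = fun j => (c j * v j (z + w) + c j * v j (z - w)) -
        2 * (c j * v j z) := by
      funext j
      unfold D2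
      ring
    rw [h1]
    exact ((hvs (z + w)).add (hvs (z - w))).sub ((hvs z).mul_left 2)
  have hD2v0 : ∀ j w z, 0 ≤ c j * D2 (v j) w z := fun j w z =>
    mul_nonneg (hc0 j).le (D2_convex (hv j) w z)
  have hcbR : ∀ j : ℕ, ∀ z ∈ cb 0 R, z ∈ cb 0 (|R| + j + 1) := by
    intro j z hz
    rw [mem_cb, sub_zero] at hz ⊢
    have h1 : R ^ 2 = |R| ^ 2 := (sq_abs R).symm
    have h2 := abs_nonneg R
    have h3 : (0 : ℝ) ≤ j := Nat.cast_nonneg j
    nlinarith
  refine ⟨c, U, hc0, ?_, ?_, ?_, ?_, ?_, ?_⟩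
  · refine ⟨convex_univ, fun x _ y _ a b ha hb hab => ?_⟩
    simp only [smul_eq_mul, hU]
    have h1 := hu.2 (mem_univ x) (mem_univ y) ha hb hab
    simp only [smul_eq_mul] at h1
    have h2 : ∑' j, c j * v j (a • x + b • y) ≤ a * (∑' j, c j * v j x) +
        b * ∑' j, c j * v j y := by
      rw [← tsum_mul_left, ← tsum_mul_left, ← ((hvs x).mul_left a).tsum_add
        ((hvs y).mul_left b)]
      refine (hvs _).tsum_le_tsum (fun j => ?_) (((hvs x).mul_left a).add ((hvs y).mul_left b))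
      have h3 := (hv j).2 (mem_univ x) (mem_univ y) ha hb hab
      simp only [smul_eq_mul] at h3
      have h4 := mul_le_mul_of_nonneg_left h3 (hc0 j).le
      linarith
    have h5 := mul_le_mul_of_nonneg_left h1 (by linarith : 0 ≤ 1 - C0)
    linarith
  · intro z
    rw [hU2 z]
    have h1 : 0 ≤ ∑' j, c j * (v j z - u z) := tsum_nonneg fun j => hb0 j z
    linarith
  · intro z hz
    rw [hU2 z]
    have h1 : ∑' j, c j * (v j z - u z) ≤ ∑' j, p j * m := by
      refine (hbs z).tsum_le_tsum (fun j => ?_) (hps.mul_right m)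
      have h5 : c j * (v j z - u z) ≤ c j * S j :=
        mul_le_mul_of_nonneg_left (hS1 j z (hcbR j z hz)) (hc0 j).le
      linarith [hcS j]
    rw [tsum_mul_right, hpt] at h1
    linarith
  · intro z hz
    rw [hU2 z]
    have h1 : (fun j => c j * (v j z - u z)) = fun _ => 0 := by
      funext j
      rw [hz j, sub_self, mul_zero]
    rw [h1, tsum_zero, add_zero]
  · intro j w z
    rw [hD2U w z]
    have h1 := (hD2s w z).le_tsum j (fun i _ => hD2v0 i w z)
    have h2 := mul_nonneg (by linarith : 0 ≤ 1 - C0) (D2_convex hu w z)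
    linarith
  · intro κ hκ
    obtain ⟨n, hn⟩ := exists_pow_lt_of_lt_one hκ (show (1 / 2 : ℝ) < 1 by norm_num)
    refine ⟨n, fun z hz w hw hj => ?_⟩
    rw [hD2U w z]
    have h1 : ∑' j, c j * D2 (v j) w z ≤ ∑' j, (c j * D2 u w z + (1 / 2) ^ n * sq w * p j) := by
      refine (hD2s w z).tsum_le_tsum (fun j => ?_)
        ((hcsum.mul_right _).add (hps.mul_left _))
      have hs := sq_nonneg' w
      by_cases hjn : j < n
      · obtain ⟨e1, e2, e3⟩ := hj j hjn
        have e4 : D2 (v j) w z = D2 u w z := by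
          unfold D2
          rw [e1, e2, e3]
        rw [e4]
        have := hp0 j
        have e5 : 0 ≤ (1 / 2 : ℝ) ^ n * sq w * p j := by positivity
        linarith
      · have e1 := hC1 j z (hcbR j z hz) w hw
        have e2 : c j * D2 (v j) w z ≤ c j * (C j * sq w) :=
          mul_le_mul_of_nonneg_left e1 (hc0 j).le
        have e3 : c j * C j * sq w ≤ p j * p j * sq w :=
          mul_le_mul_of_nonneg_right (hcC j) hs
        have e4 : p j ≤ (1 / 2 : ℝ) ^ n :=
          pow_le_pow_of_le_one (by norm_num) (by norm_num) (by omega)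
        have e5 : p j * (p j * sq w) ≤ (1 / 2 : ℝ) ^ n * (p j * sq w) :=
          mul_le_mul_of_nonneg_right e4 (mul_nonneg (hp0 j).le hs)
        have e6 := mul_nonneg (hc0 j).le (D2_convex hu w z)
        nlinarith [e2, e3, e5, e6]
    rw [(hcsum.mul_right _).tsum_add (hps.mul_left _), tsum_mul_right, tsum_mul_left, hpt] at h1
    have hs := sq_nonneg' w
    have h2 : (1 / 2 : ℝ) ^ n * sq w * (1 / 2) ≤ κ * sq w := by
      have h3 : (1 / 2 : ℝ) ^ n * sq w ≤ κ * sq w := mul_le_mul_of_nonneg_right hn.le hs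
      have h4 : 0 ≤ (1 / 2 : ℝ) ^ n * sq w := by positivity
      linarith
    have h5 : (∑' j, c j) * D2 u w z = C0 * D2 u w z := rfl
    nlinarith [h1, h2]

end Pool.Agent.MP_4eca41.R0
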