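import Pool.Agent.Work.MP_4eca41_an.R0.Base

/-! # Module R0/Unq: subgradients and uniqueness

`unq` PROOF. Let `d = q - q'`. For `κ > 0` and small `t > 0` put `v = t • d`: `t * sq d ≤ κ t^2 sq d`. With `κ = 1`
and `t < 1` small: `sq d ≤ 0`.
`sub_exp` PROOF. Let `w = z - y`. For small `t ∈ (0,1)`: convexity `f (y + t w) ≤ (1-t) f y + t f z`, the
hypothesis with `v = t • w`, divide by `t` and let `t → 0` (or choose `t` small against a supposed strict
inequality).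
`sub_plane` PROOF. Existence of subgradients: for instance `Pool.Agent.MP_4eca41.A.sub_ex` (module A/Sub) for the
function `f ∘ e` on `EuclideanSpace ℝ (Fin 2)`, `e x = (x 0, x 1)`; or `geometric_hahn_banach_point_open` for the strict
epigraph; or slopes in two steps. -/

set_option autoImplicit false

namespace Pool.Agent.MP_4eca41.R0

open Set MeasureTheory

private theorem unq_t {a δ : ℝ} (ha : 0 ≤ a) (hδ : 0 < δ) :
    ∃ t : ℝ, 0 < t ∧ t ≤ 1 / 2 ∧ t ^ 2 * a ≤ δ ^ 2 := by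
  refine ⟨min (1 / 2) (δ / (1 + a)), lt_min (by norm_num) (by positivity), min_le_left _ _, ?_⟩
  have h1 : min (1 / 2) (δ / (1 + a)) ≤ δ / (1 + a) := min_le_right _ _
  have h0 : 0 < min (1 / 2) (δ / (1 + a)) := lt_min (by norm_num) (by positivity)
  have h2 : min (1 / 2) (δ / (1 + a)) * (1 + a) ≤ δ := by
    rwa [← le_div_iff₀ (by positivity)]
  have h3 : a ≤ (1 + a) ^ 2 := by nlinarith
  calc min (1 / 2) (δ / (1 + a)) ^ 2 * a ≤ min (1 / 2) (δ / (1 + a)) ^ 2 * (1 + a) ^ 2 :=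
        mul_le_mul_of_nonneg_left h3 (sq_nonneg _)
    _ = (min (1 / 2) (δ / (1 + a)) * (1 + a)) ^ 2 := by ring
    _ ≤ δ ^ 2 := pow_le_pow_left₀ (by positivity) h2 2

theorem unq {q q' : ℝ × ℝ} (h : ∀ κ : ℝ, 0 < κ → ∃ δ : ℝ, 0 < δ ∧ ∀ v : ℝ × ℝ, sq v ≤ δ ^ 2 →
    dot q v ≤ dot q' v + κ * sq v) : q = q' := by
  obtain ⟨δ, hδ, h1⟩ := h 1 one_pos
  have hs : 0 ≤ sq (q - q') := sq_nonneg' _
  obtain ⟨t, ht0, ht1, ht2⟩ := unq_t hs hδ
  have h2 := h1 (t • (q - q')) (by rw [sq_smul']; exact ht2)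
  rw [dot_smul_right, dot_smul_right, sq_smul'] at h2
  have h3 : dot q (q - q') - dot q' (q - q') = sq (q - q') := by
    simp only [dot, sq, Prod.fst_sub, Prod.snd_sub]
    ring
  have h4 : t * sq (q - q') ≤ t ^ 2 * sq (q - q') := by nlinarith
  have h5 : sq (q - q') ≤ 0 := by
    by_contra h6
    push Not at h6
    have h7 : t ≤ t ^ 2 := le_of_mul_le_mul_right h4 h6
    nlinarith
  exact sub_eq_zero.1 (sq_eq_zero' (le_antisymm h5 hs))

theorem sub_exp {f : ℝ × ℝ → ℝ} (hf : ConvexOn ℝ univ f) {y q : ℝ × ℝ}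
    (h : ∃ C δ : ℝ, 0 < δ ∧ ∀ v : ℝ × ℝ, sq v ≤ δ ^ 2 → f y + dot q v - C * sq v ≤ f (y + v))
    (z : ℝ × ℝ) : f y + dot q (z - y) ≤ f z := by
  obtain ⟨C, δ, hδ, h1⟩ := h
  by_contra hlt
  push Not at hlt
  set g : ℝ := f y + dot q (z - y) - f z with hg
  have hg0 : 0 < g := by linarith
  have hs : 0 ≤ sq (z - y) := sq_nonneg' _
  obtain ⟨t0, ht0, ht1, ht2⟩ := unq_t hs hδ
  have hb : 0 < |C| * sq (z - y) + 1 := by positivity
  set t : ℝ := min t0 (g / (2 * (|C| * sq (z - y) + 1))) with ht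
  have htpos : 0 < t := lt_min ht0 (by positivity)
  have htle : t ≤ t0 := min_le_left _ _
  have htg : t * (|C| * sq (z - y) + 1) ≤ g / 2 := by
    have h2 : t ≤ g / (2 * (|C| * sq (z - y) + 1)) := min_le_right _ _
    rw [le_div_iff₀ (by positivity)] at h2
    linarith
  have h3 : sq (t • (z - y)) ≤ δ ^ 2 := by
    rw [sq_smul']
    refine le_trans (mul_le_mul_of_nonneg_right ?_ hs) ht2
    exact pow_le_pow_left₀ htpos.le htle 2
  have h4 := h1 _ h3
  rw [dot_smul_right, sq_smul'] at h4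
  have h5 := hf.2 (mem_univ y) (mem_univ z) (by linarith : (0 : ℝ) ≤ 1 - t) htpos.le (by ring)
  have h6 : (1 - t) • y + t • z = y + t • (z - y) := by
    rw [smul_sub, sub_smul, one_smul]
    abel
  rw [h6] at h5
  simp only [smul_eq_mul] at h5
  have h7 : C * (t ^ 2 * sq (z - y)) ≤ t * (t * (|C| * sq (z - y))) := by
    have h8 : C ≤ |C| := le_abs_self C
    have h9 : 0 ≤ t ^ 2 * sq (z - y) := by positivity
    nlinarith
  have h10 : t * (t * (|C| * sq (z - y))) ≤ t * (g / 2) := by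
    refine mul_le_mul_of_nonneg_left ?_ htpos.le
    nlinarith
  have h11 : t * g ≤ t * (g / 2) := by
    have : t * g = t * (f y + dot q (z - y) - f z) := by rw [hg]
    nlinarith
  have h12 : g ≤ g / 2 := le_of_mul_le_mul_left h11 htpos
  linarith

theorem sub_plane {f : ℝ × ℝ → ℝ} (hf : ConvexOn ℝ univ f) (z0 : ℝ × ℝ) :
    ∃ q : ℝ × ℝ, ∀ z, f z0 + dot q (z - z0) ≤ f z := by
  have hcont : Continuous f := continuous_of_convex hf
  have hconv : Convex ℝ {w : (ℝ × ℝ) × ℝ | w.1 ∈ (univ : Set (ℝ × ℝ)) ∧ f w.1 < w.2} :=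
    hf.convex_strict_epigraph
  have hopen : IsOpen {w : (ℝ × ℝ) × ℝ | w.1 ∈ (univ : Set (ℝ × ℝ)) ∧ f w.1 < w.2} := by
    have h1 : {w : (ℝ × ℝ) × ℝ | w.1 ∈ (univ : Set (ℝ × ℝ)) ∧ f w.1 < w.2} =
        {w : (ℝ × ℝ) × ℝ | f w.1 < w.2} := by
      ext w
      simp
    rw [h1]
    exact isOpen_lt (hcont.comp continuous_fst) continuous_snd
  have hx : (z0, f z0) ∉ {w : (ℝ × ℝ) × ℝ | w.1 ∈ (univ : Set (ℝ × ℝ)) ∧ f w.1 < w.2} :=
    fun h => lt_irrefl _ h.2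
  obtain ⟨g, hg⟩ := geometric_hahn_banach_point_open hconv hopen hx
  have hsplit : ∀ (z : ℝ × ℝ) (t : ℝ), g (z, t) =
      z.1 * g ((1, 0), 0) + z.2 * g ((0, 1), 0) + t * g ((0, 0), 1) := by
    intro z t
    have h1 : ((z, t) : (ℝ × ℝ) × ℝ) = z.1 • (((1, 0) : ℝ × ℝ), (0 : ℝ)) +
        z.2 • (((0, 1) : ℝ × ℝ), (0 : ℝ)) + t • (((0, 0) : ℝ × ℝ), (1 : ℝ)) := by
      refine Prod.ext (Prod.ext ?_ ?_) ?_ <;> simp
    rw [h1, map_add, map_add, map_smul, map_smul, map_smul, smul_eq_mul, smul_eq_mul, smul_eq_mul]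
  set A := g ((1, 0), 0) with hA
  set B := g ((0, 1), 0) with hB
  set c := g ((0, 0), 1) with hcc
  have hc : 0 < c := by
    have h1 := hg (z0, f z0 + 1) ⟨mem_univ _, lt_add_one _⟩
    rw [hsplit z0 (f z0), hsplit z0 (f z0 + 1)] at h1
    nlinarith
  have hle : ∀ z : ℝ × ℝ, z0.1 * A + z0.2 * B + f z0 * c ≤ z.1 * A + z.2 * B + f z * c := by
    intro z
    refine le_of_forall_pos_le_add fun ε hε => ?_
    have h1 := hg (z, f z + ε / c) ⟨mem_univ _, lt_add_of_pos_right _ (div_pos hε hc)⟩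
    rw [hsplit z0 (f z0), hsplit z _, add_mul, div_mul_cancel₀ _ hc.ne'] at h1
    linarith
  refine ⟨(-A / c, -B / c), fun z => ?_⟩
  have h2 : dot (-A / c, -B / c) (z - z0) = (z0.1 * A + z0.2 * B - (z.1 * A + z.2 * B)) / c := by
    simp only [dot, Prod.fst_sub, Prod.snd_sub]
    field_simp
    ring
  rw [h2, ← le_sub_iff_add_le', div_le_iff₀ hc]
  have h3 := hle z
  linarith

end Pool.Agent.MP_4eca41.R0
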